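import Pool.Agent.H528R2.Defs
import Pool.Agent.NPC.Dec

/-!
# Definitions for the project: rational points in fixed dimension are NP-hard to find

The reduction maps a graph, whose vertices are primes `p ≡ 3 (mod 40)`, `p ≥ 43`, and whose edges
are the pairs `e = (u, v)` of a list `es`, to an integer `NN es` and a list `FF es` of `9` integers
(the coefficients of a polynomial of degree `8`, lowest degree first).
-/

set_option autoImplicit false

namespace Pool.Agent.H528R3.FD

open Pool.Agent.H528R2

/-- the square root of the denominator of `zz n` -/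
noncomputable def Dn (n : ℕ) : ℕ := (yy n).den / (zz n).den

/-- the integer attached to an edge: its prime factors are primes of rank `e.1 * e.2` -/
noncomputable def Ne (e : ℕ × ℕ) : ℕ := Dn (e.1 * e.2) / (Dn e.1 * Dn e.2)

/-- the number less than `u * v` congruent to `i` modulo `u` and to `j` modulo `v` -/
def crt (u v i j : ℕ) : ℕ :=
  ((List.range (u * v)).find? (fun a => decide (a % u = i ∧ a % v = j))).getD 1

/-- the classes of the admissible pairs of colours, up to sign: the colour `c` is coded by the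
classes of `c` and `-c` -/
def cls (e : ℕ × ℕ) : List ℕ :=
  [crt e.1 e.2 0 1, crt e.1 e.2 0 2, crt e.1 e.2 1 0, crt e.1 e.2 2 0,
    crt e.1 e.2 1 2, crt e.1 e.2 1 (e.2 - 2), crt e.1 e.2 2 1, crt e.1 e.2 2 (e.2 - 1)]

/-! ### polynomials as lists of integers, lowest degree first -/

/-- value of a polynomial -/
def evalL (l : List ℤ) (x : ℚ) : ℚ := l.foldr (fun c s => (c : ℚ) + x * s) 0

/-- sum of two polynomials -/
def addL : List ℤ → List ℤ → List ℤ
  | [], l => l
  | a :: l, [] => a :: l
  | a :: l, b :: l' => (a + b) :: addL l l'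

/-- multiplication by a constant -/
def scale (c : ℤ) (l : List ℤ) : List ℤ := l.map (fun a => c * a)

/-- multiplication by `d X - n` -/
def mulLin (d n : ℤ) (l : List ℤ) : List ℤ := addL (0 :: scale d l) (scale (-n) l)

/-- the polynomial attached to an edge: the product of the `den (zz a) X - num (zz a)` -/
noncomputable def Fe (e : ℕ × ℕ) : List ℤ :=
  (cls e).foldr (fun a l => mulLin ((zz a).den : ℤ) (zz a).num l) [1]

/-- the product of the integers attached to the edges -/
noncomputable def PP (es : List (ℕ × ℕ)) : ℕ := (es.map Ne).prod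

/-- `∑ (PP / Ne e) Fe e` -/
noncomputable def SS (es : List (ℕ × ℕ)) : List ℤ :=
  es.foldr (fun e l => addL (scale ((PP es / Ne e : ℕ) : ℤ) (Fe e)) l) (List.replicate 9 0)

/-- the polynomial of the reduction -/
noncomputable def FF (es : List (ℕ × ℕ)) : List ℤ := scale 60 (SS es)

/-- the integer of the reduction -/
noncomputable def NN (es : List (ℕ × ℕ)) : ℕ := (PP es % 8) * PP es

/-- solvability over `ℚ` -/
def Solv (N : ℤ) (f : List ℤ) : Prop :=
  ∃ x y a b w : ℚ, y ^ 2 = x ^ 3 - 2 * x ^ 2 + 65 * x ∧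
    a ^ 2 - 2 * b ^ 2 + 2 * N * w ^ 2 =
      N ^ 2 + N * (∑ i ∈ Finset.range 9, ((f.getD i 0 : ℤ) : ℚ) * x ^ i) ^ 2

/-- the primes which are used as vertices -/
def GP (p : ℕ) : Prop := p.Prime ∧ p % 40 = 3 ∧ 43 ≤ p

instance (p : ℕ) : Decidable (GP p) := by unfold GP; infer_instance

/-- the admissible lists of edges -/
structure GoodE (es : List (ℕ × ℕ)) : Prop where
  nodup : es.Nodup
  gp1 : ∀ e ∈ es, GP e.1
  gp2 : ∀ e ∈ es, GP e.2
  lt : ∀ e ∈ es, e.1 < e.2

/-- `3`-colourability -/
def Col3 (es : List (ℕ × ℕ)) : Prop := ∃ c : ℕ → Fin 3, ∀ e ∈ es, c e.1 ≠ c e.2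

end Pool.Agent.H528R3.FD
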