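import Mathlib
import Pool.Agent.H528R3.FD.Defs
import Pool.Agent.Helper923.PNT

set_option autoImplicit false

open Filter Finset
open scoped Topology

namespace Pool.Agent.H528R3.FD

namespace Abund

open ArithmeticFunction

theorem unit3 : IsUnit (3 : ZMod 40) := by
  have : (3 : ZMod 40) * 27 = 1 := by decide
  exact IsUnit.of_mul_eq_one _ this

/-- primes `3 mod 40` up to `N` -/
def P3 (N : ℕ) : Finset ℕ := (Finset.Icc 1 N).filter (fun p => p.Prime ∧ p % 40 = 3)

theorem sum_le (N : ℕ) (hN : 1 ≤ N) :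
    ∑ k ∈ Finset.Icc 1 N, vonMangoldt.residueClass (3 : ZMod 40) k ≤
      ((P3 N).card : ℝ) * Real.log N + 2 * Real.sqrt N * Real.log N := by
  have hN' : (1 : ℝ) ≤ N := by exact_mod_cast hN
  have h1 : ∑ k ∈ Finset.Icc 1 N, vonMangoldt.residueClass (3 : ZMod 40) k ≤
      ∑ k ∈ P3 N, Real.log k + ∑ k ∈ (Finset.Icc 1 N).filter (fun k => ¬ k.Prime),
        vonMangoldt k := by
    rw [← Finset.sum_filter_add_sum_filter_not (Finset.Icc 1 N) (fun k => k.Prime)]
    refine add_le_add ?_ (Finset.sum_le_sum fun k _ => vonMangoldt.residueClass_le _ _)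
    have h2 : P3 N ⊆ (Finset.Icc 1 N).filter (fun k => k.Prime) := by
      intro k hk
      simp only [P3, Finset.mem_filter] at hk ⊢
      exact ⟨hk.1, hk.2.1⟩
    rw [← Finset.sum_subset h2]
    · refine Finset.sum_le_sum fun k hk => ?_
      simp only [P3, Finset.mem_filter] at hk
      refine (vonMangoldt.residueClass_le _ _).trans ?_
      rw [vonMangoldt_apply_prime hk.2.1]
    · intro k hk hk'
      simp only [P3, Finset.mem_filter, Finset.mem_Icc] at hk hk'
      have h3 : ¬ ((k : ZMod 40) = 3) := by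
        intro h
        apply hk'
        refine ⟨hk.1, hk.2, ?_⟩
        have : ((k : ℕ) : ZMod 40) = ((3 : ℕ) : ZMod 40) := by simpa using h
        have h4 := (ZMod.natCast_eq_natCast_iff' k 3 40).1 this
        simpa using h4
      simp only [vonMangoldt.residueClass]
      rw [Set.indicator_of_notMem]
      exact h3
  have h2 : ∑ k ∈ (Finset.Icc 1 N).filter (fun k => ¬ k.Prime), vonMangoldt k ≤
      2 * Real.sqrt N * Real.log N := by
    have h3 := Chebyshev.psi_sub_theta_le hN'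
    have h4 : Chebyshev.psi (N : ℝ) - Chebyshev.theta (N : ℝ) =
        ∑ k ∈ (Finset.Icc 1 N).filter (fun k => ¬ k.Prime), vonMangoldt k := by
      rw [Chebyshev.psi_sub_theta_eq_sum_not_prime]
      simp only [Nat.floor_natCast]
      rfl
    rw [← h4]
    exact h3
  have h3 : ∑ k ∈ P3 N, Real.log k ≤ ((P3 N).card : ℝ) * Real.log N := by
    rw [← nsmul_eq_mul]
    refine Finset.sum_le_card_nsmul _ _ _ fun k hk => ?_
    simp only [P3, Finset.mem_filter, Finset.mem_Icc] at hk
    exact Real.log_le_log (by exact_mod_cast hk.1.1) (by exact_mod_cast hk.1.2)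
  linarith

theorem P3_card (N : ℕ) : (P3 N).card ≤
    ((Finset.range (N + 1)).filter (fun p => GP p)).card + 1 := by
  have h : P3 N ⊆ insert 3 ((Finset.range (N + 1)).filter (fun p => GP p)) := by
    intro p hp
    simp only [P3, Finset.mem_filter, Finset.mem_Icc] at hp
    rw [Finset.mem_insert, Finset.mem_filter, Finset.mem_range]
    by_cases h3 : p = 3
    · exact Or.inl h3
    · right
      exact ⟨by omega, hp.2.1, hp.2.2, by omega⟩
  exact (Finset.card_le_card h).trans (Finset.card_insert_le _ _)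

theorem ev_sqrt : ∃ N₀ : ℕ, ∀ N : ℕ, N₀ ≤ N →
    Real.sqrt N ≤ ((Finset.range (N + 1)).filter (fun p => GP p)).card := by
  have h1 := Pool.Agent.Helper923.PNT.pnt_residueClass (q := 40) unit3
  have htot : Nat.totient 40 = 16 := by decide
  rw [htot] at h1
  have h2 : ∀ᶠ x : ℝ in atTop, (1 / 32 : ℝ) ≤ (∑ k ∈ Finset.Icc 1 ⌊x⌋₊,
      vonMangoldt.residueClass (3 : ZMod 40) k) / x := by
    have := h1.eventually (lt_mem_nhds (show (1 / 32 : ℝ) < ((16 : ℕ) : ℝ)⁻¹ by norm_num))
    filter_upwards [this] with x hx using hx.le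
  have h3 : ∀ᶠ x : ℝ in atTop, 128 * Real.log x ≤ Real.sqrt x := by
    have h := (isLittleO_log_rpow_atTop (show (0 : ℝ) < 1 / 2 by norm_num)).bound
      (show (0 : ℝ) < 1 / 128 by norm_num)
    filter_upwards [h, eventually_ge_atTop 1] with x hx hx1
    rw [Real.norm_of_nonneg (Real.log_nonneg hx1),
      Real.norm_of_nonneg (Real.rpow_nonneg (by linarith) _), ← Real.sqrt_eq_rpow] at hx
    linarith
  obtain ⟨X, hX⟩ := eventually_atTop.1 (h2.and (h3.and (eventually_ge_atTop 2)))
  refine ⟨⌈X⌉₊, fun N hN => ?_⟩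
  obtain ⟨h4, h5, h6⟩ := hX N ((Nat.le_ceil X).trans (by exact_mod_cast hN))
  rw [Nat.floor_natCast, le_div_iff₀ (by linarith)] at h4
  have h7 := sum_le N (by
    have : (1 : ℝ) ≤ N := by linarith
    exact_mod_cast this)
  have h8 : ((P3 N).card : ℝ) ≤
      ((Finset.range (N + 1)).filter (fun p => GP p)).card + 1 := by exact_mod_cast P3_card N
  set c : ℝ := (((Finset.range (N + 1)).filter (fun p => GP p)).card : ℝ) with hc
  have hL : 0 < Real.log N := Real.log_pos (by linarith)
  have hs : 1 ≤ Real.sqrt N := by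
    rw [show (1 : ℝ) = Real.sqrt 1 by simp]
    exact Real.sqrt_le_sqrt (by linarith)
  have hss : Real.sqrt N * Real.sqrt N = N := Real.mul_self_sqrt (by linarith)
  by_contra hcon
  push Not at hcon
  have h9 : (N : ℝ) / 32 ≤ (c + 1) * Real.log N + 2 * Real.sqrt N * Real.log N := by
    have := mul_le_mul_of_nonneg_right h8 hL.le
    linarith
  have h10 : (c + 1) * Real.log N + 2 * Real.sqrt N * Real.log N <
      4 * Real.sqrt N * Real.log N := by
    have : (c + 1 + 2 * Real.sqrt N) * Real.log N < (4 * Real.sqrt N) * Real.log N :=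
      mul_lt_mul_of_pos_right (by linarith) hL
    linarith
  have h11 : 4 * Real.sqrt N * Real.log N ≤ N / 32 := by
    have := mul_le_mul_of_nonneg_left h5 (by linarith : (0 : ℝ) ≤ Real.sqrt N)
    rw [hss] at this
    linarith
  linarith

end Abund

theorem many_primes : ∃ K : ℕ, ∀ n : ℕ,
    n ≤ ((Finset.range ((n + 2) ^ K)).filter (fun p => GP p)).card := by
  obtain ⟨N₀, h⟩ := Abund.ev_sqrt
  refine ⟨N₀ + 3, fun n => ?_⟩
  have h1 : N₀ + 1 ≤ (n + 2) ^ (N₀ + 3) := by
    have h2 : N₀ < 2 ^ N₀ := Nat.lt_two_pow_self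
    have h3 : 2 ^ N₀ ≤ (n + 2) ^ (N₀ + 3) :=
      (Nat.pow_le_pow_right (by norm_num) (by omega)).trans
        (Nat.pow_le_pow_left (by omega) _)
    omega
  obtain ⟨N, hN⟩ : ∃ N, (n + 2) ^ (N₀ + 3) = N + 1 := ⟨(n + 2) ^ (N₀ + 3) - 1, by omega⟩
  rw [hN]
  have h2 := h N (by omega)
  have h3 : (n : ℝ) ≤ Real.sqrt N := by
    apply Real.le_sqrt_of_sq_le
    have h4 : n ^ 2 ≤ N := by
      have h5 : (n + 2) ^ 3 ≤ (n + 2) ^ (N₀ + 3) := Nat.pow_le_pow_right (by omega) (by omega)
      have h6 : n ^ 2 + 1 ≤ (n + 2) ^ 3 := by nlinarith [Nat.zero_le n, Nat.zero_le (n^2), Nat.zero_le (n^3)]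
      omega
    exact_mod_cast h4
  exact_mod_cast h3.trans h2

end Pool.Agent.H528R3.FD
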