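import Pool.Agent.H528R3.FD.Defs

/-!
# The classes of the admissible pairs of colours

Elementary congruences: the Chinese remainder `crt`, the eight classes `cls e` of an edge and
their relation with the colours.
-/

set_option autoImplicit false

namespace Pool.Agent.H528R3.FD

open Pool.Agent.H528R2

theorem crt_spec {u v i j : ℕ} (hu : 0 < u) (hv : 0 < v) (huv : Nat.Coprime u v) (hi : i < u)
    (hj : j < v) : crt u v i j % u = i ∧ crt u v i j % v = j := by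
  obtain ⟨a, ha1, ha2⟩ := Nat.chineseRemainder huv i j
  have hb : a % (u * v) < u * v := Nat.mod_lt _ (Nat.mul_pos hu hv)
  have hb1 : a % (u * v) % u = i := by
    rw [Nat.mod_mul_right_mod]
    have h : a % u = i % u := ha1
    rw [h]
    exact Nat.mod_eq_of_lt hi
  have hb2 : a % (u * v) % v = j := by
    rw [Nat.mod_mul_left_mod]
    have h : a % v = j % v := ha2
    rw [h]
    exact Nat.mod_eq_of_lt hj
  cases hf : (List.range (u * v)).find? (fun a => decide (a % u = i ∧ a % v = j)) with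
  | none =>
    rw [List.find?_eq_none] at hf
    exfalso
    apply hf (a % (u * v)) (List.mem_range.2 hb)
    exact decide_eq_true ⟨hb1, hb2⟩
  | some b =>
    have h := List.find?_some hf
    have h' : b % u = i ∧ b % v = j := of_decide_eq_true h
    have hc : crt u v i j = b := by
      unfold crt
      rw [hf]
      rfl
    rw [hc]
    exact h'

/-- the colour of an integer modulo `p` -/
def colOf (M : ℤ) (p : ℕ) : Fin 3 :=
  if (p : ℤ) ∣ M then 0 else if (p : ℤ) ∣ M - 2 ∨ (p : ℤ) ∣ M + 2 then 1 else 2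

/-- the eight classes -/
theorem cls_cases {e : ℕ × ℕ} (h1 : GP e.1) (h2 : GP e.2) (hlt : e.1 < e.2) {a : ℕ}
    (ha : a ∈ cls e) :
    (a % e.1 = 0 ∧ a % e.2 = 1) ∨ (a % e.1 = 0 ∧ a % e.2 = 2) ∨ (a % e.1 = 1 ∧ a % e.2 = 0) ∨
    (a % e.1 = 2 ∧ a % e.2 = 0) ∨ (a % e.1 = 1 ∧ a % e.2 = 2) ∨
    (a % e.1 = 1 ∧ a % e.2 = e.2 - 2) ∨ (a % e.1 = 2 ∧ a % e.2 = 1) ∨
    (a % e.1 = 2 ∧ a % e.2 = e.2 - 1) := by
  obtain ⟨p1, -, g1⟩ := h1
  obtain ⟨p2, -, g2⟩ := h2
  have hco : Nat.Coprime e.1 e.2 := (Nat.coprime_primes p1 p2).2 (Nat.ne_of_lt hlt)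
  have hu : 0 < e.1 := p1.pos
  have hv : 0 < e.2 := p2.pos
  unfold cls at ha
  simp only [List.mem_cons, List.not_mem_nil, or_false] at ha
  rcases ha with h | h | h | h | h | h | h | h
  · exact Or.inl (h ▸ crt_spec hu hv hco (by omega) (by omega))
  · exact Or.inr (Or.inl (h ▸ crt_spec hu hv hco (by omega) (by omega)))
  · exact Or.inr (Or.inr (Or.inl (h ▸ crt_spec hu hv hco (by omega) (by omega))))
  · exact Or.inr (Or.inr (Or.inr (Or.inl (h ▸ crt_spec hu hv hco (by omega) (by omega)))))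
  · exact Or.inr (Or.inr (Or.inr (Or.inr (Or.inl
      (h ▸ crt_spec hu hv hco (by omega) (by omega))))))
  · exact Or.inr (Or.inr (Or.inr (Or.inr (Or.inr (Or.inl
      (h ▸ crt_spec hu hv hco (by omega) (by omega)))))))
  · exact Or.inr (Or.inr (Or.inr (Or.inr (Or.inr (Or.inr (Or.inl
      (h ▸ crt_spec hu hv hco (by omega) (by omega))))))))
  · exact Or.inr (Or.inr (Or.inr (Or.inr (Or.inr (Or.inr (Or.inr
      (h ▸ crt_spec hu hv hco (by omega) (by omega))))))))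

theorem cls_not_dvd {e : ℕ × ℕ} (h1 : GP e.1) (h2 : GP e.2) (hlt : e.1 < e.2) {a : ℕ}
    (ha : a ∈ cls e) : 0 < a ∧ ¬ (((e.1 * e.2 : ℕ) : ℤ) ∣ (a : ℤ)) := by
  have hc := cls_cases h1 h2 hlt ha
  obtain ⟨p1, -, g1⟩ := h1
  obtain ⟨p2, -, g2⟩ := h2
  have key : ¬ (a % e.1 = 0 ∧ a % e.2 = 0) := by
    rintro ⟨k1, k2⟩
    omega
  constructor
  · rcases Nat.eq_zero_or_pos a with h | h
    · exfalso
      apply key
      subst h
      exact ⟨Nat.zero_mod _, Nat.zero_mod _⟩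
    · exact h
  · intro hd
    rw [Int.natCast_dvd_natCast] at hd
    apply key
    exact ⟨Nat.mod_eq_zero_of_dvd (dvd_trans (Dvd.intro _ rfl) hd),
      Nat.mod_eq_zero_of_dvd (dvd_trans (Dvd.intro_left _ rfl) hd)⟩

/-- no small positive multiple -/
theorem not_dvd_small {p : ℕ} (hp : 43 ≤ p) {w : ℤ} (h0 : w ≠ 0) (h1 : |w| < 43) :
    ¬ (p : ℤ) ∣ w := by
  intro h
  have h2 := Int.le_of_dvd (abs_pos.2 h0) ((dvd_abs _ _).2 h)
  have h3 : (43 : ℤ) ≤ (p : ℤ) := by exact_mod_cast hp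
  omega

theorem colOf_zero {p : ℕ} {M : ℤ} (h : (p : ℤ) ∣ M) : colOf M p = 0 := by
  unfold colOf
  rw [if_pos h]

theorem colOf_one {p : ℕ} (hp : 43 ≤ p) {M : ℤ} (h : (p : ℤ) ∣ M - 2 ∨ (p : ℤ) ∣ M + 2) :
    colOf M p = 1 := by
  have h0 : ¬ (p : ℤ) ∣ M := by
    intro h0
    rcases h with h | h
    · have h3 := dvd_sub h0 h
      have h4 : M - (M - 2) = 2 := by ring
      rw [h4] at h3
      exact not_dvd_small hp (by norm_num) (by norm_num) h3
    · have h3 := dvd_sub h h0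
      have h4 : (M + 2) - M = 2 := by ring
      rw [h4] at h3
      exact not_dvd_small hp (by norm_num) (by norm_num) h3
  unfold colOf
  rw [if_neg h0, if_pos h]

theorem colOf_two {p : ℕ} (hp : 43 ≤ p) {M : ℤ} (h : (p : ℤ) ∣ M - 4 ∨ (p : ℤ) ∣ M + 4) :
    colOf M p = 2 := by
  have h0 : ¬ (p : ℤ) ∣ M := by
    intro h0
    rcases h with h | h
    · have h3 := dvd_sub h0 h
      have h4 : M - (M - 4) = 4 := by ring
      rw [h4] at h3
      exact not_dvd_small hp (by norm_num) (by norm_num) h3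
    · have h3 := dvd_sub h h0
      have h4 : (M + 4) - M = 4 := by ring
      rw [h4] at h3
      exact not_dvd_small hp (by norm_num) (by norm_num) h3
  have h1 : ¬ ((p : ℤ) ∣ M - 2 ∨ (p : ℤ) ∣ M + 2) := by
    rintro (h1 | h1) <;> rcases h with h | h
    · have h3 := dvd_sub h1 h
      have h4 : (M - 2) - (M - 4) = 2 := by ring
      rw [h4] at h3
      exact not_dvd_small hp (by norm_num) (by norm_num) h3
    · have h3 := dvd_sub h h1
      have h4 : (M + 4) - (M - 2) = 6 := by ring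
      rw [h4] at h3
      exact not_dvd_small hp (by norm_num) (by norm_num) h3
    · have h3 := dvd_sub h1 h
      have h4 : (M + 2) - (M - 4) = 6 := by ring
      rw [h4] at h3
      exact not_dvd_small hp (by norm_num) (by norm_num) h3
    · have h3 := dvd_sub h h1
      have h4 : (M + 4) - (M + 2) = 2 := by ring
      rw [h4] at h3
      exact not_dvd_small hp (by norm_num) (by norm_num) h3
  unfold colOf
  rw [if_neg h0, if_neg h1]

/-- `M = ± 2 a` and `a = r` modulo `p` give `M = ± 2 r` -/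
theorem pm_of {p : ℕ} {M a r : ℤ} (h : (p : ℤ) ∣ M - 2 * a ∨ (p : ℤ) ∣ M + 2 * a)
    (hr : (p : ℤ) ∣ a - r) : (p : ℤ) ∣ M - 2 * r ∨ (p : ℤ) ∣ M + 2 * r := by
  rcases h with h | h
  · left
    have h3 := dvd_add h (hr.mul_left 2)
    have h4 : M - 2 * a + 2 * (a - r) = M - 2 * r := by ring
    rwa [h4] at h3
  · right
    have h3 := dvd_sub h (hr.mul_left 2)
    have h4 : M + 2 * a - 2 * (a - r) = M + 2 * r := by ring
    rwa [h4] at h3

theorem dvd_of_mod {p a r : ℕ} (h : a % p = r) : (p : ℤ) ∣ (a : ℤ) - (r : ℤ) := by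
  have h1 := Nat.div_add_mod a p
  refine ⟨((a / p : ℕ) : ℤ), ?_⟩
  rw [h] at h1
  have h2 : ((p * (a / p) + r : ℕ) : ℤ) = (a : ℤ) := by rw [h1]
  push_cast at h2
  push_cast
  linarith

theorem col_r0 {p a : ℕ} {M : ℤ} (h : (p : ℤ) ∣ M - 2 * a ∨ (p : ℤ) ∣ M + 2 * a)
    (ha : a % p = 0) : colOf M p = 0 := by
  apply colOf_zero
  have h1 := pm_of h (dvd_of_mod ha)
  simpa using h1

theorem col_r1 {p a : ℕ} (hp : 43 ≤ p) {M : ℤ} (h : (p : ℤ) ∣ M - 2 * a ∨ (p : ℤ) ∣ M + 2 * a)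
    (ha : a % p = 1) : colOf M p = 1 := by
  apply colOf_one hp
  have h1 := pm_of h (dvd_of_mod ha)
  simpa using h1

theorem col_r2 {p a : ℕ} (hp : 43 ≤ p) {M : ℤ} (h : (p : ℤ) ∣ M - 2 * a ∨ (p : ℤ) ∣ M + 2 * a)
    (ha : a % p = 2) : colOf M p = 2 := by
  apply colOf_two hp
  have h1 := pm_of h (dvd_of_mod ha)
  have h2 : (2 : ℤ) * ((2 : ℕ) : ℤ) = 4 := by norm_num
  rw [h2] at h1
  exact h1

theorem col_rm1 {p a : ℕ} (hp : 43 ≤ p) {M : ℤ} (h : (p : ℤ) ∣ M - 2 * a ∨ (p : ℤ) ∣ M + 2 * a)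
    (ha : a % p = p - 1) : colOf M p = 1 := by
  apply colOf_one hp
  have h0 : (p : ℤ) ∣ (a : ℤ) - (-1) := by
    have h1 := dvd_of_mod ha
    have h2 : ((p - 1 : ℕ) : ℤ) = (p : ℤ) - 1 := by
      rw [Nat.cast_sub (by omega)]
      norm_num
    rw [h2] at h1
    have h3 := dvd_add h1 (dvd_refl (p : ℤ))
    have h4 : (a : ℤ) - ((p : ℤ) - 1) + (p : ℤ) = (a : ℤ) - (-1) := by ring
    rwa [h4] at h3
  have h1 := pm_of h h0
  rcases h1 with h1 | h1
  · right
    have h4 : M - 2 * (-1) = M + 2 := by ring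
    rwa [h4] at h1
  · left
    have h4 : M + 2 * (-1) = M - 2 := by ring
    rwa [h4] at h1

theorem col_rm2 {p a : ℕ} (hp : 43 ≤ p) {M : ℤ} (h : (p : ℤ) ∣ M - 2 * a ∨ (p : ℤ) ∣ M + 2 * a)
    (ha : a % p = p - 2) : colOf M p = 2 := by
  apply colOf_two hp
  have h0 : (p : ℤ) ∣ (a : ℤ) - (-2) := by
    have h1 := dvd_of_mod ha
    have h2 : ((p - 2 : ℕ) : ℤ) = (p : ℤ) - 2 := by
      rw [Nat.cast_sub (by omega)]
      norm_num
    rw [h2] at h1
    have h3 := dvd_add h1 (dvd_refl (p : ℤ))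
    have h4 : (a : ℤ) - ((p : ℤ) - 2) + (p : ℤ) = (a : ℤ) - (-2) := by ring
    rwa [h4] at h3
  have h1 := pm_of h h0
  rcases h1 with h1 | h1
  · right
    have h4 : M - 2 * (-2) = M + 4 := by ring
    rwa [h4] at h1
  · left
    have h4 : M + 2 * (-2) = M - 4 := by ring
    rwa [h4] at h1

theorem cls_sound {e : ℕ × ℕ} (h1 : GP e.1) (h2 : GP e.2) (hlt : e.1 < e.2) {a : ℕ}
    (ha : a ∈ cls e) {M : ℤ} (h : ((e.1 * e.2 : ℕ) : ℤ) ∣ M - 2 * a ∨
      ((e.1 * e.2 : ℕ) : ℤ) ∣ M + 2 * a) : colOf M e.1 ≠ colOf M e.2 := by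
  have hc := cls_cases h1 h2 hlt ha
  have g1 : 43 ≤ e.1 := h1.2.2
  have g2 : 43 ≤ e.2 := h2.2.2
  have d1 : (e.1 : ℤ) ∣ ((e.1 * e.2 : ℕ) : ℤ) := by
    push_cast
    exact Dvd.intro _ rfl
  have d2 : (e.2 : ℤ) ∣ ((e.1 * e.2 : ℕ) : ℤ) := by
    push_cast
    exact Dvd.intro_left _ rfl
  have k1 : (e.1 : ℤ) ∣ M - 2 * a ∨ (e.1 : ℤ) ∣ M + 2 * a :=
    h.imp (fun h => d1.trans h) (fun h => d1.trans h)
  have k2 : (e.2 : ℤ) ∣ M - 2 * a ∨ (e.2 : ℤ) ∣ M + 2 * a :=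
    h.imp (fun h => d2.trans h) (fun h => d2.trans h)
  rcases hc with ⟨r1, r2⟩ | ⟨r1, r2⟩ | ⟨r1, r2⟩ | ⟨r1, r2⟩ | ⟨r1, r2⟩ | ⟨r1, r2⟩ | ⟨r1, r2⟩ |
    ⟨r1, r2⟩
  · rw [col_r0 k1 r1, col_r1 g2 k2 r2]; decide
  · rw [col_r0 k1 r1, col_r2 g2 k2 r2]; decide
  · rw [col_r1 g1 k1 r1, col_r0 k2 r2]; decide
  · rw [col_r2 g1 k1 r1, col_r0 k2 r2]; decide
  · rw [col_r1 g1 k1 r1, col_r2 g2 k2 r2]; decide
  · rw [col_r1 g1 k1 r1, col_rm2 g2 k2 r2]; decide
  · rw [col_r2 g1 k1 r1, col_r1 g2 k2 r2]; decide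
  · rw [col_r2 g1 k1 r1, col_rm1 g2 k2 r2]; decide

/-- simultaneous congruences for the vertices -/
theorem exists_crt {es : List (ℕ × ℕ)} (hes : GoodE es) (c : ℕ → Fin 3) :
    ∃ k : ℕ, k % 2 = 1 ∧ ∀ e ∈ es, k ≡ (c e.1).val [MOD e.1] ∧ k ≡ (c e.2).val [MOD e.2] := by
  classical
  set S : Finset ℕ := insert 2 ((es.map Prod.fst).toFinset ∪ (es.map Prod.snd).toFinset) with hS
  have hmem : ∀ p ∈ S, p = 2 ∨ GP p := by
    intro p hp
    rw [hS, Finset.mem_insert, Finset.mem_union, List.mem_toFinset, List.mem_toFinset,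
      List.mem_map, List.mem_map] at hp
    rcases hp with hp | ⟨e, he, rfl⟩ | ⟨e, he, rfl⟩
    · exact Or.inl hp
    · exact Or.inr (hes.gp1 e he)
    · exact Or.inr (hes.gp2 e he)
  have hprime : ∀ p ∈ S, p.Prime := by
    intro p hp
    rcases hmem p hp with h | h
    · rw [h]
      exact Nat.prime_two
    · exact h.1
  obtain ⟨k, hk⟩ := Nat.chineseRemainderOfFinset (fun p => if p = 2 then 1 else (c p).val)
    (fun p => p) S (fun p hp => (hprime p hp).ne_zero)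
    (fun p hp q hq hpq => (Nat.coprime_primes (hprime p hp) (hprime q hq)).2 hpq)
  have hk' : ∀ p ∈ S, k ≡ (if p = 2 then 1 else (c p).val) [MOD p] := hk
  refine ⟨k, ?_, ?_⟩
  · have h := hk' 2 (by rw [hS]; exact Finset.mem_insert_self _ _)
    rw [if_pos rfl] at h
    exact h
  · intro e he
    have g1 := (hes.gp1 e he).2.2
    have g2 := (hes.gp2 e he).2.2
    constructor
    · have h := hk' e.1 (by
        rw [hS, Finset.mem_insert, Finset.mem_union, List.mem_toFinset, List.mem_map]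
        exact Or.inr (Or.inl ⟨e, he, rfl⟩))
      rwa [if_neg (by omega)] at h
    · have h := hk' e.2 (by
        rw [hS, Finset.mem_insert, Finset.mem_union, List.mem_toFinset, List.mem_toFinset,
          List.mem_map, List.mem_map]
        exact Or.inr (Or.inr ⟨e, he, rfl⟩))
      rwa [if_neg (by omega)] at h

theorem crt_mem_cls {e : ℕ × ℕ} {i j : Fin 3} (hij : i ≠ j) :
    crt e.1 e.2 i.val j.val ∈ cls e := by
  unfold cls
  simp only [List.mem_cons, List.not_mem_nil, or_false]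
  fin_cases i <;> fin_cases j
  · exact absurd rfl hij
  · exact Or.inl rfl
  · exact Or.inr (Or.inl rfl)
  · exact Or.inr (Or.inr (Or.inl rfl))
  · exact absurd rfl hij
  · exact Or.inr (Or.inr (Or.inr (Or.inr (Or.inl rfl))))
  · exact Or.inr (Or.inr (Or.inr (Or.inl rfl)))
  · exact Or.inr (Or.inr (Or.inr (Or.inr (Or.inr (Or.inr (Or.inl rfl))))))
  · exact absurd rfl hij

theorem cls_complete {es : List (ℕ × ℕ)} (hes : GoodE es) (c : ℕ → Fin 3)
    (hc : ∀ e ∈ es, c e.1 ≠ c e.2) : ∃ M : ℤ, Odd M ∧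
      ∀ e ∈ es, ∃ a ∈ cls e, ((e.1 * e.2 : ℕ) : ℤ) ∣ M - a := by
  obtain ⟨k, hk2, hk⟩ := exists_crt hes c
  refine ⟨(k : ℤ), ?_, ?_⟩
  · rw [Int.odd_coe_nat]
    exact Nat.odd_iff.2 hk2
  · intro e he
    refine ⟨crt e.1 e.2 (c e.1).val (c e.2).val, crt_mem_cls (hc e he), ?_⟩
    have p1 := (hes.gp1 e he).1
    have p2 := (hes.gp2 e he).1
    have g1 := (hes.gp1 e he).2.2
    have g2 := (hes.gp2 e he).2.2
    have hlt := hes.lt e he
    have hco : Nat.Coprime e.1 e.2 := (Nat.coprime_primes p1 p2).2 (Nat.ne_of_lt hlt)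
    have c1 : (c e.1).val < 3 := (c e.1).isLt
    have c2 : (c e.2).val < 3 := (c e.2).isLt
    obtain ⟨s1, s2⟩ := crt_spec p1.pos p2.pos hco (show (c e.1).val < e.1 by omega)
      (show (c e.2).val < e.2 by omega)
    obtain ⟨q1, q2⟩ := hk e he
    have d1 : (e.1 : ℤ) ∣ (k : ℤ) - (crt e.1 e.2 (c e.1).val (c e.2).val : ℤ) := by
      have h1 : crt e.1 e.2 (c e.1).val (c e.2).val ≡ k [MOD e.1] := by
        refine Nat.ModEq.trans ?_ q1.symm
        show _ % _ = _ % _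
        rw [s1, Nat.mod_eq_of_lt (show (c e.1).val < e.1 by omega)]
      exact (Nat.modEq_iff_dvd.1 h1)
    have d2 : (e.2 : ℤ) ∣ (k : ℤ) - (crt e.1 e.2 (c e.1).val (c e.2).val : ℤ) := by
      have h1 : crt e.1 e.2 (c e.1).val (c e.2).val ≡ k [MOD e.2] := by
        refine Nat.ModEq.trans ?_ q2.symm
        show _ % _ = _ % _
        rw [s2, Nat.mod_eq_of_lt (show (c e.2).val < e.2 by omega)]
      exact (Nat.modEq_iff_dvd.1 h1)
    have hci : IsCoprime (e.1 : ℤ) (e.2 : ℤ) := Nat.isCoprime_iff_coprime.2 hco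
    have hd := hci.mul_dvd d1 d2
    push_cast
    exact hd

end Pool.Agent.H528R3.FD
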