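import Pool.Agent.H528R3.FD.Defs
import Pool.Agent.H528R2.Rank
import Pool.Agent.H528R2.Diff
import Pool.Agent.H528R2.ZZ

/-!
# S3: the rank of a prime congruent to 3 modulo 40 is not odd
-/

set_option autoImplicit false

namespace Pool.Agent.H528R3.FD

open Pool.Agent.H528R2 Pool.Agent.H528R2.DB

private lemma ns3 : ∀ r : ZMod 5, (3 : ZMod 5) ≠ r * r := by decide

private lemma not_isSquare_five {p : ℕ} (h : GP p) : ¬ IsSquare ((5 : ℕ) : ZMod p) := by
  have : Fact p.Prime := ⟨h.1⟩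
  have : Fact (Nat.Prime 5) := ⟨by norm_num⟩
  have h2 : p ≠ 2 := by have := h.2.2; omega
  rw [← ZMod.exists_sq_eq_prime_iff_of_mod_four_eq_one (p := 5) (q := p) (by norm_num) h2]
  have h3 : ((p : ℕ) : ZMod 5) = 3 := by
    have h4 : p % 5 = 3 := by have := h.2.1; omega
    rw [← ZMod.natCast_mod p 5, h4]; rfl
  rw [h3]
  rintro ⟨r, hr⟩
  exact ns3 r hr

private lemma nonres {p : ℕ} (h : GP p) (t : ℚ) : ¬ Vge p 1 (t ^ 2 - 5) := by
  intro hv
  have : Fact p.Prime := ⟨h.1⟩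
  have h1 : Vge p 1 ((t ^ 2 - 5) * ((t.den : ℚ) * (t.den : ℚ))) := by
    have := gv_mul hv (gv_mul (gv_nat (s := p) t.den) (gv_nat (s := p) t.den))
    simpa using this
  have e : (t ^ 2 - 5) * ((t.den : ℚ) * (t.den : ℚ)) =
      ((t.num ^ 2 - 5 * (t.den : ℤ) ^ 2 : ℤ) : ℚ) := by
    have ht : t * t.den = t.num := Rat.mul_den_eq_num t
    push_cast
    rw [← ht]; ring
  rw [e, gv_one_int_iff] at h1
  have h2 : ((t.num ^ 2 - 5 * (t.den : ℤ) ^ 2 : ℤ) : ZMod p) = 0 :=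
    (ZMod.intCast_zmod_eq_zero_iff_dvd _ p).2 (by exact_mod_cast h1)
  push_cast at h2
  have hb : (t.den : ZMod p) = 0 := by
    by_contra hb
    apply not_isSquare_five h
    refine ⟨(t.num : ZMod p) / (t.den : ZMod p), ?_⟩
    push_cast
    rw [div_mul_div_comm, eq_div_iff (mul_ne_zero hb hb)]
    linear_combination -h2
  have ha : (t.num : ZMod p) = 0 := by
    rw [hb] at h2
    have h3 : (t.num : ZMod p) ^ 2 = 0 := by linear_combination h2
    exact pow_eq_zero_iff (two_ne_zero) |>.1 h3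
  have ha' : (p : ℤ) ∣ t.num := (ZMod.intCast_zmod_eq_zero_iff_dvd _ p).1 ha
  have hb' : p ∣ t.den := (ZMod.natCast_eq_zero_iff _ p).1 hb
  have ha'' : p ∣ t.num.natAbs := Int.natCast_dvd.1 (by exact_mod_cast ha')
  have := Nat.dvd_gcd ha'' hb'
  rw [t.reduced.gcd_eq_one] at this
  exact h.1.one_lt.ne' (Nat.dvd_one.1 this)

theorem rk_not_odd {p : ℕ} (h : GP p) : ¬ Odd (rk p) := by
  intro ho
  have : Fact p.Prime := ⟨h.1⟩
  have hin : Inert p := ⟨h.1, Or.inl (by have := h.2.1; omega)⟩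
  have h43 := h.2.2
  have hr0 : rk p ≠ 0 := by rintro h0; rw [h0] at ho; exact absurd ho (by decide)
  have hv5 : padicValRat p (5 : ℚ) = 0 := by
    have e : ((5 : ℕ) : ℚ) = 5 := by norm_num
    rw [← e, padicValRat.of_nat]
    have : padicValNat p 5 = 0 :=
      padicValNat.eq_zero_of_not_dvd (fun hd => by have := Nat.le_of_dvd (by norm_num) hd; omega)
    rw [this]; rfl
  have hz1 : padicValRat p (zz 1) = 0 := by rw [zz_one]; exact hv5
  have hr1 : rk p ≠ 1 := by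
    intro h1
    have := Rank.rk_spec hr0
    rw [h1] at this
    rw [Nat.cast_one, hz1] at this
    exact lt_irrefl _ this
  have hm : ((rk p : ℕ) : ℤ) + 1 ≠ 0 := by positivity
  have hnd : ¬ ((rk p : ℤ) ∣ (rk p : ℤ) + 1) := by
    intro hd
    have h1 : (rk p : ℤ) ∣ 1 := (dvd_add_right (dvd_refl _)).1 hd
    have h2 : rk p ∣ 1 := by exact_mod_cast h1
    exact hr1 (Nat.dvd_one.1 h2)
  have hi1 : 0 ≤ padicValRat p (zz ((rk p : ℤ) + 1)) := by
    rw [dvd_iff h.1 hm] at hnd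
    exact not_lt.1 hnd
  have key := diff_exact hin hm one_ne_zero (by omega) (by omega) hi1 hz1.ge
  have h5 : ¬ (p = 5 ∧ Odd ((rk p : ℤ) + 1) ∧ Odd (1 : ℤ)) := by
    rintro ⟨h5, _⟩; omega
  rw [if_neg h5, sub_zero, zz_one, add_sub_cancel_right] at key
  have hd := (val_zz h.1 (n := (rk p : ℤ)) (by exact_mod_cast hr0) (dvd_refl _)).2.2
  have hv : 1 ≤ padicValRat p (zz ((rk p : ℤ) + 1) - 5) := by
    rw [← key]
    have : (1 : ℤ) ≤ (dd p (rk p : ℤ) : ℤ) := by exact_mod_cast hd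
    have h0 : (0 : ℤ) ≤ (dd p ((rk p : ℤ) + 1 + 1) : ℤ) := Int.natCast_nonneg _
    linarith
  have hev : Even ((rk p : ℤ) + 1) := by
    obtain ⟨k, hk⟩ := ho
    exact ⟨(k : ℤ) + 1, by rw [hk]; push_cast; ring⟩
  obtain ⟨s, hs⟩ := sq_even hev
  apply nonres h s
  right
  rw [pow_two, ← hs]
  exact hv

end Pool.Agent.H528R3.FD
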