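import Pool.Agent.H528R3.FD.Defs
import Pool.Agent.H528R3.FD.EvenRank
import Pool.Agent.H528R2.Rank
import Pool.Agent.H528R2.Diff
import Pool.Agent.H528R2.Rho
import Pool.Agent.H528R2.CoreB
import Pool.Agent.H528R2.Val
import Pool.Agent.H528R2.ZZ
import Pool.Agent.H528R2.CurvePt

/-!
# Task S2: the integers attached to the edges
-/

set_option autoImplicit false

namespace Pool.Agent.H528R3.FD

open Pool.Agent.H528R2

namespace EDS0

theorem den_val {t : ℕ} (ht : t.Prime) (q : ℚ) :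
    padicValNat t q.den = (-padicValRat t q).toNat := by
  haveI := Fact.mk ht
  have h1 : padicValRat t q = padicValInt t q.num - padicValNat t q.den := rfl
  by_cases hd : t ∣ q.den
  · have hn : ¬ t ∣ q.num.natAbs := by
      intro hn
      have := Nat.dvd_gcd hn hd
      rw [q.reduced.gcd_eq_one] at this
      exact ht.one_lt.ne' (Nat.dvd_one.1 this)
    have h2 : padicValInt t q.num = 0 := by
      unfold padicValInt
      exact padicValNat.eq_zero_of_not_dvd hn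
    rw [h1, h2]
    simp
  · rw [padicValNat.eq_zero_of_not_dvd hd] at h1 ⊢
    rw [h1]
    symm
    rw [Int.toNat_eq_zero]
    simp

theorem den_zz_yy {t : ℕ} (ht : t.Prime) {n : ℕ} (hn : 0 < n) :
    padicValNat t (zz n).den = 2 * dd t n ∧ padicValNat t (yy n).den = 3 * dd t n := by
  haveI := Fact.mk ht
  have hn' : (n : ℤ) ≠ 0 := by exact_mod_cast hn.ne'
  rw [den_val ht, den_val ht]
  by_cases h : (rk t : ℤ) ∣ (n : ℤ)
  · obtain ⟨h1, h2, -⟩ := val_zz ht hn' h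
    rw [h1, h2]
    constructor <;> omega
  · have h0 := dd_eq_zero ht hn' h
    have h1 : ¬ padicValRat t (zz n) < 0 := fun h' => h ((dvd_iff ht hn').2 h')
    have h2 : Vge t 0 (yy n) := DB.gv_yy hn' (Or.inr (not_lt.1 h1))
    have h3 : 0 ≤ padicValRat t (yy n) := h2.le (yy_ne hn')
    rw [h0]
    constructor <;> omega

theorem den_dvd {n : ℕ} (hn : 0 < n) : (zz n).den ∣ (yy n).den := by
  rw [← Nat.factorization_le_iff_dvd (zz n).den_nz (yy n).den_nz]
  intro p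
  by_cases hp : p.Prime
  · rw [Nat.factorization_def _ hp, Nat.factorization_def _ hp]
    obtain ⟨h1, h2⟩ := den_zz_yy hp hn
    rw [h1, h2]; omega
  · rw [Nat.factorization_eq_zero_of_not_prime _ hp]
    exact Nat.zero_le _

end EDS0

open EDS0

theorem val_Dn {t : ℕ} (ht : t.Prime) {n : ℕ} (hn : 0 < n) : padicValNat t (Dn n) = dd t n := by
  haveI := Fact.mk ht
  obtain ⟨h1, h2⟩ := den_zz_yy ht hn
  unfold Dn
  rw [padicValNat.div_of_dvd (den_dvd hn), h1, h2]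
  omega

theorem Dn_pos {n : ℕ} (hn : 0 < n) : 0 < Dn n := by
  unfold Dn
  exact Nat.div_pos (Nat.le_of_dvd (yy n).den_pos (den_dvd hn)) (zz n).den_pos

namespace EDS0

theorem not_rk_one {t : ℕ} (ht : t.Prime) : rk t ≠ 1 := by
  haveI := Fact.mk ht
  intro h
  have h1 : padicValRat t (zz 1) < 0 := by
    rw [← dvd_iff ht (by norm_num), h]; norm_num
  rw [zz_one] at h1
  have h2 : padicValRat t (5 : ℚ) = padicValNat t 5 := by
    exact_mod_cast padicValRat.of_nat (p := t) (n := 5)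
  rw [h2] at h1
  omega

theorem dd_one {t : ℕ} (ht : t.Prime) : dd t ((1 : ℕ) : ℤ) = 0 := by
  refine CoreB.dd_zero_of ht one_ne_zero fun h => ?_
  exact not_rk_one ht (Nat.dvd_one.1 h)

theorem GP_inert {u : ℕ} (h : GP u) : Inert u := ⟨h.1, by have := h.2.1; omega⟩

theorem GP_odd {u : ℕ} (h : GP u) : Odd u := by
  rw [Nat.odd_iff]
  have := h.2.1
  omega

/-- the exponents of a prime in the three integers -/
theorem key {u v : ℕ} (hu : GP u) (hv : GP v) (hlt : u < v) (hRu : ¬ Odd (rk u))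
    (hRv : ¬ Odd (rk v)) {t : ℕ} (ht : t.Prime) :
    (rk t = u * v ∧ dd t (u : ℤ) = 0 ∧ dd t (v : ℤ) = 0) ∨
      dd t ((u * v : ℕ) : ℤ) = dd t (u : ℤ) + dd t (v : ℤ) := by
  haveI := Fact.mk ht
  have hup := hu.1
  have hvp := hv.1
  have hu0 : u ≠ 0 := hup.ne_zero
  have hv0 : v ≠ 0 := hvp.ne_zero
  have huv0 : u * v ≠ 0 := Nat.mul_ne_zero hu0 hv0
  have hnuv : ¬ u ∣ v := fun h => hlt.ne ((Nat.prime_dvd_prime_iff_eq hup hvp).1 h)
  have hnvu : ¬ v ∣ u := fun h => hlt.ne' ((Nat.prime_dvd_prime_iff_eq hvp hup).1 h)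
  by_cases h : rk t ∣ u * v
  · obtain ⟨a, b, ha, hb, hab⟩ := (Nat.dvd_mul).1 h
    have hmul : padicValNat t (u * v) = padicValNat t u + padicValNat t v := padicValNat.mul hu0 hv0
    have hd := CoreB.dd_of ht huv0 h
    rw [hmul] at hd
    rcases (Nat.dvd_prime hup).1 ha with rfl | rfl <;> rcases (Nat.dvd_prime hvp).1 hb with rfl | rfl
    · exact absurd (by rw [← hab]) (not_rk_one ht)
    · -- rank `v`
      right
      rw [one_mul] at hab
      have h1 := CoreB.dd_of ht hv0 (by rw [← hab])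
      have h2 : dd t (u : ℤ) = 0 := CoreB.dd_zero_of ht hu0 (by rw [← hab]; exact hnvu)
      have h3 : padicValNat t u = 0 := by
        apply padicValNat.eq_zero_of_not_dvd
        intro h4
        have h5 := (Nat.prime_dvd_prime_iff_eq ht hup).1 h4
        subst h5
        rw [← hab] at hRu
        exact hRu (GP_odd hv)
      omega
    · right
      rw [mul_one] at hab
      have h1 := CoreB.dd_of ht hu0 (by rw [← hab])
      have h2 : dd t (v : ℤ) = 0 := CoreB.dd_zero_of ht hv0 (by rw [← hab]; exact hnuv)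
      have h3 : padicValNat t v = 0 := by
        apply padicValNat.eq_zero_of_not_dvd
        intro h4
        have h5 := (Nat.prime_dvd_prime_iff_eq ht hvp).1 h4
        subst h5
        rw [← hab] at hRv
        exact hRv (GP_odd hu)
      omega
    · left
      refine ⟨hab.symm, CoreB.dd_zero_of ht hu0 ?_, CoreB.dd_zero_of ht hv0 ?_⟩
      · rw [← hab]; exact fun h' => hnvu ((dvd_mul_left _ _).trans h')
      · rw [← hab]; exact fun h' => hnuv ((dvd_mul_right _ _).trans h')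
  · right
    rw [CoreB.dd_zero_of ht huv0 h, CoreB.dd_zero_of ht hu0 (fun h' => h (h'.mul_right v)),
      CoreB.dd_zero_of ht hv0 (fun h' => h (h'.mul_left u))]

theorem dvd_Dn {u v : ℕ} (hu : GP u) (hv : GP v) (hlt : u < v) (hRu : ¬ Odd (rk u))
    (hRv : ¬ Odd (rk v)) : Dn u * Dn v ∣ Dn (u * v) := by
  have hu0 : 0 < u := hu.1.pos
  have hv0 : 0 < v := hv.1.pos
  have huv0 : 0 < u * v := Nat.mul_pos hu0 hv0
  rw [← Nat.factorization_le_iff_dvd (Nat.mul_ne_zero (Dn_pos hu0).ne' (Dn_pos hv0).ne')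
    (Dn_pos huv0).ne']
  intro t
  by_cases ht : t.Prime
  · haveI := Fact.mk ht
    rw [Nat.factorization_def _ ht, Nat.factorization_def _ ht,
      padicValNat.mul (Dn_pos hu0).ne' (Dn_pos hv0).ne', val_Dn ht hu0, val_Dn ht hv0,
      val_Dn ht huv0]
    rcases key hu hv hlt hRu hRv ht with ⟨-, h1, h2⟩ | h
    · rw [h1, h2]; exact Nat.zero_le _
    · rw [h]
  · rw [Nat.factorization_eq_zero_of_not_prime _ ht]
    exact Nat.zero_le _

theorem val_Ne {e : ℕ × ℕ} (h1 : GP e.1) (h2 : GP e.2) (hlt : e.1 < e.2) (hR1 : ¬ Odd (rk e.1))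
    (hR2 : ¬ Odd (rk e.2)) {t : ℕ} (ht : t.Prime) :
    padicValNat t (Ne e) = dd t ((e.1 * e.2 : ℕ) : ℤ) - (dd t (e.1 : ℤ) + dd t (e.2 : ℤ)) := by
  haveI := Fact.mk ht
  have hu0 : 0 < e.1 := h1.1.pos
  have hv0 : 0 < e.2 := h2.1.pos
  have huv0 : 0 < e.1 * e.2 := Nat.mul_pos hu0 hv0
  unfold Ne
  rw [padicValNat.div_of_dvd (dvd_Dn h1 h2 hlt hR1 hR2),
    padicValNat.mul (Dn_pos hu0).ne' (Dn_pos hv0).ne', val_Dn ht hu0, val_Dn ht hv0,
    val_Dn ht huv0]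

theorem Ne_pos' {e : ℕ × ℕ} (h1 : GP e.1) (h2 : GP e.2) (hlt : e.1 < e.2) (hR1 : ¬ Odd (rk e.1))
    (hR2 : ¬ Odd (rk e.2)) : 0 < Ne e := by
  have hu0 : 0 < e.1 := h1.1.pos
  have hv0 : 0 < e.2 := h2.1.pos
  unfold Ne
  exact Nat.div_pos (Nat.le_of_dvd (Dn_pos (Nat.mul_pos hu0 hv0)) (dvd_Dn h1 h2 hlt hR1 hR2))
    (Nat.mul_pos (Dn_pos hu0) (Dn_pos hv0))

theorem Ne_spec' {e : ℕ × ℕ} (h1 : GP e.1) (h2 : GP e.2) (hlt : e.1 < e.2) (hR1 : ¬ Odd (rk e.1))
    (hR2 : ¬ Odd (rk e.2)) {t : ℕ} (ht : t.Prime) (hd : t ∣ Ne e) : rk t = e.1 * e.2 ∧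
      padicValNat t (Ne e) = dd t ((e.1 * e.2 : ℕ) : ℤ) := by
  haveI := Fact.mk ht
  have hv := val_Ne h1 h2 hlt hR1 hR2 ht
  have h0 : padicValNat t (Ne e) ≠ 0 := by
    have := one_le_padicValNat_of_dvd (Ne_pos' h1 h2 hlt hR1 hR2).ne' hd
    omega
  rcases key h1 h2 hlt hR1 hR2 ht with ⟨h3, h4, h5⟩ | h
  · refine ⟨h3, ?_⟩
    rw [hv, h4, h5]
    simp
  · rw [h] at hv
    omega

theorem Ne_exists' {e : ℕ × ℕ} (h1 : GP e.1) (h2 : GP e.2) (hlt : e.1 < e.2)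
    (hR1 : ¬ Odd (rk e.1)) (hR2 : ¬ Odd (rk e.2)) :
    ∃ t : ℕ, Inert t ∧ t ∣ Ne e ∧ rk t = e.1 * e.2 ∧ Odd (padicValNat t (Ne e)) := by
  obtain ⟨s, hs, hodd⟩ := CoreB.exists_prime (m := 1) odd_one (GP_inert h1) (GP_inert h2)
  rw [dd_one hs.1, add_zero, one_mul, one_mul] at hodd
  haveI := Fact.mk hs.1
  have hv := val_Ne h1 h2 hlt hR1 hR2 hs.1
  rcases key h1 h2 hlt hR1 hR2 hs.1 with ⟨h3, h4, h5⟩ | h
  · rw [h4, h5, add_zero, add_zero] at hodd
    rw [h4, h5, add_zero, Nat.sub_zero] at hv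
    refine ⟨s, hs, ?_, h3, by rw [hv]; exact hodd⟩
    by_contra hnd
    rw [padicValNat.eq_zero_of_not_dvd hnd] at hv
    rw [← hv] at hodd
    exact absurd hodd (by decide)
  · rw [h] at hodd
    exfalso
    rw [Nat.odd_iff] at hodd
    omega

theorem zz_three_nonneg {t : ℕ} (ht : t.Prime) : ¬ (rk t : ℤ) ∣ 3 := by
  haveI := Fact.mk ht
  rw [dvd_iff ht (by norm_num), ZZaux.three.1]
  have h2 : padicValRat t (45 : ℚ) = padicValNat t 45 := by
    exact_mod_cast padicValRat.of_nat (p := t) (n := 45)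
  rw [h2]
  omega

end EDS0

theorem Ne_pos {e : ℕ × ℕ} (h1 : GP e.1) (h2 : GP e.2) (hlt : e.1 < e.2) : 0 < Ne e :=
  Ne_pos' h1 h2 hlt (rk_not_odd h1) (rk_not_odd h2)

theorem Ne_spec {e : ℕ × ℕ} (h1 : GP e.1) (h2 : GP e.2) (hlt : e.1 < e.2) {t : ℕ} (ht : t.Prime)
    (hd : t ∣ Ne e) : rk t = e.1 * e.2 ∧
      padicValNat t (Ne e) = dd t ((e.1 * e.2 : ℕ) : ℤ) :=
  Ne_spec' h1 h2 hlt (rk_not_odd h1) (rk_not_odd h2) ht hd

theorem Ne_exists {e : ℕ × ℕ} (h1 : GP e.1) (h2 : GP e.2) (hlt : e.1 < e.2) :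
    ∃ t : ℕ, Inert t ∧ t ∣ Ne e ∧ rk t = e.1 * e.2 ∧ Odd (padicValNat t (Ne e)) :=
  Ne_exists' h1 h2 hlt (rk_not_odd h1) (rk_not_odd h2)

/-- the ranks of `2`, `3`, `5` are even -/
theorem rk_two_three_five {t : ℕ} (h : t = 2 ∨ t = 3 ∨ t = 5) : ¬ Odd (rk t) := by
  have ht : t.Prime := by rcases h with rfl | rfl | rfl <;> norm_num
  intro ho
  apply zz_three_nonneg ht
  rcases h with rfl | h
  · have h8 : (rk 2 : ℤ) ∣ 8 := by
      rw [dvd_iff ht (by norm_num)]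
      exact RhoAux.pole8 (by norm_num) (by norm_num)
    have h8' : rk 2 ∣ 2 ^ 3 := by exact_mod_cast h8
    have hc : Nat.Coprime (rk 2) (2 ^ 3) := (Nat.Coprime.pow_right 3 (Nat.coprime_two_right.2 ho))
    rw [hc.eq_one_of_dvd h8']
    norm_num
  · have h6 : rk t ∣ 2 * 3 := by exact_mod_cast rk_small h
    have hc : Nat.Coprime (rk t) 2 := Nat.coprime_two_right.2 ho
    exact_mod_cast hc.dvd_of_dvd_mul_left h6

/-- a prime of large rank is large -/
theorem large_of_rk {e : ℕ × ℕ} (h1 : GP e.1) (h2 : GP e.2) (hlt : e.1 < e.2) {t : ℕ}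
    (ht : Inert t) (hr : rk t = e.1 * e.2) : 17 ≤ t := by
  by_contra hcon
  have h3 := h1.2.2
  have h4 := h2.2.2
  have h5 : 43 * 43 ≤ rk t := by rw [hr]; exact Nat.mul_le_mul h3 h4
  by_cases h7 : 7 ≤ t
  · have := rk_le ht h7
    omega
  · have h35 : t = 3 ∨ t = 5 := by
      rcases ht.2 with h8 | h8 <;> omega
    have h6 : rk t ∣ 6 := by exact_mod_cast rk_small h35
    have := Nat.le_of_dvd (by norm_num) h6
    omega

/-- `zz n` is integral at `2`, `3`, `5` for odd `n` -/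
theorem int_odd {t : ℕ} (h : t = 2 ∨ t = 3 ∨ t = 5) {n : ℤ} (hn : Odd n) : Vge t 0 (zz n) := by
  have ht : t.Prime := by rcases h with rfl | rfl | rfl <;> norm_num
  have hn0 : n ≠ 0 := by rintro rfl; simp at hn
  right
  by_contra hcon
  rw [not_le, ← dvd_iff ht hn0] at hcon
  apply rk_two_three_five h
  obtain ⟨k, rfl⟩ := hcon
  rw [Int.odd_mul] at hn
  exact_mod_cast hn.1

end Pool.Agent.H528R3.FD
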