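import Pool.Agent.H528R3.FD.Defs
import Pool.Agent.H528R2.Val

/-!
# Pure algebra of coefficient lists (task S6, helper284)
-/

set_option autoImplicit false

namespace Pool.Agent.H528R3.FD

open Pool.Agent.H528R2

@[simp] theorem evalL_nil (x : ℚ) : evalL [] x = 0 := rfl

@[simp] theorem evalL_cons (c : ℤ) (l : List ℤ) (x : ℚ) :
    evalL (c :: l) x = (c : ℚ) + x * evalL l x := rfl

theorem evalL_addL (l l' : List ℤ) (x : ℚ) : evalL (addL l l') x = evalL l x + evalL l' x := by
  induction l generalizing l' with
  | nil => simp [addL]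
  | cons a l ih =>
    cases l' with
    | nil => simp [addL]
    | cons b l' => simp only [addL, evalL_cons, ih]; push_cast; ring

theorem evalL_scale (c : ℤ) (l : List ℤ) (x : ℚ) : evalL (scale c l) x = c * evalL l x := by
  induction l with
  | nil => simp [scale]
  | cons a l ih =>
    have : scale c (a :: l) = (c * a) :: scale c l := rfl
    rw [this, evalL_cons, evalL_cons, ih]; push_cast; ring

theorem evalL_mulLin (d n : ℤ) (l : List ℤ) (x : ℚ) :
    evalL (mulLin d n l) x = (d * x - n) * evalL l x := by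
  rw [mulLin, evalL_addL, evalL_cons, evalL_scale, evalL_scale]; push_cast; ring

theorem length_addL (l l' : List ℤ) : (addL l l').length = max l.length l'.length := by
  induction l generalizing l' with
  | nil => simp [addL]
  | cons a l ih =>
    cases l' with
    | nil => simp [addL]
    | cons b l' => simp only [addL, List.length_cons, ih]; omega

theorem length_scale (c : ℤ) (l : List ℤ) : (scale c l).length = l.length := by
  simp [scale]

theorem length_mulLin (d n : ℤ) (l : List ℤ) : (mulLin d n l).length = l.length + 1 := by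
  rw [mulLin, length_addL, List.length_cons, length_scale, length_scale]; omega

theorem getD_addL (l l' : List ℤ) (i : ℕ) :
    (addL l l').getD i 0 = l.getD i 0 + l'.getD i 0 := by
  induction l generalizing l' i with
  | nil => simp [addL]
  | cons a l ih =>
    cases l' with
    | nil => simp [addL]
    | cons b l' =>
      cases i with
      | zero => simp [addL]
      | succ i => simp only [addL, List.getD_cons_succ, ih]

theorem getD_scale (c : ℤ) (l : List ℤ) (i : ℕ) :
    (scale c l).getD i 0 = c * l.getD i 0 := by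
  induction l generalizing i with
  | nil => simp [scale]
  | cons a l ih =>
    have : scale c (a :: l) = (c * a) :: scale c l := rfl
    rw [this]
    cases i with
    | zero => simp
    | succ i => simp only [List.getD_cons_succ, ih]

theorem getD_mulLin (d n : ℤ) (l : List ℤ) :
    (mulLin d n l).getD l.length 0 = d * (0 :: l).getD l.length 0 := by
  rw [mulLin, getD_addL, getD_scale]
  have h1 : l.getD l.length 0 = 0 := by
    rw [List.getD_eq_default]; exact le_rfl
  rw [h1, mul_zero, add_zero]
  cases l with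
  | nil => simp
  | cons a l =>
    simp only [List.length_cons, List.getD_cons_succ]
    rw [getD_scale]

/-- the product of the linear factors attached to the elements of a list -/
noncomputable def prodL (L : List ℕ) : List ℤ :=
  L.foldr (fun a l => mulLin ((zz a).den : ℤ) (zz a).num l) [1]

theorem Fe_eq (e : ℕ × ℕ) : Fe e = prodL (cls e) := rfl

theorem prodL_cons (a : ℕ) (L : List ℕ) :
    prodL (a :: L) = mulLin ((zz a).den : ℤ) (zz a).num (prodL L) := rfl

theorem length_prodL (L : List ℕ) : (prodL L).length = L.length + 1 := by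
  induction L with
  | nil => simp [prodL]
  | cons a L ih => rw [prodL_cons, length_mulLin, ih, List.length_cons]

theorem evalL_prodL (L : List ℕ) (x : ℚ) :
    evalL (prodL L) x = (L.map (fun a : ℕ => ((zz a).den : ℚ) * x - (zz a).num)).prod := by
  induction L with
  | nil => simp [prodL]
  | cons a L ih =>
    rw [prodL_cons, evalL_mulLin, ih, List.map_cons, List.prod_cons]; push_cast; ring

theorem top_prodL (L : List ℕ) :
    (prodL L).getD L.length 0 = (L.map (fun a : ℕ => ((zz a).den : ℤ))).prod := by
  induction L with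
  | nil => simp [prodL]
  | cons a L ih =>
    have h := getD_mulLin ((zz a).den : ℤ) (zz a).num (prodL L)
    rw [length_prodL, List.getD_cons_succ, ih] at h
    rw [prodL_cons, List.length_cons, List.map_cons, List.prod_cons, h]

theorem length_cls (e : ℕ × ℕ) : (cls e).length = 8 := rfl

theorem evalL_Fe (e : ℕ × ℕ) (x : ℚ) :
    evalL (Fe e) x = ((cls e).map (fun a : ℕ => ((zz a).den : ℚ) * x - (zz a).num)).prod :=
  evalL_prodL _ _

theorem length_Fe (e : ℕ × ℕ) : (Fe e).length = 9 := by
  rw [Fe_eq, length_prodL, length_cls]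

theorem top_Fe (e : ℕ × ℕ) :
    (Fe e).getD 8 0 = ((cls e).map (fun a : ℕ => ((zz a).den : ℤ))).prod := by
  have h := top_prodL (cls e)
  rwa [length_cls, ← Fe_eq] at h

/-- the sum with arbitrary coefficients -/
noncomputable def sumL (c : ℕ × ℕ → ℤ) (L : List (ℕ × ℕ)) : List ℤ :=
  L.foldr (fun e l => addL (scale (c e) (Fe e)) l) (List.replicate 9 0)

theorem sumL_cons (c : ℕ × ℕ → ℤ) (e : ℕ × ℕ) (L : List (ℕ × ℕ)) :
    sumL c (e :: L) = addL (scale (c e) (Fe e)) (sumL c L) := rfl

theorem SS_eq (es : List (ℕ × ℕ)) : SS es = sumL (fun e => ((PP es / Ne e : ℕ) : ℤ)) es := rfl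

theorem length_sumL (c : ℕ × ℕ → ℤ) (L : List (ℕ × ℕ)) : (sumL c L).length = 9 := by
  induction L with
  | nil => simp [sumL]
  | cons e L ih => rw [sumL_cons, length_addL, length_scale, length_Fe, ih]; rfl

theorem evalL_replicate (n : ℕ) (x : ℚ) : evalL (List.replicate n 0) x = 0 := by
  induction n with
  | zero => rfl
  | succ n ih => rw [List.replicate_succ, evalL_cons, ih]; simp

theorem evalL_sumL (c : ℕ × ℕ → ℤ) (L : List (ℕ × ℕ)) (x : ℚ) :
    evalL (sumL c L) x = (L.map (fun e => (c e : ℚ) * evalL (Fe e) x)).sum := by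
  induction L with
  | nil =>
    rw [List.map_nil, List.sum_nil]
    exact evalL_replicate 9 x
  | cons e L ih =>
    rw [sumL_cons, evalL_addL, evalL_scale, ih, List.map_cons, List.sum_cons]

theorem getD_sumL (c : ℕ × ℕ → ℤ) (L : List (ℕ × ℕ)) :
    (sumL c L).getD 8 0 =
      (L.map (fun e => c e * ((cls e).map (fun a : ℕ => ((zz a).den : ℤ))).prod)).sum := by
  induction L with
  | nil => rfl
  | cons e L ih =>
    rw [sumL_cons, getD_addL, getD_scale, ih, top_Fe, List.map_cons, List.sum_cons]

theorem length_SS (es : List (ℕ × ℕ)) : (SS es).length = 9 := by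
  rw [SS_eq]; exact length_sumL _ _

theorem length_FF (es : List (ℕ × ℕ)) : (FF es).length = 9 := by
  rw [FF, length_scale, length_SS]

theorem evalL_SS (es : List (ℕ × ℕ)) (x : ℚ) :
    evalL (SS es) x = (es.map (fun e => ((PP es / Ne e : ℕ) : ℚ) * evalL (Fe e) x)).sum := by
  rw [SS_eq, evalL_sumL]
  rfl

theorem evalL_FF (es : List (ℕ × ℕ)) (x : ℚ) : evalL (FF es) x = 60 * evalL (SS es) x := by
  rw [FF, evalL_scale]; norm_num

/-- the coefficient of degree `8` -/
theorem getD_SS (es : List (ℕ × ℕ)) : (SS es).getD 8 0 =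
    (es.map (fun e => ((PP es / Ne e : ℕ) : ℤ) *
      ((cls e).map (fun a : ℕ => ((zz a).den : ℤ))).prod)).sum := by
  rw [SS_eq, getD_sumL]

theorem evalL_eq_sum (l : List ℤ) (h : l.length = 9) (x : ℚ) :
    evalL l x = ∑ i ∈ Finset.range 9, ((l.getD i 0 : ℤ) : ℚ) * x ^ i := by
  match l, h with
  | [a0, a1, a2, a3, a4, a5, a6, a7, a8], _ =>
    simp only [evalL_cons, evalL_nil, Finset.sum_range_succ, Finset.sum_range_zero,
      List.getD_cons_zero, List.getD_cons_succ]
    ring

/-- a polynomial of degree `8` whose leading coefficient is a unit at `t` has integral roots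
modulo `t` -/
theorem integral_of_close {t : ℕ} (ht : t.Prime) (l : List ℤ) (h : l.length = 9)
    (h8 : ¬ (t : ℤ) ∣ l.getD 8 0) {x : ℚ} (hx : Vge t 0 (evalL l x)) : Vge t 0 x := by
  have := Fact.mk ht
  by_contra hcon
  have hx0 : x ≠ 0 := fun h0 => hcon (Or.inl h0)
  have hv : padicValRat t x < 0 := by
    by_contra h1
    exact hcon (Or.inr (not_lt.mp h1))
  have hc8 : l.getD 8 0 ≠ 0 := fun h0 => h8 (by rw [h0]; exact dvd_zero _)
  have hc8v : padicValRat t ((l.getD 8 0 : ℤ) : ℚ) = 0 := by
    rw [padicValRat.of_int]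
    have : padicValInt t (l.getD 8 0) = 0 := by
      apply padicValInt.eq_zero_of_not_dvd h8
    rw [this]; rfl
  have hlead0 : ((l.getD 8 0 : ℤ) : ℚ) * x ^ 8 ≠ 0 :=
    mul_ne_zero (by exact_mod_cast hc8) (pow_ne_zero _ hx0)
  have hlead : padicValRat t (((l.getD 8 0 : ℤ) : ℚ) * x ^ 8) = 8 * padicValRat t x := by
    rw [val_mul ht (by exact_mod_cast hc8) (pow_ne_zero _ hx0), hc8v, val_pow ht]
    push_cast; ring
  have hrest : Vge t (7 * padicValRat t x)
      (∑ i ∈ Finset.range 8, ((l.getD i 0 : ℤ) : ℚ) * x ^ i) := by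
    have key : ∀ n : ℕ, n ≤ 8 → Vge t (7 * padicValRat t x)
        (∑ i ∈ Finset.range n, ((l.getD i 0 : ℤ) : ℚ) * x ^ i) := by
      intro n
      induction n with
      | zero => intro _; simp [Vge.zero]
      | succ n ih =>
        intro hn
        rw [Finset.sum_range_succ]
        refine Vge.add ht (ih (by omega)) ?_
        have h1 : Vge t ((n : ℤ) * padicValRat t x) (x ^ n) := Vge.pow ht (Vge.self t x) n
        refine (Vge.int_mul ht _ h1).mono ?_
        have hn' : (n : ℤ) ≤ 7 := by omega
        nlinarith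
    exact key 8 le_rfl
  have hsum : evalL l x = ((l.getD 8 0 : ℤ) : ℚ) * x ^ 8 +
      ∑ i ∈ Finset.range 8, ((l.getD i 0 : ℤ) : ℚ) * x ^ i := by
    rw [evalL_eq_sum l h x, Finset.sum_range_succ, add_comm]
  have hfin := val_add ht hlead0 (y := ∑ i ∈ Finset.range 8, ((l.getD i 0 : ℤ) : ℚ) * x ^ i)
    (hrest.mono (by rw [hlead]; omega))
  rw [← hsum, hlead] at hfin
  have := hx.le hfin.1
  omega

theorem evalL_int {t : ℕ} (ht : t.Prime) (l : List ℤ) {x : ℚ} (hx : Vge t 0 x) :
    Vge t 0 (evalL l x) := by
  induction l with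
  | nil => exact Vge.zero _ _
  | cons a l ih =>
    rw [evalL_cons]
    refine Vge.add ht (vge_int t a) ?_
    simpa using Vge.mul ht hx ih

end Pool.Agent.H528R3.FD
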