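import Pool.Agent.H528R3.FD.Defs
import Pool.Agent.H528R2.Rank
import Pool.Agent.H528R2.Diff
import Pool.Agent.H528R2.Descent
import Pool.Agent.H528R2.CurvePt
import Pool.Agent.H528R2.ZZ
import Pool.Agent.H528R2.Val

/-!
# S5: the multiples of the generator modulo an inert prime of odd rank
-/

set_option autoImplicit false

namespace Pool.Agent.H528R3.FD

open Pool.Agent.H528R2

namespace ModT

lemma dvd_of_two_mul {r : ℕ} (ho : Odd r) {n : ℤ} (h : (r : ℤ) ∣ 2 * n) : (r : ℤ) ∣ n := by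
  obtain ⟨k, hk⟩ := ho
  have e : n = (r : ℤ) * n - k * (2 * n) := by rw [hk]; push_cast; ring
  rw [e]
  exact dvd_sub (Dvd.intro _ rfl) (h.mul_left _)

lemma ne_zero_of_not_dvd {r : ℕ} {n : ℤ} (h : ¬ (r : ℤ) ∣ n) : n ≠ 0 := by
  rintro rfl; exact h (dvd_zero _)

lemma valInt_mono' {t : ℕ} (ht : t.Prime) {m n : ℤ} (hn : n ≠ 0) (h : m ∣ n) :
    padicValInt t m ≤ padicValInt t n := by
  have := Fact.mk ht
  have h1 : (t : ℤ) ^ padicValInt t m ∣ m := padicValInt_dvd m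
  have h2 := h1.trans h
  rw [padicValInt_dvd_iff] at h2
  exact h2.resolve_left hn

lemma dd_mono {t : ℕ} (ht : t.Prime) {k n : ℤ} (hk : k ≠ 0) (hn : n ≠ 0) (hrk : (rk t : ℤ) ∣ k)
    (h : k ∣ n) : dd t k ≤ dd t n := by
  have h1 := dd_eq ht hk hrk
  have h2 := dd_eq ht hn (hrk.trans h)
  have h3 := valInt_mono' ht hn h
  omega

/-- the curve cubic is not a problem: `65` is not a square -/
lemma sq_ne_65 (x : ℚ) : x ^ 2 ≠ 65 := by
  intro h
  have : Fact (Nat.Prime 5) := ⟨by norm_num⟩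
  have hx : x ≠ 0 := by rintro rfl; norm_num at h
  have h1 : padicValRat 5 (x ^ 2) = 2 * padicValRat 5 x := by
    rw [padicValRat.pow]; norm_num
  have h2 : padicValRat 5 (65 : ℚ) = 1 := by
    have e : (65 : ℚ) = ((65 : ℕ) : ℚ) := by norm_num
    rw [e, padicValRat.of_nat]
    have e2 : (65 : ℕ) = 5 ^ 1 * 13 := by norm_num
    rw [e2, padicValNat.mul (by norm_num) (by norm_num), padicValNat.prime_pow,
      padicValNat.eq_zero_of_not_dvd (by norm_num)]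
    norm_num
  rw [h, h2] at h1
  omega

section closure
variable {t : ℕ} (ht : t.Prime) {x y : ℚ}
include ht

lemma iadd (hx : Vge t 0 x) (hy : Vge t 0 y) : Vge t 0 (x + y) := Vge.add ht hx hy
lemma isub (hx : Vge t 0 x) (hy : Vge t 0 y) : Vge t 0 (x - y) := Vge.sub ht hx hy
lemma imul (hx : Vge t 0 x) (hy : Vge t 0 y) : Vge t 0 (x * y) := by
  simpa using Vge.mul ht hx hy
lemma ipow (hx : Vge t 0 x) (n : ℕ) : Vge t 0 (x ^ n) := by
  simpa using Vge.pow ht hx n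

lemma one_mul_int (hx : Vge t 1 x) (hy : Vge t 0 y) : Vge t 1 (x * y) := by
  simpa using Vge.mul ht hx hy

lemma int_inv (hx : padicValRat t x = 0) : Vge t 0 x⁻¹ := by
  right
  rw [val_inv ht, hx]
  norm_num

end closure

end ModT

open ModT

theorem val_zero {t : ℕ} (ht : Inert t) (h17 : 17 ≤ t) (ho : Odd (rk t)) {n : ℤ}
    (hn : ¬ (rk t : ℤ) ∣ n) : padicValRat t (zz n) = 0 ∧ padicValRat t (yy n) = 0 :=
  val_unit ht.1 h17 (ne_zero_of_not_dvd hn) fun h => hn (dvd_of_two_mul ho h)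

theorem close_of_dvd {t : ℕ} (ht : Inert t) (h17 : 17 ≤ t) (ho : Odd (rk t)) {m n : ℤ}
    (hm : ¬ (rk t : ℤ) ∣ m) (hn : ¬ (rk t : ℤ) ∣ n) {k : ℤ} (hk : k ≠ 0) (hrk : (rk t : ℤ) ∣ k)
    (h : k ∣ m - n ∨ k ∣ m + n) : Vge t (dd t k) (zz m - zz n) := by
  have hm0 := ne_zero_of_not_dvd hm
  have hn0 := ne_zero_of_not_dvd hn
  by_cases h1 : m = n
  · left; rw [h1, sub_self]
  by_cases h2 : m = -n
  · left; rw [h2, zz_neg, sub_self]
  have hd := diff_exact ht hm0 hn0 h1 h2 (val_zero ht h17 ho hm).1.ge (val_zero ht h17 ho hn).1.ge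
  rw [if_neg (by omega), sub_zero] at hd
  right
  rw [← hd]
  rcases h with h | h
  · have := dd_mono ht.1 hk (show m - n ≠ 0 by omega) hrk h
    omega
  · have := dd_mono ht.1 hk (show m + n ≠ 0 by omega) hrk h
    omega

theorem dvd_of_close {t : ℕ} (ht : Inert t) (h17 : 17 ≤ t) (ho : Odd (rk t)) {m n : ℤ}
    (hm : ¬ (rk t : ℤ) ∣ m) (hn : ¬ (rk t : ℤ) ∣ n) (h : Vge t 1 (zz m - zz n)) :
    (rk t : ℤ) ∣ m - n ∨ (rk t : ℤ) ∣ m + n := by
  have hm0 := ne_zero_of_not_dvd hm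
  have hn0 := ne_zero_of_not_dvd hn
  by_cases h1 : m = n
  · left; rw [h1, sub_self]; exact dvd_zero _
  by_cases h2 : m = -n
  · right; rw [h2, neg_add_cancel]; exact dvd_zero _
  have hne : zz m - zz n ≠ 0 := sub_ne_zero.2 (DB.zz_ne' hm0 hn0 h1 h2)
  have hd := diff_exact ht hm0 hn0 h1 h2 (val_zero ht h17 ho hm).1.ge (val_zero ht h17 ho hn).1.ge
  rw [if_neg (by omega), sub_zero] at hd
  have hv := h.le hne
  by_contra hcon
  push Not at hcon
  have e1 := dd_eq_zero ht.1 (show m - n ≠ 0 by omega) hcon.1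
  have e2 := dd_eq_zero ht.1 (show m + n ≠ 0 by omega) hcon.2
  rw [e1, e2] at hd
  omega

theorem double_point {x y : ℚ} (hx : x ≠ 0) (h : y ^ 2 = x ^ 3 - 2 * x ^ 2 + 65 * x) :
    ∃ M : ℤ, M ≠ 0 ∧ zz M = ((x ^ 2 - 65) / (2 * y)) ^ 2 := by
  obtain ⟨P, hP, hPx, hPy⟩ := exists_pt hx h
  have hy : y ≠ 0 := by
    rintro rfl
    have h1 : x * (x ^ 2 - 2 * x + 65) = 0 := by linarith
    rcases mul_eq_zero.1 h1 with h2 | h2
    · exact hx h2
    · exact (cubic_pos x).ne' h2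
  have hd := pt_dbl hP (by rw [hPy]; exact hy)
  simp only [hPx, hPy] at hd
  obtain ⟨h1, -, h2, -⟩ := hd
  set z : ℚ := ((x ^ 2 - 65) / (2 * y)) ^ 2 with hz
  have hz0 : z ≠ 0 := by
    rw [hz]
    exact pow_ne_zero 2 (div_ne_zero (sub_ne_zero.2 (sq_ne_65 x)) (mul_ne_zero two_ne_zero hy))
  have h3 := pt_eq h1
  rw [h2] at h3
  obtain ⟨M, hM, hzM, -⟩ := generator hz0 h3 (Or.inl ⟨(x ^ 2 - 65) / (2 * y), by rw [hz]; ring⟩)
  exact ⟨M, hM, hzM.symm⟩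

theorem double_close {t : ℕ} (ht : Inert t) (h17 : 17 ≤ t) (ho : Odd (rk t)) {x y : ℚ}
    (hx : x ≠ 0) (h : y ^ 2 = x ^ 3 - 2 * x ^ 2 + 65 * x) {M : ℤ} (hM : M ≠ 0)
    (hz : zz M = ((x ^ 2 - 65) / (2 * y)) ^ 2) {a : ℤ} (ha : ¬ (rk t : ℤ) ∣ a)
    (hc : Vge t 1 (x - zz a)) : (rk t : ℤ) ∣ M - 2 * a ∨ (rk t : ℤ) ∣ M + 2 * a := by
  have hp := ht.1
  have := Fact.mk hp
  have ha0 := ne_zero_of_not_dvd ha
  have hy : y ≠ 0 := by
    rintro rfl
    have h1 : x * (x ^ 2 - 2 * x + 65) = 0 := by linarith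
    rcases mul_eq_zero.1 h1 with h2 | h2
    · exact hx h2
    · exact (cubic_pos x).ne' h2
  obtain ⟨v1, v2⟩ := val_zero ht h17 ho ha
  have hya : yy a ≠ 0 := yy_ne ha0
  have hca : yy a ^ 2 = zz a ^ 3 - 2 * zz a ^ 2 + 65 * zz a := DB.curve_eq ha0
  have h2a : ¬ (rk t : ℤ) ∣ 2 * a := fun hh => ha (dvd_of_two_mul ho hh)
  have h2a0 : 2 * a ≠ 0 := ne_zero_of_not_dvd h2a
  -- doubling
  have hdbl : zz (2 * a) = ((zz a ^ 2 - 65) / (2 * yy a)) ^ 2 := by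
    have h1 := (pt_dbl (smul_P0_ne ha0) (show ptY (a • P0) ≠ 0 from hya)).2.2.1
    have h2 : (2 * a) • P0 = a • P0 + a • P0 := by rw [two_mul, add_zsmul]
    unfold zz yy
    rw [h2]
    exact h1
  generalize zz a = z at *
  generalize yy a = z' at *
  have iz : Vge t 0 z := Or.inr v1.ge
  have ixz : Vge t 0 (x - z) := hc.mono (by norm_num)
  have ix : Vge t 0 x := by
    have := iadd hp ixz iz
    simpa using this
  have iof : ∀ n : ℕ, Vge t 0 (n : ℚ) := fun n => vge_nat t n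
  -- the cubic is a unit
  have hcz : z ^ 3 - 2 * z ^ 2 + 65 * z ≠ 0 := by rw [← hca]; exact pow_ne_zero 2 hya
  have vcz : padicValRat t (z ^ 3 - 2 * z ^ 2 + 65 * z) = 0 := by
    rw [← hca, val_pow hp, v2]; norm_num
  have hdiff : Vge t 1 ((x - z) * (x ^ 2 + x * z + z ^ 2 - (2 : ℕ) * (x + z) + (65 : ℕ))) := by
    refine one_mul_int hp hc ?_
    exact iadd hp (isub hp (iadd hp (iadd hp (ipow hp ix 2) (imul hp ix iz)) (ipow hp iz 2))
      (imul hp (iof 2) (iadd hp ix iz))) (iof 65)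
  have hcx := val_add hp hcz (y := (x - z) * (x ^ 2 + x * z + z ^ 2 - (2 : ℕ) * (x + z) +
    (65 : ℕ))) (by rw [vcz]; simpa using hdiff)
  have ecx : z ^ 3 - 2 * z ^ 2 + 65 * z +
      (x - z) * (x ^ 2 + x * z + z ^ 2 - (2 : ℕ) * (x + z) + (65 : ℕ)) =
      x ^ 3 - 2 * x ^ 2 + 65 * x := by push_cast; ring
  rw [ecx, vcz] at hcx
  obtain ⟨hcx0, vcx⟩ := hcx
  -- the difference
  have hG : Vge t 0 (x ^ 3 * z ^ 3 - (2 : ℕ) * (x ^ 2 * z ^ 2 * (x + z)) +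
      (65 : ℕ) * (x * z * (x ^ 2 + x * z + z ^ 2)) + (130 : ℕ) * (x ^ 2 * z ^ 2) -
      (8450 : ℕ) * (x * z) - (4225 : ℕ) * (x ^ 2 + x * z + z ^ 2) + (8450 : ℕ) * (x + z) -
      (274625 : ℕ)) := by
    have i1 := iadd hp (iadd hp (ipow hp ix 2) (imul hp ix iz)) (ipow hp iz 2)
    have i2 := imul hp ix iz
    have i3 := imul hp (ipow hp ix 2) (ipow hp iz 2)
    have i4 := iadd hp ix iz
    exact isub hp (iadd hp (isub hp (isub hp (iadd hp (iadd hp (isub hp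
      (imul hp (ipow hp ix 3) (ipow hp iz 3)) (imul hp (iof 2) (imul hp i3 i4)))
      (imul hp (iof 65) (imul hp i2 i1))) (imul hp (iof 130) i3))
      (imul hp (iof 8450) i2)) (imul hp (iof 4225) i1)) (imul hp (iof 8450) i4)) (iof 274625)
  have hden : padicValRat t ((4 : ℕ) * ((x ^ 3 - 2 * x ^ 2 + 65 * x) *
      (z ^ 3 - 2 * z ^ 2 + 65 * z))) = 0 := by
    have h4 : ((4 : ℕ) : ℚ) ≠ 0 := by norm_num
    rw [val_mul hp h4 (mul_ne_zero hcx0 hcz), val_mul hp hcx0 hcz, vcx, vcz, padicValRat.of_nat,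
      padicValNat.eq_zero_of_not_dvd]
    · norm_num
    · intro hh
      have := Nat.le_of_dvd (by norm_num) hh
      omega
  have hkey : zz M - zz (2 * a) = (x - z) * (x ^ 3 * z ^ 3 - (2 : ℕ) * (x ^ 2 * z ^ 2 * (x + z)) +
      (65 : ℕ) * (x * z * (x ^ 2 + x * z + z ^ 2)) + (130 : ℕ) * (x ^ 2 * z ^ 2) -
      (8450 : ℕ) * (x * z) - (4225 : ℕ) * (x ^ 2 + x * z + z ^ 2) + (8450 : ℕ) * (x + z) -
      (274625 : ℕ)) * ((4 : ℕ) * ((x ^ 3 - 2 * x ^ 2 + 65 * x) *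
      (z ^ 3 - 2 * z ^ 2 + 65 * z)))⁻¹ := by
    rw [hz, hdbl, div_pow, div_pow, mul_pow, mul_pow, h, hca]
    rw [← div_eq_mul_inv, div_sub_div _ _ (mul_ne_zero (by norm_num) hcx0)
      (mul_ne_zero (by norm_num) hcz), div_eq_div_iff]
    · push_cast; ring
    · exact mul_ne_zero (mul_ne_zero (by norm_num) hcx0) (mul_ne_zero (by norm_num) hcz)
    · exact mul_ne_zero (by norm_num) (mul_ne_zero hcx0 hcz)
  have hclose : Vge t 1 (zz M - zz (2 * a)) := by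
    rw [hkey]
    exact one_mul_int hp (one_mul_int hp hc hG) (int_inv hp hden)
  -- `zz M` is integral
  have i2a : Vge t 0 (zz (2 * a)) := Or.inr (val_zero ht h17 ho h2a).1.ge
  have iM : Vge t 0 (zz M) := by
    have := iadd hp (hclose.mono (by norm_num)) i2a
    simpa using this
  have hMd : ¬ (rk t : ℤ) ∣ M := by
    rw [dvd_iff hp hM]
    have := iM.le (zz_pos hM).ne'
    omega
  exact dvd_of_close ht h17 ho hMd h2a hclose

end Pool.Agent.H528R3.FD
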