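import Pool.Agent.H528R3.FD.Repr7
import Pool.Agent.H528R3.FD.EDS
import Pool.Agent.H528R3.FD.ModT
import Pool.Agent.H528R3.FD.Lists
import Pool.Agent.H528R3.FD.Crt
import Pool.Agent.H528R2.Atoms

/-!
# The polynomial of the reduction modulo the primes of its integer
-/

set_option autoImplicit false

namespace Pool.Agent.H528R3.FD

open Pool.Agent.H528R2 Pool.Agent.H528R2.Chain

/-! ### the integer -/

theorem edge_unique {es : List (ℕ × ℕ)} (hes : GoodE es) {e e' : ℕ × ℕ} (he : e ∈ es)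
    (he' : e' ∈ es) (h : e.1 * e.2 = e'.1 * e'.2) : e = e' := by
  have p1 := (hes.gp1 e he).1
  have p2 := (hes.gp2 e he).1
  have p1' := (hes.gp1 e' he').1
  have p2' := (hes.gp2 e' he').1
  have l := hes.lt e he
  have l' := hes.lt e' he'
  have h1 : e.1 ∣ e'.1 * e'.2 := by rw [← h]; exact dvd_mul_right _ _
  have h2 : e.2 ∣ e'.1 * e'.2 := by rw [← h]; exact dvd_mul_left _ _
  have hd1 := (Nat.Prime.dvd_mul p1).1 h1
  have hd2 := (Nat.Prime.dvd_mul p2).1 h2
  rw [Nat.prime_dvd_prime_iff_eq p1 p1', Nat.prime_dvd_prime_iff_eq p1 p2'] at hd1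
  rw [Nat.prime_dvd_prime_iff_eq p2 p1', Nat.prime_dvd_prime_iff_eq p2 p2'] at hd2
  rcases hd1 with hd1 | hd1 <;> rcases hd2 with hd2 | hd2
  · omega
  · exact Prod.ext hd1 hd2
  · omega
  · omega

theorem PP_pos {es : List (ℕ × ℕ)} (hes : GoodE es) : 0 < PP es := by
  unfold PP
  apply List.prod_pos
  intro x hx
  obtain ⟨e, he, rfl⟩ := List.mem_map.1 hx
  exact Ne_pos (hes.gp1 e he) (hes.gp2 e he) (hes.lt e he)

theorem dvd_PP {es : List (ℕ × ℕ)} {q : ℕ} (hq : q.Prime) :
    q ∣ PP es ↔ ∃ e ∈ es, q ∣ Ne e := by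
  unfold PP
  rw [Prime.dvd_prod_iff hq.prime]
  constructor
  · rintro ⟨x, hx, hd⟩
    obtain ⟨e, he, rfl⟩ := List.mem_map.1 hx
    exact ⟨e, he, hd⟩
  · rintro ⟨e, he, hd⟩
    exact ⟨_, List.mem_map.2 ⟨e, he, rfl⟩, hd⟩

theorem Ne_dvd_PP {es : List (ℕ × ℕ)} {e : ℕ × ℕ} (he : e ∈ es) : Ne e ∣ PP es :=
  List.dvd_prod (List.mem_map.2 ⟨e, he, rfl⟩)

theorem PP_erase {es : List (ℕ × ℕ)} {e : ℕ × ℕ} (he : e ∈ es) :
    PP es = Ne e * PP (es.erase e) := by
  unfold PP
  rw [← List.prod_cons, ← List.map_cons]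
  exact (List.Perm.map Ne (List.perm_cons_erase he)).prod_eq

theorem PP_div {es : List (ℕ × ℕ)} (hes : GoodE es) {e : ℕ × ℕ} (he : e ∈ es) :
    PP es / Ne e = PP (es.erase e) := by
  rw [PP_erase he]
  exact Nat.mul_div_cancel_left _ (Ne_pos (hes.gp1 e he) (hes.gp2 e he) (hes.lt e he))

theorem good_erase {es : List (ℕ × ℕ)} (hes : GoodE es) (e : ℕ × ℕ) : GoodE (es.erase e) where
  nodup := hes.nodup.erase e
  gp1 := fun e' he' => hes.gp1 e' (List.mem_of_mem_erase he')
  gp2 := fun e' he' => hes.gp2 e' (List.mem_of_mem_erase he')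
  lt := fun e' he' => hes.lt e' (List.mem_of_mem_erase he')

/-- a prime factor of `Ne e` does not divide the cofactor -/
theorem not_dvd_cofactor {es : List (ℕ × ℕ)} (hes : GoodE es) {e : ℕ × ℕ} (he : e ∈ es) {t : ℕ}
    (ht : t.Prime) (hte : t ∣ Ne e) : ¬ t ∣ PP es / Ne e := by
  rw [PP_div hes he, dvd_PP ht]
  rintro ⟨e', he', hd⟩
  have hmem := List.mem_of_mem_erase he'
  have h1 := (Ne_spec (hes.gp1 e he) (hes.gp2 e he) (hes.lt e he) ht hte).1
  have h2 := (Ne_spec (hes.gp1 e' hmem) (hes.gp2 e' hmem) (hes.lt e' hmem) ht hd).1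
  have h3 := edge_unique hes he hmem (h1.symm.trans h2)
  subst h3
  exact (hes.nodup.not_mem_erase) he'

theorem dvd_cofactor {es : List (ℕ × ℕ)} (hes : GoodE es) {e e' : ℕ × ℕ} (he : e ∈ es)
    (he' : e' ∈ es) (hne : e ≠ e') : Ne e ∣ PP es / Ne e' := by
  rw [PP_div hes he']
  exact Ne_dvd_PP ((List.mem_erase_of_ne hne).2 he)

theorem val_PP {es : List (ℕ × ℕ)} (hes : GoodE es) {e : ℕ × ℕ} (he : e ∈ es) {t : ℕ}
    (ht : t.Prime) (hte : t ∣ Ne e) : padicValNat t (PP es) = padicValNat t (Ne e) := by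
  have := Fact.mk ht
  have h1 := not_dvd_cofactor hes he ht hte
  rw [PP_div hes he] at h1
  have h0 : Ne e ≠ 0 := (Ne_pos (hes.gp1 e he) (hes.gp2 e he) (hes.lt e he)).ne'
  rw [PP_erase he, padicValNat.mul h0 (PP_pos (good_erase hes e)).ne',
    padicValNat.eq_zero_of_not_dvd h1, add_zero]

theorem not_dvd_PP {es : List (ℕ × ℕ)} (hes : GoodE es) {t : ℕ} (h : t = 2 ∨ t = 3 ∨ t = 5) :
    ¬ t ∣ PP es := by
  have ht : t.Prime := by rcases h with rfl | rfl | rfl <;> norm_num
  rw [dvd_PP ht]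
  rintro ⟨e, he, hd⟩
  have h1 := (Ne_spec (hes.gp1 e he) (hes.gp2 e he) (hes.lt e he) ht hd).1
  apply rk_two_three_five h
  rw [h1, Nat.odd_iff, Nat.mul_mod]
  have a1 := (hes.gp1 e he).2.1
  have a2 := (hes.gp2 e he).2.1
  have b1 : e.1 % 2 = 1 := by omega
  have b2 : e.2 % 2 = 1 := by omega
  rw [b1, b2]

theorem PP_odd {es : List (ℕ × ℕ)} (hes : GoodE es) : PP es % 2 = 1 := by
  have := not_dvd_PP hes (Or.inl rfl)
  omega

theorem NN_mod {es : List (ℕ × ℕ)} (hes : GoodE es) : NN es % 8 = 1 := by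
  have h := PP_odd hes
  unfold NN
  rw [Nat.mul_mod, Nat.mod_mod]
  have : PP es % 8 = 1 ∨ PP es % 8 = 3 ∨ PP es % 8 = 5 ∨ PP es % 8 = 7 := by omega
  rcases this with h | h | h | h <;> rw [h]

theorem val_NN {es : List (ℕ × ℕ)} (hes : GoodE es) {q : ℕ} (hq : Inert q) :
    padicValNat q (NN es) = padicValNat q (PP es % 8) + padicValNat q (PP es) := by
  have := Fact.mk hq.1
  have h := PP_odd hes
  unfold NN
  rw [padicValNat.mul (by omega) (PP_pos hes).ne']

theorem val_NN_large {es : List (ℕ × ℕ)} (hes : GoodE es) {q : ℕ} (hq : Inert q) (h : 17 ≤ q) :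
    padicValNat q (NN es) = padicValNat q (PP es) := by
  rw [val_NN hes hq, padicValNat.eq_zero_of_not_dvd, zero_add]
  intro hd
  have h1 := PP_odd hes
  have h2 := Nat.le_of_dvd (by omega) hd
  omega

/-- the odd inert primes of the integer -/
theorem NN_cases {es : List (ℕ × ℕ)} (hes : GoodE es) {q : ℕ} (hq : Inert q)
    (hodd : Odd (padicValNat q (NN es))) :
    (∃ e ∈ es, q ∣ Ne e) ∨ ((q = 3 ∨ q = 5) ∧ padicValNat q (NN es) = 1) := by
  by_cases h : q ∣ PP es
  · left; exact (dvd_PP hq.1).1 h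
  · right
    have := Fact.mk hq.1
    have h1 := PP_odd hes
    rw [val_NN hes hq, padicValNat.eq_zero_of_not_dvd h, add_zero] at hodd ⊢
    have hd : q ∣ PP es % 8 := by
      by_contra hd
      rw [padicValNat.eq_zero_of_not_dvd hd] at hodd
      exact absurd hodd (by decide)
    have hle := Nat.le_of_dvd (by omega) hd
    have hq35 : q = 3 ∨ q = 5 := by
      rcases hq.2 with h8 | h8
      · left; omega
      · right; omega
    refine ⟨hq35, ?_⟩
    rcases hq35 with rfl | rfl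
    · have : PP es % 8 = 3 := by
        have := Nat.lt_of_lt_of_le (Nat.mod_lt (PP es) (by norm_num : 0 < 8)) le_rfl
        omega
      rw [this]
      exact padicValNat.self (by norm_num)
    · have : PP es % 8 = 5 := by
        have := Nat.lt_of_lt_of_le (Nat.mod_lt (PP es) (by norm_num : 0 < 8)) le_rfl
        omega
      rw [this]
      exact padicValNat.self (by norm_num)

/-! ### denominators -/

theorem den_unit {t : ℕ} (ht : t.Prime) {x : ℚ} (hx : Vge t 0 x) : padicValNat t x.den = 0 := by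
  have := Fact.mk ht
  apply padicValNat.eq_zero_of_not_dvd
  intro hd
  have hnum : ¬ (t : ℤ) ∣ x.num := by
    intro hd'
    have h3 := x.reduced
    have h4 : t ∣ Nat.gcd x.num.natAbs x.den := Nat.dvd_gcd (Int.natCast_dvd.1 hd') hd
    rw [h3] at h4
    exact ht.one_lt.ne' (Nat.dvd_one.1 h4)
  have hx0 : x ≠ 0 := by
    rintro rfl
    simp at hd
    exact ht.one_lt.ne' hd
  have h3 := hx.le hx0
  rw [padicValRat_def, padicValInt.eq_zero_of_not_dvd hnum] at h3
  have h4 := one_le_padicValNat_of_dvd x.den_nz hd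
  omega

/-- a factor of the polynomial of an edge -/
theorem factor_eq (z x : ℚ) : (z.den : ℚ) * x - z.num = z.den * (x - z) := by
  have h : (z.den : ℚ) ≠ 0 := by exact_mod_cast z.den_nz
  conv_rhs => rw [mul_sub]
  congr 1
  have := Rat.num_div_den z
  field_simp at this
  linarith

theorem vge_factor {t : ℕ} (ht : t.Prime) {z x : ℚ} (hz : Vge t 0 z) {k : ℤ} :
    Vge t k ((z.den : ℚ) * x - z.num) ↔ Vge t k (x - z) := by
  have := Fact.mk ht
  have h : (z.den : ℚ) ≠ 0 := by exact_mod_cast z.den_nz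
  have hd := den_unit ht hz
  rw [factor_eq]
  unfold Vge
  by_cases h0 : x - z = 0
  · simp [h0]
  · rw [val_mul ht h h0, padicValRat.of_nat, hd]
    simp [h0, h]

theorem list_prod_dvd {l : List ℚ} {t : ℕ} (ht : t.Prime) {k : ℤ}
    (h : ∀ x ∈ l, Vge t 0 x) {y : ℚ} (hy : y ∈ l) (hk : Vge t k y) : Vge t k l.prod := by
  induction l with
  | nil => simp at hy
  | cons a l ih =>
    rw [List.prod_cons]
    rcases List.mem_cons.1 hy with rfl | hy
    · simpa using Vge.mul ht hk (vge_list_prod ht l (fun x hx => h x (by simp [hx])))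
    · simpa using Vge.mul ht (h a (by simp)) (ih (fun x hx => h x (by simp [hx])) hy)

/-- the classes of an edge are integral at its primes -/
theorem cls_int {es : List (ℕ × ℕ)} (hes : GoodE es) {e : ℕ × ℕ} (he : e ∈ es) {t : ℕ}
    (ht : t.Prime) (hte : t ∣ Ne e) {a : ℕ} (ha : a ∈ cls e) :
    ¬ (rk t : ℤ) ∣ (a : ℤ) ∧ Vge t 0 (zz a) := by
  have h1 := (Ne_spec (hes.gp1 e he) (hes.gp2 e he) (hes.lt e he) ht hte).1
  obtain ⟨h2, h3⟩ := cls_not_dvd (hes.gp1 e he) (hes.gp2 e he) (hes.lt e he) ha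
  rw [← h1] at h3
  refine ⟨h3, ?_⟩
  right
  have ha0 : ((a : ℕ) : ℤ) ≠ 0 := by exact_mod_cast h2.ne'
  by_contra hc
  exact h3 ((dvd_iff ht ha0).2 (by omega))

theorem evalFe_int {t : ℕ} (ht : t.Prime) (e : ℕ × ℕ) {x : ℚ} (hx : Vge t 0 x) :
    Vge t 0 (evalL (Fe e) x) := evalL_int ht _ hx

theorem sum_split {es : List (ℕ × ℕ)} {e : ℕ × ℕ} (he : e ∈ es) (f : ℕ × ℕ → ℚ) :
    (es.map f).sum = f e + ((es.erase e).map f).sum := by
  rw [← List.sum_cons, ← List.map_cons]
  exact (List.Perm.map f (List.perm_cons_erase he)).sum_eq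

theorem vge_list_sum {t : ℕ} (ht : t.Prime) {k : ℤ} (l : List ℚ) (h : ∀ x ∈ l, Vge t k x) :
    Vge t k l.sum := by
  induction l with
  | nil => simpa using Vge.zero t k
  | cons a l ih =>
    rw [List.sum_cons]
    exact Vge.add ht (h a (by simp)) (ih (fun x hx => h x (by simp [hx])))

theorem vge_nat_of_dvd {t : ℕ} (ht : t.Prime) {m n : ℕ} (hm : m ≠ 0) (h : m ∣ n) :
    Vge t (padicValNat t m) ((n : ℕ) : ℚ) := by
  have := Fact.mk ht
  by_cases hn : n = 0
  · left; exact_mod_cast hn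
  right
  rw [padicValRat.of_nat]
  have h1 : t ^ padicValNat t m ∣ n := pow_padicValNat_dvd.trans h
  have h2 := (padicValNat_dvd_iff_le hn).1 h1
  exact_mod_cast h2

theorem F_sound {es : List (ℕ × ℕ)} (hes : GoodE es) {e : ℕ × ℕ} (he : e ∈ es) {t : ℕ}
    (ht : Inert t) (hte : t ∣ Ne e) {x : ℚ} (h : Vge t 1 (evalL (FF es) x)) :
    ∃ a ∈ cls e, Vge t 1 (x - zz a) := by
  have := Fact.mk ht.1
  have hspec := Ne_spec (hes.gp1 e he) (hes.gp2 e he) (hes.lt e he) ht.1 hte
  have h17 := large_of_rk (hes.gp1 e he) (hes.gp2 e he) (hes.lt e he) ht hspec.1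
  have hNe0 : Ne e ≠ 0 := (Ne_pos (hes.gp1 e he) (hes.gp2 e he) (hes.lt e he)).ne'
  have h60 : padicValRat t (60 : ℚ) = 0 := by
    have e1 : (60 : ℚ) = ((60 : ℕ) : ℚ) := by norm_num
    rw [e1, padicValRat.of_nat, padicValNat.eq_zero_of_not_dvd]
    · rfl
    · intro hd
      have h1 : t ∣ 2 ^ 2 * (3 * 5) := by norm_num; exact hd
      rcases (Nat.Prime.dvd_mul ht.1).1 h1 with h2 | h2
      · have := Nat.le_of_dvd (by norm_num) (ht.1.dvd_of_dvd_pow h2); omega
      · rcases (Nat.Prime.dvd_mul ht.1).1 h2 with h3 | h3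
        · have := Nat.le_of_dvd (by norm_num) h3; omega
        · have := Nat.le_of_dvd (by norm_num) h3; omega
  have hS : Vge t 1 (evalL (SS es) x) := by
    rw [evalL_FF] at h
    rcases h with h | h
    · left
      rcases mul_eq_zero.1 h with h | h
      · norm_num at h
      · exact h
    · by_cases h0 : evalL (SS es) x = 0
      · exact Or.inl h0
      right
      rw [val_mul ht.1 (by norm_num) h0, h60, zero_add] at h
      exact h
  -- integrality of x
  have hx : Vge t 0 x := by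
    refine integral_of_close ht.1 (SS es) (length_SS es) ?_ (hS.mono (by norm_num))
    rw [getD_SS]
    intro hd
    have hsplit : (es.map (fun e => ((PP es / Ne e : ℕ) : ℤ) *
        ((cls e).map (fun a : ℕ => ((zz a).den : ℤ))).prod)).sum =
        ((PP es / Ne e : ℕ) : ℤ) * ((cls e).map (fun a : ℕ => ((zz a).den : ℤ))).prod +
        ((es.erase e).map (fun e => ((PP es / Ne e : ℕ) : ℤ) *
        ((cls e).map (fun a : ℕ => ((zz a).den : ℤ))).prod)).sum := by
      rw [← List.sum_cons, ← List.map_cons (f := fun e => ((PP es / Ne e : ℕ) : ℤ) *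
        ((cls e).map (fun a : ℕ => ((zz a).den : ℤ))).prod)]
      exact (List.Perm.map _ (List.perm_cons_erase he)).sum_eq
    rw [hsplit] at hd
    have hrest : (t : ℤ) ∣ ((es.erase e).map (fun e => ((PP es / Ne e : ℕ) : ℤ) *
        ((cls e).map (fun a : ℕ => ((zz a).den : ℤ))).prod)).sum := by
      apply List.dvd_sum
      intro y hy
      obtain ⟨e', he', rfl⟩ := List.mem_map.1 hy
      have hmem := List.mem_of_mem_erase he'
      have hne : e ≠ e' := by
        rintro rfl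
        exact hes.nodup.not_mem_erase he'
      apply Dvd.dvd.mul_right
      exact_mod_cast hte.trans (dvd_cofactor hes he hmem hne)
    have h1 := (dvd_add_left hrest).1 hd
    have htp : Prime (t : ℤ) := Nat.prime_iff_prime_int.1 ht.1
    rcases htp.dvd_or_dvd h1 with h2 | h2
    · exact not_dvd_cofactor hes he ht.1 hte (by exact_mod_cast h2)
    · rw [Prime.dvd_prod_iff htp] at h2
      obtain ⟨y, hy, hd2⟩ := h2
      obtain ⟨a, ha, rfl⟩ := List.mem_map.1 hy
      have h3 := den_unit ht.1 (cls_int hes he ht.1 hte ha).2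
      have h4 : t ∣ (zz (a : ℤ)).den := by exact_mod_cast hd2
      have h5 := one_le_padicValNat_of_dvd (zz (a : ℤ)).den_nz h4
      omega
  -- the term of the edge
  have hterm : Vge t 1 (((PP es / Ne e : ℕ) : ℚ) * evalL (Fe e) x) := by
    rw [evalL_SS, sum_split he] at hS
    have hrest : Vge t 1 (((es.erase e).map
        (fun e => ((PP es / Ne e : ℕ) : ℚ) * evalL (Fe e) x)).sum) := by
      apply vge_list_sum ht.1
      intro y hy
      obtain ⟨e', he', rfl⟩ := List.mem_map.1 hy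
      have hmem := List.mem_of_mem_erase he'
      have hne : e ≠ e' := by
        rintro rfl
        exact hes.nodup.not_mem_erase he'
      have h1 := vge_nat_of_dvd ht.1 hNe0 (dvd_cofactor hes he hmem hne)
      have h2 := one_le_padicValNat_of_dvd hNe0 hte
      have h3 := Vge.mul ht.1 h1 (evalFe_int ht.1 e' hx)
      exact h3.mono (by omega)
    have := Vge.sub ht.1 hS hrest
    simpa using this
  have hcof : padicValRat t (((PP es / Ne e : ℕ) : ℚ)) = 0 := by
    rw [padicValRat.of_nat, padicValNat.eq_zero_of_not_dvd (not_dvd_cofactor hes he ht.1 hte)]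
    rfl
  have hcof0 : (((PP es / Ne e : ℕ) : ℚ)) ≠ 0 := by
    have := not_dvd_cofactor hes he ht.1 hte
    intro h0
    apply this
    have h1 : PP es / Ne e = 0 := by exact_mod_cast h0
    rw [h1]; exact dvd_zero t
  have hFe : Vge t 1 (evalL (Fe e) x) := by
    by_cases h0 : evalL (Fe e) x = 0
    · exact Or.inl h0
    right
    have h1 := hterm.le (mul_ne_zero hcof0 h0)
    rw [val_mul ht.1 hcof0 h0, hcof, zero_add] at h1
    exact h1
  rw [evalL_Fe, vge_one_list_prod ht.1] at hFe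
  · obtain ⟨y, hy, hv⟩ := hFe
    obtain ⟨a, ha, rfl⟩ := List.mem_map.1 hy
    exact ⟨a, ha, (vge_factor ht.1 (cls_int hes he ht.1 hte ha).2).1 hv⟩
  · intro y hy
    obtain ⟨a, ha, rfl⟩ := List.mem_map.1 hy
    rw [vge_factor ht.1 (cls_int hes he ht.1 hte ha).2]
    exact Vge.sub ht.1 hx (cls_int hes he ht.1 hte ha).2

theorem F_complete {es : List (ℕ × ℕ)} (hes : GoodE es) {M : ℤ}
    (hM : ∀ e ∈ es, ∃ a ∈ cls e, ((e.1 * e.2 : ℕ) : ℤ) ∣ M - a) {e : ℕ × ℕ} (he : e ∈ es)
    {q : ℕ} (hq : Inert q) (hqe : q ∣ Ne e) :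
    Vge q (padicValNat q (NN es)) (evalL (FF es) (zz M)) := by
  have := Fact.mk hq.1
  have hspec := Ne_spec (hes.gp1 e he) (hes.gp2 e he) (hes.lt e he) hq.1 hqe
  have h17 := large_of_rk (hes.gp1 e he) (hes.gp2 e he) (hes.lt e he) hq hspec.1
  have hNe0 : Ne e ≠ 0 := (Ne_pos (hes.gp1 e he) (hes.gp2 e he) (hes.lt e he)).ne'
  have hodd : Odd (rk q) := by
    rw [hspec.1, Nat.odd_iff, Nat.mul_mod]
    have a1 := (hes.gp1 e he).2.1
    have a2 := (hes.gp2 e he).2.1
    have b1 : e.1 % 2 = 1 := by omega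
    have b2 : e.2 % 2 = 1 := by omega
    rw [b1, b2]
  obtain ⟨a, ha, hMa⟩ := hM e he
  have hint := cls_int hes he hq.1 hqe ha
  have hMr : ¬ (rk q : ℤ) ∣ M := by
    intro hd
    apply hint.1
    have h1 : (rk q : ℤ) ∣ M - a := by rw [hspec.1]; exact hMa
    have := dvd_sub hd h1
    simpa using this
  have hx : Vge q 0 (zz M) := by
    right; rw [(val_zero hq h17 hodd hMr).1]
  rw [val_NN_large hes hq h17, val_PP hes he hq.1 hqe, evalL_FF]
  have hS : Vge q (padicValNat q (Ne e)) (evalL (SS es) (zz M)) := by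
    rw [evalL_SS]
    apply vge_list_sum hq.1
    intro y hy
    obtain ⟨e', he', rfl⟩ := List.mem_map.1 hy
    by_cases hee : e = e'
    · subst hee
      have h1 : Vge q (padicValNat q (Ne e)) (evalL (Fe e) (zz M)) := by
        rw [evalL_Fe]
        refine list_prod_dvd hq.1 ?_ (List.mem_map.2 ⟨a, ha, rfl⟩) ?_
        · intro y hy
          obtain ⟨b, hb, rfl⟩ := List.mem_map.1 hy
          rw [vge_factor hq.1 (cls_int hes he hq.1 hqe hb).2]
          exact Vge.sub hq.1 hx (cls_int hes he hq.1 hqe hb).2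
        · rw [vge_factor hq.1 hint.2, hspec.2]
          refine close_of_dvd hq h17 hodd hMr hint.1 ?_ ?_ (Or.inl hMa)
          · have h1 := (hes.gp1 e he).1.pos
            have h2 := (hes.gp2 e he).1.pos
            exact_mod_cast (Nat.mul_pos h1 h2).ne'
          · rw [hspec.1]
      simpa using Vge.mul hq.1 (vge_nat q (PP es / Ne e)) h1
    · have h1 := vge_nat_of_dvd hq.1 hNe0 (dvd_cofactor hes he he' hee)
      simpa using Vge.mul hq.1 h1 (evalFe_int hq.1 e' hx)
  simpa using Vge.mul hq.1 (vge_ofNat q 60) hS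

end Pool.Agent.H528R3.FD
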