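import Pool.Agent.H528R3.FD.Defs
import Pool.Agent.H687R2.IntPoly

/-!
# The reduction is polynomial-time computable (task S10)
-/

set_option autoImplicit false

namespace Pool.Agent.H528R3.FD

open Pool.Agent.H528R2 Pool.Agent.NPC

namespace PolyF

variable {α : Type} [TEnc α]

/-! ### polynomials as lists -/

theorem addL_length : ∀ l l' : List ℤ, (addL l l').length = max l.length l'.length
  | [], l => by simp [addL]
  | a :: l, [] => by simp [addL]
  | a :: l, b :: l' => by
    simp only [addL, List.length_cons, addL_length l l']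
    omega

theorem addL_getD : ∀ (l l' : List ℤ) (i : ℕ),
    (addL l l').getD i 0 = l.getD i 0 + l'.getD i 0
  | [], l, i => by simp [addL]
  | a :: l, [], i => by simp [addL]
  | a :: l, b :: l', i => by
    cases i with
    | zero => simp [addL]
    | succ i =>
      simp only [addL, List.getD_cons_succ]
      exact addL_getD l l' i

theorem scale_length (c : ℤ) (l : List ℤ) : (scale c l).length = l.length := by
  simp [scale]

theorem scale_getD (c : ℤ) (l : List ℤ) (i : ℕ) : (scale c l).getD i 0 = c * l.getD i 0 := by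
  unfold scale
  rw [List.getD_eq_getElem?_getD, List.getD_eq_getElem?_getD, List.getElem?_map]
  cases l[i]? <;> simp

theorem ext_getD {l l' : List ℤ} (h : l.length = l'.length)
    (h' : ∀ i, l.getD i 0 = l'.getD i 0) : l = l' := by
  apply List.ext_getElem h
  intro i h1 h2
  have := h' i
  rw [List.getD_eq_getElem _ _ h1, List.getD_eq_getElem _ _ h2] at this
  exact this

theorem range_map_getD (n : ℕ) (F : ℕ → ℤ) (i : ℕ) :
    ((List.range n).map F).getD i 0 = if i < n then F i else 0 := by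
  split_ifs with h
  · rw [List.getD_eq_getElem _ _ (by simpa using h)]
    simp
  · rw [List.getD_eq_default _ _ (by simpa using h)]

theorem addL_eq (l l' : List ℤ) :
    addL l l' = (List.range (max l.length l'.length)).map (fun i => l.getD i 0 + l'.getD i 0) := by
  apply ext_getD
  · rw [addL_length]; simp
  · intro i
    rw [addL_getD, range_map_getD]
    split_ifs with h
    · rfl
    · rw [List.getD_eq_default _ _ (by omega), List.getD_eq_default _ _ (by omega)]
      simp

theorem mulLin_length (d n : ℤ) (l : List ℤ) : (mulLin d n l).length = l.length + 1 := by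
  unfold mulLin
  rw [addL_length, List.length_cons, scale_length, scale_length]
  omega

theorem Fe_length (e : ℕ × ℕ) : (Fe e).length = 9 := by
  simp [Fe, cls, mulLin_length]

theorem SS_length (es : List (ℕ × ℕ)) : (SS es).length = 9 := by
  unfold SS
  generalize PP es = P
  induction es with
  | nil => simp
  | cons e es ih =>
    rw [List.foldr_cons, addL_length, ih, scale_length, Fe_length]
    simp

theorem SS_getD (es : List (ℕ × ℕ)) (i : ℕ) : (SS es).getD i 0 =
    (es.map (fun e => ((PP es / Ne e : ℕ) : ℤ) * (Fe e).getD i 0)).sum := by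
  unfold SS
  generalize PP es = P
  induction es with
  | nil =>
    simp only [List.foldr_nil, List.map_nil, List.sum_nil]
    rw [List.getD_eq_getElem?_getD, List.getElem?_replicate]
    split_ifs <;> rfl
  | cons e es ih =>
    rw [List.foldr_cons, addL_getD, ih, scale_getD, List.map_cons, List.sum_cons]

theorem SS_eq (es : List (ℕ × ℕ)) : SS es = (List.range 9).map (fun i =>
    (es.map (fun e => ((PP es / Ne e : ℕ) : ℤ) * (Fe e).getD i 0)).sum) := by
  apply ext_getD
  · rw [SS_length]; simp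
  · intro i
    rw [range_map_getD]
    split_ifs with h
    · exact SS_getD es i
    · rw [List.getD_eq_default _ _ (by rw [SS_length]; omega)]

theorem poly_addL {l l' : α → List ℤ} (hl : NPC.Poly l) (hl' : NPC.Poly l') :
    NPC.Poly (fun a => addL (l a) (l' a)) := by
  have hm : UPoly (fun a => max (l a).length (l' a).length) :=
    UPoly.of_le (NPC.Poly.max (NPC.Poly.length hl) (NPC.Poly.length hl'))
      (UPoly.add (UPoly.length hl) (UPoly.length hl')) (fun a => by omega)
  refine (NPC.Poly.map (F := fun a i => (l a).getD i 0 + (l' a).getD i 0) hm.range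
    (NPC.Poly.iadd (NPC.Poly.getD (hl.comp (NPC.Poly.fst NPC.Poly.id)) (NPC.Poly.snd NPC.Poly.id) (NPC.Poly.const 0))
      (NPC.Poly.getD (hl'.comp (NPC.Poly.fst NPC.Poly.id)) (NPC.Poly.snd NPC.Poly.id) (NPC.Poly.const 0)))).congr
    fun a => ?_
  rw [addL_eq]

theorem poly_scale {c : α → ℤ} {l : α → List ℤ} (hc : NPC.Poly c) (hl : NPC.Poly l) :
    NPC.Poly (fun a => scale (c a) (l a)) :=
  NPC.Poly.map (F := fun a x => c a * x) hl
    (NPC.Poly.imul (hc.comp (NPC.Poly.fst NPC.Poly.id)) (NPC.Poly.snd NPC.Poly.id))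

theorem poly_mulLin {d n : α → ℤ} {l : α → List ℤ} (hd : NPC.Poly d) (hn : NPC.Poly n) (hl : NPC.Poly l) :
    NPC.Poly (fun a => mulLin (d a) (n a) (l a)) :=
  poly_addL (NPC.Poly.cons (NPC.Poly.const 0) (poly_scale hd hl)) (poly_scale (NPC.Poly.ineg hn) hl)

/-! ### rational numbers -/

theorem poly_num {q : α → ℚ} (hq : NPC.Poly q) : NPC.Poly (fun a => (q a).num) :=
  NPC.Poly.fst (f := fun a => ((q a).num, (q a).den)) hq

theorem poly_den {q : α → ℚ} (hq : NPC.Poly q) : NPC.Poly (fun a => (q a).den) :=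
  NPC.Poly.snd (f := fun a => ((q a).num, (q a).den)) hq

/-! ### classes -/

theorem crt_eq (u v i j : ℕ) : crt u v i j =
    (((List.range (u * v)).filter (fun a => decide (a % u = i ∧ a % v = j))).head?).getD 1 := by
  unfold crt
  rw [List.head?_filter]

theorem crt_le (u v i j : ℕ) : crt u v i j ≤ u * v + 1 := by
  unfold crt
  cases h : (List.range (u * v)).find? (fun a => decide (a % u = i ∧ a % v = j)) with
  | none => simp
  | some a =>
    have := List.mem_of_find?_eq_some h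
    rw [List.mem_range] at this
    simp
    omega

theorem poly_crt {u v i j : α → ℕ} (hu : UPoly u) (hv : UPoly v) (hi : NPC.Poly i) (hj : NPC.Poly j) :
    UPoly (fun a => crt (u a) (v a) (i a) (j a)) := by
  refine UPoly.of_le ?_ (UPoly.add (UPoly.mul hu hv) (UPoly.const 1))
    (fun a => crt_le _ _ _ _)
  refine (NPC.Poly.head?_getD (NPC.Poly.filter
    (p := fun a x => decide (x % u a = i a ∧ x % v a = j a)) (UPoly.mul hu hv).range
    (NPC.Poly.decide_and
      (NPC.Poly.decide_eq (NPC.Poly.mod (NPC.Poly.snd NPC.Poly.id) (hu.toPoly.comp (NPC.Poly.fst NPC.Poly.id)))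
        (hi.comp (NPC.Poly.fst NPC.Poly.id)))
      (NPC.Poly.decide_eq (NPC.Poly.mod (NPC.Poly.snd NPC.Poly.id) (hv.toPoly.comp (NPC.Poly.fst NPC.Poly.id)))
        (hj.comp (NPC.Poly.fst NPC.Poly.id))))) 1).congr fun a => ?_
  rw [crt_eq]

/-! ### products -/

theorem size_mul_le (a b : ℕ) : (a * b).size ≤ a.size + b.size := by
  rw [Nat.size_le, pow_add]
  exact Nat.mul_lt_mul'' (Nat.lt_size_self a) (Nat.lt_size_self b)

theorem size_foldr_mul : ∀ l : List ℕ, (l.foldr (fun x s => x * s) 1).size ≤ sz l + 1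
  | [] => by simp
  | x :: l => by
    have h1 := size_mul_le x (l.foldr (fun x s => x * s) 1)
    have h2 := size_foldr_mul l
    have h3 := size_le_sz x
    simp only [List.foldr_cons, sz_list_cons]
    omega

theorem poly_prod {l : α → List ℕ} (hl : NPC.Poly l) : NPC.Poly (fun a => (l a).prod) := by
  obtain ⟨r, hr⟩ := hl.sz_le
  refine (NPC.Poly.foldr (s := fun _ => 1) (F := fun _ x s => x * s) hl (NPC.Poly.const 1)
    (NPC.Poly.mul (NPC.Poly.fst (NPC.Poly.snd NPC.Poly.id)) (NPC.Poly.snd (NPC.Poly.snd NPC.Poly.id)))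
    (Polynomial.C 4 * r + Polynomial.C 5) ?_).congr fun a => ?_
  · intro a k _
    have h1 := sz_nat_le (((l a).drop k).foldr (fun x s => x * s) 1)
    have h2 := size_foldr_mul ((l a).drop k)
    have h3 := NPC.Poly.sz_drop_le (l a) k
    have h4 := hr a
    simp only [Polynomial.eval_add, Polynomial.eval_mul, Polynomial.eval_C]
    omega
  · rfl

/-! ### the data of an edge -/

/-- `zz` and `yy` at unary arguments -/
abbrev HZ : Prop := NPC.Poly (fun l : List Unit => (zz (l.length : ℤ), yy (l.length : ℤ)))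

theorem poly_zz' (hz : HZ) {n : α → ℕ} (hn : UPoly n) : NPC.Poly (fun a => zz ((n a : ℕ) : ℤ)) :=
  (NPC.Poly.fst (hz.comp hn)).congr fun a => by simp

theorem poly_yy' (hz : HZ) {n : α → ℕ} (hn : UPoly n) : NPC.Poly (fun a => yy ((n a : ℕ) : ℤ)) :=
  (NPC.Poly.snd (hz.comp hn)).congr fun a => by simp

theorem poly_Dn (hz : HZ) {n : α → ℕ} (hn : UPoly n) : NPC.Poly (fun a => Dn (n a)) :=
  NPC.Poly.div (poly_den (poly_yy' hz hn)) (poly_den (poly_zz' hz hn))

theorem poly_Ne (hz : HZ) {u v : α → ℕ} (hu : UPoly u) (hv : UPoly v) :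
    NPC.Poly (fun a => Ne (u a, v a)) :=
  NPC.Poly.div (poly_Dn hz (UPoly.mul hu hv)) (NPC.Poly.mul (poly_Dn hz hu) (poly_Dn hz hv))

theorem poly_step (hz : HZ) {c : α → ℕ} {l : α → List ℤ} (hc : UPoly c) (hl : NPC.Poly l) :
    NPC.Poly (fun a => mulLin ((zz ((c a : ℕ) : ℤ)).den : ℤ) (zz ((c a : ℕ) : ℤ)).num (l a)) :=
  poly_mulLin (NPC.Poly.natCast (poly_den (poly_zz' hz hc))) (poly_num (poly_zz' hz hc)) hl

theorem poly_Fe (hz : HZ) {u v : α → ℕ} (hu : UPoly u) (hv : UPoly v) :
    NPC.Poly (fun a => Fe (u a, v a)) := by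
  have c : ∀ {i j : α → ℕ}, NPC.Poly i → NPC.Poly j → UPoly (fun a => crt (u a) (v a) (i a) (j a)) :=
    fun hi hj => poly_crt hu hv hi hj
  have hv2 : NPC.Poly (fun a => v a - 2) := NPC.Poly.sub hv.toPoly (NPC.Poly.const 2)
  have hv1 : NPC.Poly (fun a => v a - 1) := NPC.Poly.sub hv.toPoly (NPC.Poly.const 1)
  refine (poly_step hz (c (NPC.Poly.const 0) (NPC.Poly.const 1)) <|
    poly_step hz (c (NPC.Poly.const 0) (NPC.Poly.const 2)) <|
    poly_step hz (c (NPC.Poly.const 1) (NPC.Poly.const 0)) <|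
    poly_step hz (c (NPC.Poly.const 2) (NPC.Poly.const 0)) <|
    poly_step hz (c (NPC.Poly.const 1) (NPC.Poly.const 2)) <|
    poly_step hz (c (NPC.Poly.const 1) hv2) <|
    poly_step hz (c (NPC.Poly.const 2) (NPC.Poly.const 1)) <|
    poly_step hz (c (NPC.Poly.const 2) hv1) <| NPC.Poly.const [1]).congr fun a => ?_
  rfl

theorem le_sum {l : List (ℕ × ℕ)} {e : ℕ × ℕ} (h : e ∈ l) :
    e.1 + e.2 ≤ (l.map (fun e => e.1 + e.2)).sum :=
  List.single_le_sum (by simp) _ (List.mem_map.2 ⟨e, h, rfl⟩)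

theorem poly_table (hz : HZ) {f : List (ℕ × ℕ) → List (ℕ × ℕ)} (hf : NPC.Poly f)
    (hu : UPoly (fun E : List (ℕ × ℕ) => ((f E).map (fun e => e.1 + e.2)).sum)) :
    NPC.Poly (fun E : List (ℕ × ℕ) => (f E).map (fun e => (Ne e, Fe e))) := by
  have hu' : UPoly (fun p : List (ℕ × ℕ) × (ℕ × ℕ) =>
      ((f p.1).map (fun e => e.1 + e.2)).sum) := hu.comp (NPC.Poly.fst NPC.Poly.id)
  have h1 : UPoly (fun p : List (ℕ × ℕ) × (ℕ × ℕ) =>
      min p.2.1 ((f p.1).map (fun e => e.1 + e.2)).sum) :=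
    UPoly.of_le (NPC.Poly.min (NPC.Poly.fst (NPC.Poly.snd NPC.Poly.id)) hu'.toPoly) hu' (fun a => min_le_right _ _)
  have h2 : UPoly (fun p : List (ℕ × ℕ) × (ℕ × ℕ) =>
      min p.2.2 ((f p.1).map (fun e => e.1 + e.2)).sum) :=
    UPoly.of_le (NPC.Poly.min (NPC.Poly.snd (NPC.Poly.snd NPC.Poly.id)) hu'.toPoly) hu' (fun a => min_le_right _ _)
  refine (NPC.Poly.map (F := fun E e => (Ne (min e.1 ((f E).map (fun e => e.1 + e.2)).sum,
      min e.2 ((f E).map (fun e => e.1 + e.2)).sum),
      Fe (min e.1 ((f E).map (fun e => e.1 + e.2)).sum,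
      min e.2 ((f E).map (fun e => e.1 + e.2)).sum))) hf
      (NPC.Poly.pair (poly_Ne hz h1 h2) (poly_Fe hz h1 h2))).congr fun E => ?_
  refine List.map_congr_left fun e he => ?_
  have := le_sum he
  rw [min_eq_left (by omega), min_eq_left (by omega)]

theorem poly_NN_FF_of (hz : HZ) {f : List (ℕ × ℕ) → List (ℕ × ℕ)} (hf : NPC.Poly f)
    (hu : NPC.Poly (fun E : List (ℕ × ℕ) => List.replicate ((f E).map (fun e => e.1 + e.2)).sum ())) :
    NPC.Poly (fun E : List (ℕ × ℕ) => ((NN (f E) : ℤ), FF (f E))) := by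
  have hT := poly_table hz hf hu
  have hP : NPC.Poly (fun E : List (ℕ × ℕ) => PP (f E)) := by
    refine (poly_prod (NPC.Poly.map (F := fun _ (x : ℕ × List ℤ) => x.1) hT
      (NPC.Poly.fst (NPC.Poly.snd NPC.Poly.id)))).congr fun E => ?_
    unfold PP
    rw [List.map_map]
    rfl
  have hN : NPC.Poly (fun E : List (ℕ × ℕ) => (NN (f E) : ℤ)) :=
    NPC.Poly.natCast (NPC.Poly.mul (NPC.Poly.mod hP (NPC.Poly.const 8)) hP)
  have hS : NPC.Poly (fun E : List (ℕ × ℕ) => SS (f E)) := by
    let G : List (ℕ × ℕ) → ℕ → ℤ := fun E i => (((f E).map (fun e => (Ne e, Fe e))).map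
        (fun x => ((PP (f E) / x.1 : ℕ) : ℤ) * x.2.getD i 0)).sum
    have hterm : NPC.Poly (fun q : (List (ℕ × ℕ) × ℕ) × (ℕ × List ℤ) =>
        ((PP (f q.1.1) / q.2.1 : ℕ) : ℤ) * q.2.2.getD q.1.2 0) :=
      NPC.Poly.imul (NPC.Poly.natCast (NPC.Poly.div (hP.comp (NPC.Poly.fst (NPC.Poly.fst NPC.Poly.id)))
          (NPC.Poly.fst (NPC.Poly.snd NPC.Poly.id))))
          (NPC.Poly.getD (NPC.Poly.snd (NPC.Poly.snd NPC.Poly.id)) (NPC.Poly.snd (NPC.Poly.fst NPC.Poly.id))
            (NPC.Poly.const 0))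
    have hT' : NPC.Poly (fun p : List (ℕ × ℕ) × ℕ => (f p.1).map (fun e => (Ne e, Fe e))) :=
      hT.comp (NPC.Poly.fst NPC.Poly.id)
    have hc : NPC.Poly (fun p : List (ℕ × ℕ) × ℕ => G p.1 p.2) :=
      NPC.Poly.isum (NPC.Poly.map (l := fun p : List (ℕ × ℕ) × ℕ =>
        (f p.1).map (fun e => (Ne e, Fe e))) (F := fun (p : List (ℕ × ℕ) × ℕ) (x : ℕ × List ℤ) =>
        ((PP (f p.1) / x.1 : ℕ) : ℤ) * x.2.getD p.2 0) hT' hterm)
    have hr : NPC.Poly (fun _ : List (ℕ × ℕ) => List.range 9) := NPC.Poly.const _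
    have hm : NPC.Poly (fun E : List (ℕ × ℕ) => (List.range 9).map (G E)) :=
      NPC.Poly.map (l := fun _ : List (ℕ × ℕ) => List.range 9) (F := G) hr hc
    refine hm.congr fun E => ?_
    rw [SS_eq]
    refine List.map_congr_left fun i _ => ?_
    simp only [G]
    rw [List.map_map]
    rfl
  exact NPC.Poly.pair hN (poly_scale (NPC.Poly.const 60) hS)

end PolyF

/-- the statement of task S10, with the statement of task S8 as a hypothesis -/
theorem poly_NN_FF_of (hz : NPC.Poly (fun l : List Unit => (zz (l.length : ℤ), yy (l.length : ℤ))))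
    {f : List (ℕ × ℕ) → List (ℕ × ℕ)} (hf : NPC.Poly f)
    (hu : NPC.Poly (fun E : List (ℕ × ℕ) =>
      List.replicate ((f E).map (fun e => e.1 + e.2)).sum ())) :
    NPC.Poly (fun E : List (ℕ × ℕ) => ((NN (f E) : ℤ), FF (f E))) :=
  PolyF.poly_NN_FF_of hz hf hu

end Pool.Agent.H528R3.FD
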