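import Pool.Agent.H528R3.FD.Defs
import Pool.Agent.H528R3.Height
import Pool.Agent.H687R2.IntPoly
import Pool.Agent.ER.Rat

/-!
# S8: the coordinates of the multiples of the generator are computed in polynomial time
-/

set_option autoImplicit false

namespace Pool.Agent.H528R3.FD

open Pool.Agent.H528R2 Pool.Agent.NPC

namespace PolyZZ

section arith

variable {α : Type} [TEnc α]

theorem poly_num {f : α → ℚ} (hf : Poly f) : Poly (fun a => (f a).num) :=
  NPC.Poly.fst (f := fun a => ((f a).num, (f a).den)) hf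

theorem poly_den {f : α → ℚ} (hf : Poly f) : Poly (fun a => (f a).den) :=
  NPC.Poly.snd (f := fun a => ((f a).num, (f a).den)) hf

theorem poly_mkRat {n : α → ℤ} {d : α → ℕ} (hn : Poly n) (hd : Poly d) :
    Poly (fun a => mkRat (n a) (d a)) := by
  have hg : Poly (fun a => Nat.gcd (n a).natAbs (d a)) := NPC.Poly.gcd (NPC.Poly.natAbs hn) hd
  have h0 : Poly (fun a => decide (d a = 0)) := NPC.Poly.decide_eq hd (NPC.Poly.const 0)
  have h1 : Poly (fun a => if d a = 0 then (0 : ℤ) else n a / (Nat.gcd (n a).natAbs (d a) : ℤ)) :=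
    NPC.Poly.ite h0 (NPC.Poly.const 0) (NPC.Poly.idiv hn hg)
  have h2 : Poly (fun a => if d a = 0 then 1 else d a / Nat.gcd (n a).natAbs (d a)) :=
    NPC.Poly.ite h0 (NPC.Poly.const 1) (NPC.Poly.div hd hg)
  have h3 : Poly (fun a => ((mkRat (n a) (d a)).num, (mkRat (n a) (d a)).den)) := by
    refine (NPC.Poly.pair h1 h2).congr fun a => ?_
    rw [Rat.mkRat_def]
    split_ifs with h
    · rfl
    · rw [Rat.normalize_eq]
  exact h3

theorem poly_add {f g : α → ℚ} (hf : Poly f) (hg : Poly g) : Poly (fun a => f a + g a) :=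
  (poly_mkRat (NPC.Poly.iadd (NPC.Poly.imul (poly_num hf) (NPC.Poly.natCast (poly_den hg)))
    (NPC.Poly.imul (poly_num hg) (NPC.Poly.natCast (poly_den hf))))
    (NPC.Poly.mul (poly_den hf) (poly_den hg))).congr fun _ => (Rat.add_def' _ _).symm

theorem poly_mul {f g : α → ℚ} (hf : Poly f) (hg : Poly g) : Poly (fun a => f a * g a) :=
  (poly_mkRat (NPC.Poly.imul (poly_num hf) (poly_num hg))
    (NPC.Poly.mul (poly_den hf) (poly_den hg))).congr fun _ => (Rat.mul_def' _ _).symm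

theorem poly_neg {f : α → ℚ} (hf : Poly f) : Poly (fun a => - f a) :=
  (poly_mkRat (NPC.Poly.ineg (poly_num hf)) (poly_den hf)).congr fun a => by
    rw [Rat.mkRat_eq_div]
    push_cast
    rw [neg_div, Rat.num_div_den]

theorem poly_sub {f g : α → ℚ} (hf : Poly f) (hg : Poly g) : Poly (fun a => f a - g a) :=
  (poly_add hf (poly_neg hg)).congr fun _ => (sub_eq_add_neg _ _).symm

theorem poly_inv {f : α → ℚ} (hf : Poly f) : Poly (fun a => (f a)⁻¹) :=
  (poly_mkRat (NPC.Poly.ofSM (NPC.Poly.isNeg (poly_num hf)) (poly_den hf))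
    (NPC.Poly.natAbs (poly_num hf))).congr fun a => by
      rw [Rat.mkRat_eq_div]
      conv_rhs => rw [← Rat.num_div_den (f a)]
      rw [inv_div]
      by_cases h : (f a).num < 0
      · have e : (((f a).num.natAbs : ℕ) : ℚ) = -((f a).num : ℚ) := by
          have : (((f a).num.natAbs : ℕ) : ℤ) = -(f a).num := by omega
          have h2 := congrArg (Int.cast : ℤ → ℚ) this
          rwa [Int.cast_natCast, Int.cast_neg] at h2
        simp only [NPC.ofSM, h, decide_true, cond_true]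
        rw [e]
        push_cast
        rw [neg_div_neg_eq]
      · have e : (((f a).num.natAbs : ℕ) : ℚ) = ((f a).num : ℚ) := by
          have : (((f a).num.natAbs : ℕ) : ℤ) = (f a).num := by omega
          have h2 := congrArg (Int.cast : ℤ → ℚ) this
          rwa [Int.cast_natCast] at h2
        simp only [NPC.ofSM, h, decide_false, cond_false]
        rw [e]
        push_cast
        rfl

theorem poly_div {f g : α → ℚ} (hf : Poly f) (hg : Poly g) : Poly (fun a => f a / g a) :=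
  (poly_mul hf (poly_inv hg)).congr fun _ => (div_eq_mul_inv _ _).symm

end arith

/-- adding the generator -/
def step (s : ℚ × ℚ) : ℚ × ℚ :=
  if s.1 = 0 then (5, 20) else if s.1 = 5 then (1, -8) else
    (((s.2 - 20) / (s.1 - 5)) * ((s.2 - 20) / (s.1 - 5)) + 2 - s.1 - 5,
      -(((s.2 - 20) / (s.1 - 5)) *
        (((s.2 - 20) / (s.1 - 5)) * ((s.2 - 20) / (s.1 - 5)) + 2 - s.1 - 5 - s.1) + s.2))

theorem poly_step : Poly step := by
  have hx : Poly (fun s : ℚ × ℚ => s.1) := NPC.Poly.fst NPC.Poly.id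
  have hy : Poly (fun s : ℚ × ℚ => s.2) := NPC.Poly.snd NPC.Poly.id
  have hl : Poly (fun s : ℚ × ℚ => (s.2 - 20) / (s.1 - 5)) :=
    poly_div (poly_sub hy (NPC.Poly.const 20)) (poly_sub hx (NPC.Poly.const 5))
  have hx' := poly_sub (poly_sub (poly_add (poly_mul hl hl) (NPC.Poly.const 2)) hx) (NPC.Poly.const 5)
  have h := NPC.Poly.pair hx' (poly_neg (poly_add (poly_mul hl (poly_sub hx' hx)) hy))
  have h0 : Poly (fun s : ℚ × ℚ => decide (s.1 = 0)) := NPC.Poly.decide_eq hx (NPC.Poly.const 0)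
  have h5 : Poly (fun s : ℚ × ℚ => decide (s.1 = 5)) := NPC.Poly.decide_eq hx (NPC.Poly.const 5)
  exact NPC.Poly.ite h0 (NPC.Poly.const (5, 20)) (NPC.Poly.ite h5 (NPC.Poly.const (1, -8)) h)

theorem step_zz (n : ℕ) : step (zz (n : ℤ), yy (n : ℤ)) =
    (zz ((n + 1 : ℕ) : ℤ), yy ((n + 1 : ℕ) : ℤ)) := by
  unfold step
  rcases Nat.eq_zero_or_pos n with h0 | h0
  · subst h0
    have e : zz ((0 : ℕ) : ℤ) = 0 := by simp [zz]
    simp only [e, if_true, zero_add, Nat.cast_one]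
    rw [zz_one, yy_one]
  · have hn : ((n : ℕ) : ℤ) ≠ 0 := by omega
    have hz : zz ((n : ℕ) : ℤ) ≠ 0 := (zz_pos hn).ne'
    simp only [hz, if_false]
    split_ifs with h5
    · rw [← zz_one, zz_eq_iff hn one_ne_zero] at h5
      have h1 : n = 1 := by omega
      subst h1
      have e : ((1 + 1 : ℕ) : ℤ) = 2 := by norm_num
      rw [e, ZZaux.zz_two', ZZaux.yy_two']
    · have h := ZZaux.add_zz (m := (n : ℤ)) (n := 1) rfl rfl zz_one yy_one hz (by norm_num) h5
      have e : ((n + 1 : ℕ) : ℤ) = (n : ℤ) + 1 := by push_cast; rfl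
      rw [e, h.2, h.1, pow_two]

theorem iter_zz (n : ℕ) : step^[n] (0, 0) = (zz (n : ℤ), yy (n : ℤ)) := by
  induction n with
  | zero => simp [zz, yy]
  | succ n ih => rw [Function.iterate_succ_apply', ih, step_zz]

/-! ### sizes -/

theorem sz_rat (q : ℚ) : sz q ≤ 4 * q.num.natAbs.size + 4 * q.den.size + 7 := by
  have h : sz q = sz (q.num, q.den) := rfl
  rw [h, sz_pair]
  have h1 := sz_int_le q.num
  have h2 := sz_nat_le q.den
  omega

/-- quadratic bound for the heights -/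
theorem ht_le : ∃ A : ℕ, ∀ n : ℕ, ht ((n : ℕ) : ℤ) ≤ A * (n : ℝ) ^ 2 := by
  obtain ⟨C, hC⟩ := ht_para
  set K : ℝ := |2 * ht 1 + C| + |ht 2 - ht 1| with hK
  have hK0 : 0 ≤ K := by positivity
  have hD : ∀ n : ℕ, ht ((n + 2 : ℕ) : ℤ) - ht ((n + 1 : ℕ) : ℤ) ≤ K * (n + 1) := by
    intro n
    induction n with
    | zero =>
      have h1 := le_abs_self (ht 2 - ht 1)
      have h2 := abs_nonneg (2 * ht 1 + C)
      simp only [zero_add, Nat.cast_one, Nat.cast_ofNat, Nat.cast_zero, mul_one]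
      linarith
    | succ n ih =>
      have h := hC ((n + 2 : ℕ) : ℤ) 1 (by omega) one_ne_zero (by omega) (by omega)
      have e1 : ((n + 2 : ℕ) : ℤ) + 1 = ((n + 1 + 2 : ℕ) : ℤ) := by push_cast; ring
      have e2 : ((n + 2 : ℕ) : ℤ) - 1 = ((n + 1 : ℕ) : ℤ) := by push_cast; ring
      rw [e1, e2, abs_le] at h
      have h1 := le_abs_self (2 * ht 1 + C)
      have h2 := abs_nonneg (ht 2 - ht 1)
      have e3 : ((n + 1 + 1 : ℕ) : ℤ) = ((n + 2 : ℕ) : ℤ) := by push_cast; ring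
      rw [e3]
      push_cast at *
      nlinarith [h.2]
  have hS : ∀ n : ℕ, ht ((n + 1 : ℕ) : ℤ) ≤ ht 1 + K * n ^ 2 := by
    intro n
    induction n with
    | zero => simp
    | succ n ih =>
      have h := hD n
      have e3 : ((n + 1 + 1 : ℕ) : ℤ) = ((n + 2 : ℕ) : ℤ) := by push_cast; ring
      rw [e3]
      have hn : (0 : ℝ) ≤ n := Nat.cast_nonneg n
      have e4 : ((n + 1 : ℕ) : ℝ) = (n : ℝ) + 1 := by push_cast; ring
      rw [e4]
      nlinarith
  obtain ⟨A, hA⟩ := exists_nat_ge (ht 1 + K)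
  refine ⟨A, fun n => ?_⟩
  cases n with
  | zero =>
    have e : ht ((0 : ℕ) : ℤ) = 0 := by simp [ht, zz]
    rw [e]
    positivity
  | succ n =>
    have h := hS n
    have h1 := ht_nonneg 1
    have hn : (0 : ℝ) ≤ n := Nat.cast_nonneg n
    have e4 : ((n + 1 : ℕ) : ℝ) = (n : ℝ) + 1 := by push_cast; ring
    rw [e4]
    nlinarith [mul_nonneg hn hn, mul_nonneg hK0 hn, mul_nonneg h1 hn,
      mul_nonneg h1 (mul_nonneg hn hn)]

/-- numerators and denominators of `zz n` are below `2 ^ (2 A n ^ 2 + 1)` -/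
theorem max_lt : ∃ A : ℕ, ∀ n : ℕ, max (zz (n : ℤ)).num.natAbs (zz (n : ℤ)).den <
    2 ^ (A * n ^ 2 + 1) := by
  obtain ⟨A, hA⟩ := ht_le
  refine ⟨2 * A, fun n => ?_⟩
  have h := hA n
  unfold ht at h
  rw [Rat.logHeight₁_eq_log_max] at h
  set M := max (zz (n : ℤ)).num.natAbs (zz (n : ℤ)).den with hM
  have hM0 : 0 < M := lt_of_lt_of_le (zz (n : ℤ)).den_pos (le_max_right _ _)
  have hM1 : (0 : ℝ) < M := by exact_mod_cast hM0
  have h1 : (M : ℝ) ≤ Real.exp (A * (n : ℝ) ^ 2) := (Real.log_le_iff_le_exp hM1).1 h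
  have h2 : Real.exp (A * (n : ℝ) ^ 2) = Real.exp 1 ^ (A * n ^ 2) := by
    rw [← Real.exp_nat_mul]
    congr 1
    push_cast
    ring
  have h3 : Real.exp 1 ^ (A * n ^ 2) ≤ 4 ^ (A * n ^ 2) :=
    pow_le_pow_left₀ (Real.exp_pos 1).le (by linarith [Real.exp_one_lt_d9]) _
  have h4 : (M : ℝ) ≤ ((2 ^ (2 * A * n ^ 2) : ℕ) : ℝ) := by
    have e : ((2 ^ (2 * A * n ^ 2) : ℕ) : ℝ) = 4 ^ (A * n ^ 2) := by
      rw [mul_assoc, pow_mul]
      norm_num
    rw [e]
    linarith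
  have h5 : M ≤ 2 ^ (2 * A * n ^ 2) := by exact_mod_cast h4
  have h6 : 0 < 2 ^ (2 * A * n ^ 2) := by positivity
  rw [pow_succ]
  omega

/-- bound for the second coordinate of a rational point -/
theorem yy_bound {x y : ℚ} (h : y ^ 2 = x ^ 3 - 2 * x ^ 2 + 65 * x) (H : ℕ)
    (h1 : x.num.natAbs ≤ H) (h2 : x.den ≤ H) :
    y.num.natAbs ≤ 68 * H ^ 3 ∧ y.den ≤ H ^ 3 := by
  have hx : x * x.den = x.num := Rat.mul_den_eq_num x
  have hy : y * y.den = y.num := Rat.mul_den_eq_num y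
  -- the equation over the integers
  have key : y.num ^ 2 * (x.den : ℤ) ^ 3 = (x.num ^ 3 - 2 * x.num ^ 2 * x.den +
      65 * x.num * x.den ^ 2) * (y.den : ℤ) ^ 2 := by
    have h3 : (y.num : ℚ) ^ 2 * (x.den : ℚ) ^ 3 = (x.num ^ 3 - 2 * x.num ^ 2 * x.den +
      65 * x.num * x.den ^ 2) * (y.den : ℚ) ^ 2 := by
      rw [← hx, ← hy]
      linear_combination ((y.den : ℚ) ^ 2 * (x.den : ℚ) ^ 3) * h
    exact_mod_cast h3
  set N : ℤ := x.num ^ 3 - 2 * x.num ^ 2 * x.den + 65 * x.num * x.den ^ 2 with hN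
  have hNb : N.natAbs ≤ 68 * H ^ 3 := by
    have e1 : |N| ≤ |x.num| ^ 3 + 2 * |x.num| ^ 2 * x.den + 65 * |x.num| * (x.den : ℤ) ^ 2 := by
      have a1 := abs_add_le (x.num ^ 3 - 2 * x.num ^ 2 * x.den) (65 * x.num * (x.den : ℤ) ^ 2)
      have a2 := abs_sub (x.num ^ 3) (2 * x.num ^ 2 * (x.den : ℤ))
      have a3 : |x.num ^ 3| = |x.num| ^ 3 := abs_pow _ _
      have a4 : |2 * x.num ^ 2 * (x.den : ℤ)| = 2 * |x.num| ^ 2 * x.den := by
        rw [abs_mul, abs_mul, abs_pow, Nat.abs_cast]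
        norm_num
      have a5 : |65 * x.num * (x.den : ℤ) ^ 2| = 65 * |x.num| * (x.den : ℤ) ^ 2 := by
        rw [abs_mul, abs_mul, abs_pow, Nat.abs_cast]
        norm_num
      rw [hN]
      linarith
    have b1 : |x.num| ≤ H := by
      rw [Int.abs_eq_natAbs]
      exact_mod_cast h1
    have b2 : (x.den : ℤ) ≤ H := by exact_mod_cast h2
    have b0 : (0 : ℤ) ≤ |x.num| := abs_nonneg _
    have b3 : (0 : ℤ) ≤ (x.den : ℤ) := by positivity
    have c1 : |x.num| ^ 3 ≤ (H : ℤ) ^ 3 := pow_le_pow_left₀ b0 b1 3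
    have c2 : |x.num| ^ 2 * (x.den : ℤ) ≤ (H : ℤ) ^ 2 * H :=
      mul_le_mul (pow_le_pow_left₀ b0 b1 2) b2 b3 (by positivity)
    have c3 : |x.num| * (x.den : ℤ) ^ 2 ≤ (H : ℤ) * (H : ℤ) ^ 2 :=
      mul_le_mul b1 (pow_le_pow_left₀ b3 b2 2) (by positivity) (by positivity)
    have e2 : |N| ≤ 68 * (H : ℤ) ^ 3 := by nlinarith
    rw [Int.abs_eq_natAbs] at e2
    exact_mod_cast e2
  have keyN : y.num.natAbs ^ 2 * x.den ^ 3 = N.natAbs * y.den ^ 2 := by
    have := congrArg Int.natAbs key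
    simpa [Int.natAbs_mul, Int.natAbs_pow] using this
  have hcop : Nat.Coprime (y.den ^ 2) (y.num.natAbs ^ 2) := (y.reduced.pow 2 2).symm
  have hdvd : y.den ^ 2 ∣ x.den ^ 3 :=
    hcop.dvd_of_dvd_mul_left (keyN ▸ Dvd.intro_left _ rfl)
  have hq0 : 0 < x.den ^ 3 := pow_pos x.den_pos 3
  have hle := Nat.le_of_dvd hq0 hdvd
  have hd1 : y.den ≤ y.den ^ 2 := Nat.le_self_pow (by norm_num) _
  have hs1 : y.num.natAbs ≤ y.num.natAbs ^ 2 := Nat.le_self_pow (by norm_num) _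
  have hH : x.den ^ 3 ≤ H ^ 3 := Nat.pow_le_pow_left h2 3
  refine ⟨?_, by omega⟩
  have h4 : y.num.natAbs ^ 2 * x.den ^ 3 ≤ N.natAbs * x.den ^ 3 := by
    rw [keyN]
    exact Nat.mul_le_mul_left _ hle
  have h5 := Nat.le_of_mul_le_mul_right h4 hq0
  omega

theorem size_bounds {A n : ℕ} (h : max (zz (n : ℤ)).num.natAbs (zz (n : ℤ)).den <
    2 ^ (A * n ^ 2 + 1)) : sz (zz (n : ℤ), yy (n : ℤ)) ≤ 32 * (A * n ^ 2 + 1) + 100 := by
  rcases Nat.eq_zero_or_pos n with h0 | h0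
  · subst h0
    have e : (zz ((0 : ℕ) : ℤ), yy ((0 : ℕ) : ℤ)) = (0, 0) := by simp [zz, yy]
    rw [e, sz_pair]
    have h1 := sz_rat 0
    simp only [Rat.num_zero, Int.natAbs_zero, Nat.size_zero, Rat.den_zero] at h1
    have h2 : (1 : ℕ).size = 1 := Nat.size_one
    omega
  · have hn : ((n : ℕ) : ℤ) ≠ 0 := by omega
    set k := A * n ^ 2 + 1 with hk
    have hH1 : (zz (n : ℤ)).num.natAbs ≤ 2 ^ k := (le_max_left _ _).trans h.le
    have hH2 : (zz (n : ℤ)).den ≤ 2 ^ k := (le_max_right _ _).trans h.le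
    obtain ⟨h1, h2⟩ := yy_bound (pt_eq (smul_P0_ne hn)) (2 ^ k) hH1 hH2
    change (yy (n : ℤ)).num.natAbs ≤ _ at h1
    change (yy (n : ℤ)).den ≤ _ at h2
    have e3 : (2 ^ k) ^ 3 = 2 ^ (3 * k) := by rw [← pow_mul, mul_comm]
    rw [e3] at h1 h2
    have s1 : (zz (n : ℤ)).num.natAbs.size ≤ k := Nat.size_le.2 ((le_max_left _ _).trans_lt h)
    have s2 : (zz (n : ℤ)).den.size ≤ k := Nat.size_le.2 ((le_max_right _ _).trans_lt h)
    have hp : 0 < 2 ^ (3 * k) := by positivity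
    have s3 : (yy (n : ℤ)).num.natAbs.size ≤ 3 * k + 7 := Nat.size_le.2 (by
      rw [pow_add]
      omega)
    have s4 : (yy (n : ℤ)).den.size ≤ 3 * k + 7 := Nat.size_le.2 (by
      rw [pow_add]
      omega)
    have t1 := sz_rat (zz (n : ℤ))
    have t2 := sz_rat (yy (n : ℤ))
    rw [sz_pair]
    omega

end PolyZZ

open PolyZZ

theorem poly_zz : NPC.Poly (fun l : List Unit => (zz (l.length : ℤ), yy (l.length : ℤ))) := by
  obtain ⟨A, hA⟩ := max_lt
  refine (NPC.Poly.iterLen (α := List Unit) (l := fun l => l) (s := fun _ => ((0, 0) : ℚ × ℚ))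
    (F := fun _ s => step s) NPC.Poly.id (NPC.Poly.const _) (poly_step.comp (NPC.Poly.snd NPC.Poly.id))
    (Polynomial.C 32 * (Polynomial.C A * Polynomial.X ^ 2 + Polynomial.C 1) + Polynomial.C 100)
    ?_).congr fun l => ?_
  · intro l k hk
    change sz (step^[k] (0, 0)) ≤ _
    rw [iter_zz]
    refine (size_bounds (hA k)).trans ?_
    simp only [Polynomial.eval_add, Polynomial.eval_mul, Polynomial.eval_C, Polynomial.eval_pow,
      Polynomial.eval_X]
    have h1 := length_lt_sz l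
    have h2 : k ^ 2 ≤ sz l ^ 2 := Nat.pow_le_pow_left (by omega) 2
    have h3 := Nat.mul_le_mul_left A h2
    omega
  · exact iter_zz l.length

end Pool.Agent.H528R3.FD
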