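import Mathlib
import Pool.Agent.H528R3.FD.Defs
import Pool.Agent.H528R3.FD.Abund
import Pool.Agent.H692R2.Col

/-!
# From graphs to admissible lists of edges
-/

set_option autoImplicit false

namespace Pool.Agent.H528R3.FD

open Pool.Agent.NPC

/-- an exponent as in `many_primes` -/
noncomputable def KK : ℕ := Classical.choose many_primes
/-- the list of the admissible primes below `B` -/
def primesUpTo (B : ℕ) : List ℕ := (List.range B).filter (fun p => decide (GP p))
/-- the vertices of a graph -/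
def verts (E : List (ℕ × ℕ)) : List ℕ := E.flatMap (fun e => [e.1, e.2])
/-- the prime attached to a vertex -/
noncomputable def nam (E : List (ℕ × ℕ)) (x : ℕ) : ℕ :=
  (primesUpTo (((verts E).length + 2) ^ KK)).getD ((verts E).idxOf x) 0
/-- the ordered pair -/
def ordP (p : ℕ × ℕ) : ℕ × ℕ := if p.1 < p.2 then p else (p.2, p.1)
/-- removal of duplicates -/
def ddup (l : List (ℕ × ℕ)) : List (ℕ × ℕ) := l.foldr (fun a l => if a ∈ l then l else a :: l) []
/-- the admissible list of edges attached to a graph -/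
noncomputable def redE (E : List (ℕ × ℕ)) : List (ℕ × ℕ) :=
  ddup (E.map (fun e => ordP (nam E e.1, nam E e.2)))

namespace RedAux

theorem mem_primesUpTo {B p : ℕ} : p ∈ primesUpTo B ↔ p < B ∧ GP p := by
  simp [primesUpTo]

theorem nodup_primesUpTo (B : ℕ) : (primesUpTo B).Nodup := List.nodup_range.filter _

theorem length_primesUpTo (B : ℕ) :
    (primesUpTo B).length = ((Finset.range B).filter (fun p => GP p)).card := by
  rw [← List.toFinset_card_of_nodup (nodup_primesUpTo B)]
  congr 1
  ext p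
  simp [mem_primesUpTo]

theorem le_length (L : ℕ) : L ≤ (primesUpTo ((L + 2) ^ KK)).length := by
  rw [length_primesUpTo]
  exact Classical.choose_spec many_primes L

theorem idx_lt {E : List (ℕ × ℕ)} {x : ℕ} (hx : x ∈ verts E) :
    (verts E).idxOf x < (primesUpTo (((verts E).length + 2) ^ KK)).length :=
  (List.idxOf_lt_length_of_mem hx).trans_le (le_length _)

theorem nam_eq {E : List (ℕ × ℕ)} {x : ℕ} (hx : x ∈ verts E) :
    nam E x = (primesUpTo (((verts E).length + 2) ^ KK))[(verts E).idxOf x]'(idx_lt hx) := by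
  unfold nam
  rw [List.getD_eq_getElem _ _ (idx_lt hx)]

theorem nam_GP {E : List (ℕ × ℕ)} {x : ℕ} (hx : x ∈ verts E) : GP (nam E x) := by
  rw [nam_eq hx]
  exact (mem_primesUpTo.1 (List.getElem_mem _)).2

theorem nam_inj {E : List (ℕ × ℕ)} {x y : ℕ} (hx : x ∈ verts E) (hy : y ∈ verts E)
    (h : nam E x = nam E y) : x = y := by
  rw [nam_eq hx, nam_eq hy, (nodup_primesUpTo _).getElem_inj_iff] at h
  exact (List.idxOf_inj hx).1 h

theorem mem_verts {E : List (ℕ × ℕ)} {e : ℕ × ℕ} (he : e ∈ E) : e.1 ∈ verts E ∧ e.2 ∈ verts E := by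
  simp only [verts, List.mem_flatMap]
  exact ⟨⟨e, he, by simp⟩, ⟨e, he, by simp⟩⟩

theorem mem_ddup {l : List (ℕ × ℕ)} {a : ℕ × ℕ} : a ∈ ddup l ↔ a ∈ l := by
  unfold ddup
  induction l with
  | nil => simp
  | cons b l ih =>
    rw [List.foldr_cons]
    split_ifs with h
    · rw [ih, List.mem_cons]
      constructor
      · exact Or.inr
      · rintro (rfl | h1)
        · exact ih.1 h
        · exact h1
    · rw [List.mem_cons, List.mem_cons, ih]

theorem nodup_ddup (l : List (ℕ × ℕ)) : (ddup l).Nodup := by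
  unfold ddup
  induction l with
  | nil => simp
  | cons b l ih =>
    rw [List.foldr_cons]
    split_ifs with h
    · exact ih
    · exact List.nodup_cons.2 ⟨h, ih⟩

theorem mem_redE {E : List (ℕ × ℕ)} {a : ℕ × ℕ} :
    a ∈ redE E ↔ ∃ e ∈ E, ordP (nam E e.1, nam E e.2) = a := by
  unfold redE
  rw [mem_ddup, List.mem_map]

/-! ### Polynomial time -/

theorem poly_idxOf {α : Type} [TEnc α] {l : α → List ℕ} {x : α → ℕ} (hl : NPC.Poly l)
    (hx : NPC.Poly x) : NPC.Poly (fun a => (l a).idxOf (x a)) := by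
  obtain ⟨r, hr⟩ := hl.sz_le
  have key : ∀ (l : List ℕ) (x : ℕ),
      l.foldr (fun b n => if b = x then 0 else n + 1) 0 = l.idxOf x := by
    intro l x
    induction l with
    | nil => rfl
    | cons b l ih =>
      rw [List.foldr_cons, ih, List.idxOf_cons]
      by_cases h : b = x
      · simp [h]
      · have h2 : (b == x) = false := by simpa using h
        rw [if_neg h, h2]
        rfl
  refine (Poly.foldr (s := fun _ => 0) (F := fun a b n => if b = x a then 0 else n + 1) hl
    (NPC.Poly.const 0) ?_ (Polynomial.C 4 * r + Polynomial.C 1) ?_).congr fun a => key _ _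
  · exact Poly.ite (p := fun p : α × ℕ × ℕ => p.2.1 = x p.1)
      (Poly.decide_eq (Poly.fst (Poly.snd Poly.id)) (hx.comp (Poly.fst Poly.id)))
      (NPC.Poly.const 0) (Poly.succ (Poly.snd (Poly.snd Poly.id)))
  · intro a k hk
    rw [key]
    have h1 := sz_nat_le (((l a).drop k).idxOf (x a))
    have h2 := Poly.size_le_self (((l a).drop k).idxOf (x a))
    have h3 := List.idxOf_le_length (l := (l a).drop k) (a := x a)
    have h4 := hr a
    have h5 := length_lt_sz (l a)
    rw [List.length_drop] at h3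
    simp only [Polynomial.eval_add, Polynomial.eval_mul, Polynomial.eval_C]
    omega

theorem sz_ddup_le (l : List (ℕ × ℕ)) : sz (ddup l) ≤ sz l := by
  unfold ddup
  induction l with
  | nil => simp
  | cons b l ih =>
    rw [List.foldr_cons]
    split_ifs with h
    · simp only [sz_list_cons]
      omega
    · simp only [sz_list_cons]
      omega

theorem poly_ddup {α : Type} [TEnc α] {l : α → List (ℕ × ℕ)} (hl : NPC.Poly l) :
    NPC.Poly (fun a => ddup (l a)) := by
  obtain ⟨r, hr⟩ := hl.sz_le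
  refine (Poly.foldr (s := fun _ => ([] : List (ℕ × ℕ)))
    (F := fun _ b l => if b ∈ l then l else b :: l) hl (NPC.Poly.const []) ?_ r ?_)
  · exact Poly.ite (p := fun p : α × (ℕ × ℕ) × List (ℕ × ℕ) => p.2.1 ∈ p.2.2)
      ((Poly.decide_mem (Poly.fst (Poly.snd Poly.id)) (Poly.snd (Poly.snd Poly.id))).congr
        fun _ => decide_eq_decide.2 Iff.rfl)
      (Poly.snd (Poly.snd Poly.id))
      (Poly.cons (Poly.fst (Poly.snd Poly.id)) (Poly.snd (Poly.snd Poly.id)))
  · intro a k hk
    exact (sz_ddup_le _).trans ((Poly.sz_drop_le _ _).trans (hr a))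

theorem poly_verts : NPC.Poly verts :=
  Poly.flatMap (F := fun _ (e : ℕ × ℕ) => [e.1, e.2]) Poly.id
    (Poly.cons (Poly.fst (Poly.snd Poly.id)) (Poly.cons (Poly.snd (Poly.snd Poly.id))
      (NPC.Poly.const [])))

/-- The bound. -/
noncomputable def bd (E : List (ℕ × ℕ)) : ℕ := ((verts E).length + 2) ^ KK

theorem upoly_bd : UPoly bd := by
  have h := UPoly.eval (UPoly.length poly_verts) ((Polynomial.X + Polynomial.C 2) ^ KK)
  refine NPC.Poly.congr h fun E => ?_
  simp [bd]

/-- The test of the primes below the bound. -/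
def tst (B p : ℕ) : Bool :=
  decide (p % 40 = 3) && (decide (43 ≤ p) &&
    (List.range B).all (fun m => !(decide (2 ≤ m) && (decide (m < p) && decide (p % m = 0)))))

theorem tst_eq {B p : ℕ} (hp : p < B) : tst B p = decide (GP p) := by
  rw [Bool.eq_iff_iff, decide_eq_true_iff]
  unfold tst GP
  simp only [Bool.and_eq_true, decide_eq_true_eq, List.all_eq_true, List.mem_range,
    Bool.not_eq_true', Bool.and_eq_false_imp, decide_eq_false_iff_not]
  constructor
  · rintro ⟨h1, h2, h3⟩
    refine ⟨?_, h1, h2⟩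
    rw [Nat.prime_def]
    refine ⟨by omega, fun m hm => ?_⟩
    by_contra hcon
    push Not at hcon
    have hm0 : 0 < m := Nat.pos_of_dvd_of_pos hm (by omega)
    have hmp : m ≤ p := Nat.le_of_dvd (by omega) hm
    have := h3 m (by omega) (by omega) (by omega)
    exact this (Nat.mod_eq_zero_of_dvd hm)
  · rintro ⟨h1, h2, h3⟩
    refine ⟨h2, h3, fun m _ hm2 hmp h0 => ?_⟩
    have hd := Nat.dvd_of_mod_eq_zero h0
    rcases (Nat.dvd_prime h1).1 hd with h | h
    · omega
    · omega

theorem poly_primes : NPC.Poly (fun E => primesUpTo (bd E)) := by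
  have h : NPC.Poly (fun E => (List.range (bd E)).filter (fun p => tst (bd E) p)) := by
    refine Poly.filter (p := fun E p => tst (bd E) p) upoly_bd.range ?_
    unfold tst
    refine Poly.and (Poly.decide_eq (Poly.mod (Poly.snd Poly.id) (NPC.Poly.const 40))
      (NPC.Poly.const 3)) (Poly.and (Poly.decide_le (NPC.Poly.const 43) (Poly.snd Poly.id)) ?_)
    refine Poly.all (p := fun (x : List (ℕ × ℕ) × ℕ) (m : ℕ) =>
      !(decide (2 ≤ m) && (decide (m < x.2) && decide (x.2 % m = 0))))
      (upoly_bd.range.comp (Poly.fst Poly.id)) ?_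
    refine Poly.not (Poly.and (Poly.decide_le (NPC.Poly.const 2) (Poly.snd Poly.id))
      (Poly.and (Poly.decide_lt (Poly.snd Poly.id) (Poly.snd (Poly.fst Poly.id)))
        (Poly.decide_eq (Poly.mod (Poly.snd (Poly.fst Poly.id)) (Poly.snd Poly.id))
          (NPC.Poly.const 0))))
  refine h.congr fun E => ?_
  unfold primesUpTo
  refine List.filter_congr fun p hp => ?_
  exact tst_eq (List.mem_range.1 hp)

theorem poly_nam {α : Type} [TEnc α] {E : α → List (ℕ × ℕ)} {x : α → ℕ} (hE : NPC.Poly E)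
    (hx : NPC.Poly x) : NPC.Poly (fun a => nam (E a) (x a)) :=
  Poly.getD (poly_primes.comp hE) (poly_idxOf (poly_verts.comp hE) hx) (NPC.Poly.const 0)

end RedAux

open RedAux

theorem redE_good {E : List (ℕ × ℕ)} (h : H692R2.Loopless E) : GoodE (redE E) := by
  have h1 : ∀ e ∈ redE E, GP e.1 ∧ GP e.2 ∧ e.1 < e.2 := by
    intro a ha
    obtain ⟨e, he, rfl⟩ := mem_redE.1 ha
    obtain ⟨hv1, hv2⟩ := mem_verts he
    have hne : nam E e.1 ≠ nam E e.2 := fun hc => h e he (nam_inj hv1 hv2 hc)
    unfold ordP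
    simp only
    split_ifs with hlt
    · exact ⟨nam_GP hv1, nam_GP hv2, hlt⟩
    · exact ⟨nam_GP hv2, nam_GP hv1, by simp only; omega⟩
  exact ⟨nodup_ddup _, fun e he => (h1 e he).1, fun e he => (h1 e he).2.1,
    fun e he => (h1 e he).2.2⟩

theorem redE_col {E : List (ℕ × ℕ)} (_h : H692R2.Loopless E) :
    H692R2.Col 3 E ↔ Col3 (redE E) := by
  classical
  constructor
  · rintro ⟨c, hc⟩
    let c' : ℕ → Fin 3 := fun p =>
      if hx : ∃ x ∈ verts E, nam E x = p then c (Classical.choose hx) else 0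
    have hc' : ∀ x ∈ verts E, c' (nam E x) = c x := by
      intro x hx
      have h1 : ∃ y ∈ verts E, nam E y = nam E x := ⟨x, hx, rfl⟩
      simp only [c']
      rw [dif_pos h1]
      have h2 := Classical.choose_spec h1
      rw [nam_inj h2.1 hx h2.2]
    refine ⟨c', fun a ha => ?_⟩
    obtain ⟨e, he, rfl⟩ := mem_redE.1 ha
    obtain ⟨hv1, hv2⟩ := mem_verts he
    unfold ordP
    simp only
    split_ifs with hlt
    · simp only
      rw [hc' _ hv1, hc' _ hv2]
      exact hc e he
    · simp only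
      rw [hc' _ hv1, hc' _ hv2]
      exact (hc e he).symm
  · rintro ⟨c, hc⟩
    refine ⟨fun x => c (nam E x), fun e he => ?_⟩
    have h1 := hc _ (mem_redE.2 ⟨e, he, rfl⟩)
    unfold ordP at h1
    simp only at h1
    split_ifs at h1 with hlt
    · exact h1
    · exact h1.symm

theorem poly_redE : Poly redE := by
  unfold redE
  refine poly_ddup (NPC.Poly.map (F := fun (E : List (ℕ × ℕ)) (e : ℕ × ℕ) =>
    ordP (nam E e.1, nam E e.2)) Poly.id ?_)
  have h1 : NPC.Poly (fun p : List (ℕ × ℕ) × (ℕ × ℕ) => nam p.1 p.2.1) :=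
    poly_nam (Poly.fst Poly.id) (Poly.fst (Poly.snd Poly.id))
  have h2 : NPC.Poly (fun p : List (ℕ × ℕ) × (ℕ × ℕ) => nam p.1 p.2.2) :=
    poly_nam (Poly.fst Poly.id) (Poly.snd (Poly.snd Poly.id))
  unfold ordP
  exact Poly.ite (p := fun p : List (ℕ × ℕ) × (ℕ × ℕ) => nam p.1 p.2.1 < nam p.1 p.2.2)
    (Poly.decide_lt h1 h2) (Poly.pair h1 h2) (Poly.pair h2 h1)

end Pool.Agent.H528R3.FD
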