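import Pool.Agent.H528R3.FD.Local
import Pool.Agent.H528R3.FD.Red
import Pool.Agent.H528R3.FD.PolyZZ
import Pool.Agent.H528R3.FD.PolyF

/-!
# S12: assembly
-/

set_option autoImplicit false

namespace Pool.Agent.H528R3.FD

open Pool.Agent.H528R2 Pool.Agent.NPC

theorem NN_ne {es : List (ℕ × ℕ)} (hes : GoodE es) : ((NN es : ℕ) : ℚ) ≠ 0 := by
  have := NN_mod hes
  have h : NN es ≠ 0 := by rintro h; rw [h] at this; simp at this
  exact_mod_cast h

theorem odd_rk {e : ℕ × ℕ} (h1 : GP e.1) (h2 : GP e.2) {t : ℕ} (h : rk t = e.1 * e.2) :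
    Odd (rk t) := by
  rw [h, Nat.odd_mul, Nat.odd_iff, Nat.odd_iff]
  have := h1.2.1
  have := h2.2.1
  omega

/-- the prime attached to an edge -/
theorem edge_prime {es : List (ℕ × ℕ)} (hes : GoodE es) {e : ℕ × ℕ} (he : e ∈ es) :
    ∃ t : ℕ, Inert t ∧ 17 ≤ t ∧ t ∣ Ne e ∧ rk t = e.1 * e.2 ∧ Odd (padicValNat t (NN es)) := by
  obtain ⟨t, ht, hd, hr, ho⟩ := Ne_exists (hes.gp1 e he) (hes.gp2 e he) (hes.lt e he)
  have h17 := large_of_rk (hes.gp1 e he) (hes.gp2 e he) (hes.lt e he) ht hr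
  refine ⟨t, ht, h17, hd, hr, ?_⟩
  rw [val_NN_large hes ht h17, val_PP hes he ht.1 hd]
  exact ho

theorem T_of_eq {es : List (ℕ × ℕ)} (hes : GoodE es) {t : ℕ} (ht : Inert t)
    (hodd : Odd (padicValNat t (NN es))) {F a b w : ℚ}
    (h : a ^ 2 - 2 * b ^ 2 + 2 * ((NN es : ℕ) : ℚ) * w ^ 2 =
      ((NN es : ℕ) : ℚ) ^ 2 + ((NN es : ℕ) : ℚ) * F ^ 2) : T ((NN es : ℕ) : ℚ) F := by
  have hN := NN_ne hes
  refine ⟨w, ?_, a, b, by linarith⟩
  intro h0
  have h1 : ((NN es : ℕ) : ℚ) = -(F ^ 2 - 2 * w ^ 2) := by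
    have := (mul_eq_zero.1 h0).resolve_left hN
    linarith
  have h2 : IsN (F ^ 2 - 2 * w ^ 2) := by
    refine ⟨?_, F, w, rfl⟩
    intro h3
    rw [h3, neg_zero] at h1
    exact hN h1
  have h3 := h2.neg.even_val ht
  rw [← h1, padicValRat.of_nat] at h3
  have h4 : Even (padicValNat t (NN es)) := by exact_mod_cast h3
  exact (Nat.not_even_iff_odd.2 hodd) h4

theorem solv_sound {es : List (ℕ × ℕ)} (hes : GoodE es) (h : Solv (NN es) (FF es)) :
    Col3 es := by
  obtain ⟨x, y, a, b, w, hxy, heq⟩ := h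
  rw [← evalL_eq_sum _ (length_FF es)] at heq
  push_cast at heq
  by_cases hnil : es = []
  · subst hnil
    exact ⟨fun _ => 0, by simp⟩
  have step : ∀ e ∈ es, ∃ t : ℕ, Inert t ∧ 17 ≤ t ∧ rk t = e.1 * e.2 ∧
      ∃ c ∈ cls e, Vge t 1 (x - zz (c : ℤ)) ∧ ¬ (rk t : ℤ) ∣ (c : ℤ) := by
    intro e he
    obtain ⟨t, ht, h17, hd, hr, ho⟩ := edge_prime hes he
    have hT := T_of_eq hes ht ho heq
    have hs := ti_sound hT ht (by rw [padicValRat.of_nat]; exact_mod_cast ho)
    rw [padicValRat.of_nat] at hs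
    have hv : Vge t 1 (evalL (FF es) x) := by
      rcases hs with hs | hs
      · exact Or.inl hs
      · right
        obtain ⟨k, hk⟩ := ho
        omega
    obtain ⟨c, hc, hcv⟩ := F_sound hes he ht hd hv
    exact ⟨t, ht, h17, hr, c, hc, hcv, (cls_int hes he ht.1 hd hc).1⟩
  have hx : x ≠ 0 := by
    rintro rfl
    obtain ⟨e, he⟩ := List.exists_mem_of_ne_nil es hnil
    obtain ⟨t, ht, h17, hr, c, hc, hcv, hcd⟩ := step e he
    have hz := (val_zero ht h17 (odd_rk (hes.gp1 e he) (hes.gp2 e he) hr) hcd).1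
    have hc0 : (c : ℤ) ≠ 0 := by
      rintro h0
      rw [h0] at hcd
      exact hcd (dvd_zero _)
    have := hcv.le (by
      rw [zero_sub]
      exact neg_ne_zero.2 (zz_pos hc0).ne')
    rw [zero_sub, padicValRat.neg, hz] at this
    norm_num at this
  obtain ⟨M, hM0, hM⟩ := double_point hx hxy
  refine ⟨colOf M, fun e he => ?_⟩
  obtain ⟨t, ht, h17, hr, c, hc, hcv, hcd⟩ := step e he
  have h1 := double_close ht h17 (odd_rk (hes.gp1 e he) (hes.gp2 e he) hr) hx hxy hM0 hM hcd hcv
  rw [hr] at h1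
  exact cls_sound (hes.gp1 e he) (hes.gp2 e he) (hes.lt e he) hc h1

theorem vge_two_sixty : Vge 2 2 (60 : ℚ) := by
  have h := vge_nat_of_dvd Nat.prime_two (m := 4) (n := 60) (by norm_num) (by norm_num)
  have h4 : padicValNat 2 4 = 2 := by
    rw [show (4 : ℕ) = 2 ^ 2 by norm_num]
    exact padicValNat.prime_pow 2
  rw [h4] at h
  exact_mod_cast h

theorem vge_sixty {q : ℕ} (hq : q.Prime) (h : q ∣ 60) : Vge q 1 (60 : ℚ) := by
  have := Fact.mk hq
  have h := vge_nat_of_dvd hq (m := q) (n := 60) hq.ne_zero h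
  rw [padicValNat_self] at h
  exact_mod_cast h

theorem solv_complete {es : List (ℕ × ℕ)} (hes : GoodE es) (h : Col3 es) :
    Solv (NN es) (FF es) := by
  obtain ⟨c, hc⟩ := h
  obtain ⟨M, hModd, hM⟩ := cls_complete hes c hc
  have hM0 : M ≠ 0 := by rintro rfl; simp at hModd
  have hpt := pt_eq (smul_P0_ne hM0)
  have h2 : Vge 2 2 (evalL (FF es) (zz M)) := by
    rw [evalL_FF]
    have := Vge.mul Nat.prime_two vge_two_sixty
      (evalL_int Nat.prime_two (SS es) (int_odd (Or.inl rfl) hModd))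
    simpa using this
  have hT : T ((NN es : ℕ) : ℚ) (evalL (FF es) (zz M)) := by
    refine T_complete (NN_mod hes) h2 ?_
    intro q hq hodd
    rcases NN_cases hes hq hodd with ⟨e, he, hqe⟩ | ⟨h35, hv⟩
    · rcases F_complete hes hM he hq hqe with h0 | h0
      · exact Or.inl h0
      · right
        obtain ⟨k, hk⟩ := hodd
        omega
    · have h60 : Vge q 1 (60 : ℚ) := by
        apply vge_sixty hq.1
        rcases h35 with rfl | rfl <;> norm_num
      have h0 : Vge q 1 (evalL (FF es) (zz M)) := by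
        rw [evalL_FF]
        have := Vge.mul hq.1 h60 (evalL_int hq.1 (SS es) (int_odd (Or.inr h35) hModd))
        simpa using this
      rcases h0 with h0 | h0
      · exact Or.inl h0
      · right
        rw [hv]
        push_cast
        omega
  obtain ⟨w, _, a, b, hab⟩ := hT
  refine ⟨zz M, yy M, a, b, w, hpt, ?_⟩
  rw [← evalL_eq_sum _ (length_FF es)]
  push_cast
  linarith

theorem solv_iff {es : List (ℕ × ℕ)} (hes : GoodE es) : Solv (NN es) (FF es) ↔ Col3 es :=
  ⟨solv_sound hes, solv_complete hes⟩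

/-! ### the size of the primes -/

theorem nam_lt (E : List (ℕ × ℕ)) (x : ℕ) : nam E x < ((verts E).length + 2) ^ KK := by
  unfold nam
  set B := ((verts E).length + 2) ^ KK
  by_cases h : (verts E).idxOf x < (primesUpTo B).length
  · rw [List.getD_eq_getElem _ _ h]
    have h1 : (primesUpTo B)[(verts E).idxOf x] ∈ primesUpTo B := List.getElem_mem h
    have h2 : (primesUpTo B)[(verts E).idxOf x] ∈ List.range B := List.mem_of_mem_filter h1
    exact List.mem_range.1 h2
  · rw [List.getD_eq_default _ _ (by omega)]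
    positivity

theorem ddup_length (l : List (ℕ × ℕ)) : (ddup l).length ≤ l.length := by
  induction l with
  | nil => simp [ddup]
  | cons a l ih =>
    have : ddup (a :: l) = if a ∈ ddup l then ddup l else a :: ddup l := rfl
    rw [this]
    split_ifs
    · simp only [List.length_cons]; omega
    · simp only [List.length_cons]; omega

theorem ddup_mem (l : List (ℕ × ℕ)) {e : ℕ × ℕ} (he : e ∈ ddup l) : e ∈ l := by
  induction l with
  | nil => simp [ddup] at he
  | cons a l ih =>
    have : ddup (a :: l) = if a ∈ ddup l then ddup l else a :: ddup l := rfl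
    rw [this] at he
    split_ifs at he
    · exact List.mem_cons_of_mem _ (ih he)
    · rcases List.mem_cons.1 he with h | h
      · rw [h]; exact List.mem_cons_self
      · exact List.mem_cons_of_mem _ (ih h)

theorem sum_le (E : List (ℕ × ℕ)) :
    ((redE E).map (fun e => e.1 + e.2)).sum ≤
      E.length * (((verts E).length + 2) ^ KK + ((verts E).length + 2) ^ KK) := by
  have h1 : ∀ x ∈ (redE E).map (fun e => e.1 + e.2),
      x ≤ ((verts E).length + 2) ^ KK + ((verts E).length + 2) ^ KK := by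
    intro x hx
    obtain ⟨e, he, rfl⟩ := List.mem_map.1 hx
    obtain ⟨e', _, rfl⟩ := List.mem_map.1 (ddup_mem _ he)
    have a1 := nam_lt E e'.1
    have a2 := nam_lt E e'.2
    unfold ordP
    split_ifs <;> simp only <;> omega
  refine (List.sum_le_card_nsmul _ _ h1).trans ?_
  rw [List.length_map, smul_eq_mul]
  refine Nat.mul_le_mul_right _ ?_
  exact (ddup_length _).trans (by simp)

theorem upoly_sum :
    Poly (fun E : List (ℕ × ℕ) => List.replicate ((redE E).map (fun e => e.1 + e.2)).sum ()) := by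
  have hE : UPoly (fun E : List (ℕ × ℕ) => E.length) := UPoly.length Poly.id
  have hV : UPoly (fun E : List (ℕ × ℕ) => (verts E).length + 2) := by
    refine UPoly.add (UPoly.length ?_) (UPoly.const 2)
    unfold verts
    refine Poly.flatMap Poly.id ?_
    exact Poly.cons (Poly.fst (Poly.snd Poly.id))
      (Poly.cons (Poly.snd (Poly.snd Poly.id)) (NPC.Poly.const []))
  have hB : UPoly (fun E : List (ℕ × ℕ) => ((verts E).length + 2) ^ KK) := by
    have := hV.eval (Polynomial.X ^ KK)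
    simpa using this
  refine UPoly.of_le ?_ (UPoly.mul hE (UPoly.add hB hB)) sum_le
  refine Poly.sum (NPC.Poly.map poly_redE ?_)
  exact Poly.add (Poly.fst (Poly.snd Poly.id)) (Poly.snd (Poly.snd Poly.id))

theorem main : NPHardP (fun p : ℤ × List ℤ => p.2.length = 9 ∧ Solv p.1 p.2) := by
  have h := H692R2.hardPr_col3.trans (Pr' := fun _ => True)
    (Q := fun p : ℤ × List ℤ => p.2.length = 9 ∧ Solv p.1 p.2)
    (poly_NN_FF_of poly_zz poly_redE upoly_sum) (fun _ _ => trivial) (fun E hE => ?_)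
  · exact h.toHardI.toNPHardP
  · rw [redE_col hE, ← solv_iff (redE_good hE)]
    exact ⟨fun h => ⟨length_FF _, h⟩, fun h => h.2⟩

end Pool.Agent.H528R3.FD
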