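import Pool.Agent.H528R3.FD.Defs
import Pool.Agent.H528R2.LOne
import Pool.Agent.H528R2.TestIff
import Pool.Agent.H528R2.Val
import Pool.Agent.H528R2.Recip

/-!
# Completeness of the test `T` for `N ≡ 1 (mod 8)`
-/

set_option autoImplicit false

namespace Pool.Agent.H528R3.FD

open Pool.Agent.H528R2

open NumberTheorySymbols in
/-- the symbol computation, second case -/
lemma jacobi_calc7 {a r l : ℕ} (ha : a % 8 = 7) (hr : r % 8 = 7) (har : a.Coprime r)
    (hl8 : l % 8 = 1) (hla : (l : ℤ) % a = (r : ℤ) % a)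
    (hlr : (l : ℤ) % r = (-2 * a : ℤ) % r) :
    J(((2 * a * r : ℕ) : ℤ) | l) = 1 := by
  have hao : Odd a := by rw [Nat.odd_iff]; omega
  have hro : Odd r := by rw [Nat.odd_iff]; omega
  have hlo : Odd l := by rw [Nat.odd_iff]; omega
  have e1 : J((l : ℤ) | a) = J((r : ℤ) | a) := jacobiSym.mod_left' hla
  have e2 : J((l : ℤ) | r) = J((-2 * a : ℤ) | r) := jacobiSym.mod_left' hlr
  have e3 : J((a * r : ℤ) | l) = J((l : ℤ) | (a * r)) := by
    have := jacobiSym.quadratic_reciprocity_one_mod_four (a := l) (b := a * r) (by omega)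
      (hao.mul hro)
    rw [this]; push_cast; rfl
  have e4 : J((2 : ℤ) | l) = 1 := by
    rw [jacobiSym.at_two hlo]
    rw [ZMod.χ₈_nat_mod_eight, hl8]
    decide
  have e5 : J((2 : ℤ) | r) = 1 := by
    rw [jacobiSym.at_two hro]
    rw [ZMod.χ₈_nat_mod_eight, hr]
    decide
  have e6 : J((-1 : ℤ) | r) = -1 := by
    rw [jacobiSym.at_neg_one hro]
    rw [ZMod.χ₄_nat_three_mod_four (by omega)]
  have e7 : J((r : ℤ) | a) = - J((a : ℤ) | r) :=
    jacobiSym.quadratic_reciprocity_three_mod_four (a := r) (b := a) (by omega) (by omega)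
  have e8 : J((r : ℤ) | a) * J((r : ℤ) | a) = 1 := by
    have := jacobiSym.sq_one (a := (r : ℤ)) (b := a) (by
      rw [Int.gcd_natCast_natCast]; exact har.symm)
    rw [← this]; ring
  have e9 : J((-2 * a : ℤ) | r) = - J((a : ℤ) | r) := by
    rw [show (-2 * a : ℤ) = -1 * (2 * a) by ring, jacobiSym.mul_left, jacobiSym.mul_left, e6, e5]
    ring
  calc J(((2 * a * r : ℕ) : ℤ) | l) = J((2 : ℤ) | l) * J((a * r : ℤ) | l) := by
        rw [← jacobiSym.mul_left]; congr 1; push_cast; ring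
    _ = J((l : ℤ) | (a * r)) := by rw [e4, e3, one_mul]
    _ = J((l : ℤ) | a) * J((l : ℤ) | r) := by
        have : NeZero a := ⟨by rintro rfl; simp at hao⟩
        have : NeZero r := ⟨by rintro rfl; simp at hro⟩
        rw [jacobiSym.mul_right]
    _ = 1 := by rw [e1, e2, e9, ← e7, e8]

lemma exists_l' {a r : ℕ} (ha : a ≠ 0) (hao : Odd a) (hro : Odd r) (har : a.Coprime r) :
    ∃ l : ℕ, l.Prime ∧ a < l ∧ r < l ∧ l % 8 = 1 ∧ (l : ℤ) % a = (r : ℤ) % a ∧
      (l : ℤ) % r = (-2 * a : ℤ) % r := by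
  have hr0 : r ≠ 0 := by rintro rfl; simp at hro
  have h8 : Nat.Coprime 8 (a * r) := by
    rw [show (8 : ℕ) = 2 ^ 3 by norm_num]
    apply Nat.Coprime.pow_left
    rw [Nat.coprime_two_left]
    exact hao.mul hro
  -- a natural number congruent to -2a mod r
  obtain ⟨r', rfl⟩ : ∃ r', r = r' + 1 := ⟨r - 1, by omega⟩
  set c : ℕ := 2 * a * r' with hc
  have hcr : (c : ℤ) ≡ (-2 * a : ℤ) [ZMOD ((r' + 1 : ℕ) : ℤ)] := by
    rw [Int.modEq_iff_dvd]
    refine ⟨-(2 * a), ?_⟩
    rw [hc]; push_cast; ring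
  have hcc : Nat.Coprime c (r' + 1) := by
    rw [hc]
    apply Nat.Coprime.mul_left
    · apply Nat.Coprime.mul_left
      · rw [Nat.coprime_two_left]; exact hro
      · exact har
    · simp
  obtain ⟨x, hx1, hx2⟩ := Nat.chineseRemainder har (r' + 1) c
  obtain ⟨y, hy1, hy2⟩ := Nat.chineseRemainder h8 1 x
  have hya : y ≡ (r' + 1) [MOD a] := (hy2.of_mul_right (r' + 1)).trans hx1
  have hyr : y ≡ c [MOD (r' + 1)] := (hy2.of_mul_left a).trans hx2
  have : NeZero (8 * (a * (r' + 1))) := ⟨by positivity⟩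
  have hcop : Nat.Coprime y (8 * (a * (r' + 1))) := by
    apply Nat.Coprime.mul_right
    · rw [Nat.coprime_iff_gcd_eq_one, hy1.gcd_eq]; rfl
    · apply Nat.Coprime.mul_right
      · rw [Nat.coprime_iff_gcd_eq_one, hya.gcd_eq]; exact har.symm
      · rw [Nat.coprime_iff_gcd_eq_one, hyr.gcd_eq]; exact hcc
  have hu : IsUnit ((y : ℕ) : ZMod (8 * (a * (r' + 1)))) := by
    rw [ZMod.isUnit_iff_coprime]; exact hcop
  obtain ⟨l, hl1, hl2, hl3⟩ := Nat.forall_exists_prime_gt_and_eq_mod hu (a + (r' + 1))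
  have hl4 : l ≡ y [MOD (8 * (a * (r' + 1)))] := (ZMod.natCast_eq_natCast_iff _ _ _).1 hl3
  refine ⟨l, hl2, by omega, by omega, ?_, ?_, ?_⟩
  · have : l ≡ 1 [MOD 8] := (hl4.of_mul_right (a * (r' + 1))).trans hy1
    exact this
  · have : l ≡ (r' + 1) [MOD a] := ((hl4.of_mul_left 8).of_mul_right (r' + 1)).trans hya
    have := (Int.natCast_modEq_iff).2 this
    exact this
  · have : l ≡ c [MOD (r' + 1)] := ((hl4.of_mul_left 8).of_mul_left a).trans hyr
    exact ((Int.natCast_modEq_iff).2 this).trans hcr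

theorem exists_repr7 {a r : ℕ} (ha : Squarefree a) (ha8 : a % 8 = 7) (hr : r % 8 = 7)
    (har : a.Coprime r) : ∃ w : ℚ, IsN (r - 2 * a * w ^ 2) := by
  have hao : Odd a := by rw [Nat.odd_iff]; omega
  obtain ⟨r0, k, hk, hr0⟩ := Nat.sq_mul_squarefree r
  have hro : Odd r := by rw [Nat.odd_iff]; omega
  have hko : Odd k := by
    rw [← hk] at hro
    by_contra hne
    rw [Nat.not_odd_iff_even] at hne
    have h1 := (Nat.odd_mul.1 hro).1
    rw [← Nat.not_even_iff_odd] at h1
    exact h1 (hne.pow_of_ne_zero (by norm_num))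
  have hr0o : Odd r0 := by
    rw [← hk] at hro
    exact (Nat.odd_mul.1 hro).2
  have hk8 : k ^ 2 % 8 = 1 := by
    obtain ⟨m, rfl⟩ := hko
    have : (2 * m + 1) ^ 2 = 4 * (m * (m + 1)) + 1 := by ring
    rw [this]
    obtain ⟨t, ht⟩ := Nat.even_mul_succ_self m
    omega
  have hr08 : r0 % 8 = 7 := by
    have : (k ^ 2 * r0) % 8 = 7 := by rw [hk]; exact hr
    rw [Nat.mul_mod, hk8] at this
    omega
  have har0 : a.Coprime r0 := by
    rw [← hk] at har
    exact (Nat.coprime_mul_iff_right.1 har).2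
  have ha0 : a ≠ 0 := ha.ne_zero
  obtain ⟨l, hl, hal, hrl, hl8, hla, hlr⟩ := exists_l' ha0 hao hr0o har0
  have : Fact l.Prime := ⟨hl⟩
  have hlo : Odd l := by rw [Nat.odd_iff]; omega
  have hlr' : (l : ℤ) ≡ -2 * a [ZMOD r0] := hlr
  have hla' : (l : ℤ) ≡ r0 [ZMOD a] := hla
  have hc1 : a.Coprime l := by
    rw [Nat.coprime_comm]
    exact (Nat.Prime.coprime_iff_not_dvd hl).2 (Nat.not_dvd_of_pos_of_lt (Nat.pos_of_ne_zero ha0) hal)
  have hc2 : r0.Coprime l := by
    rw [Nat.coprime_comm]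
    exact (Nat.Prime.coprime_iff_not_dvd hl).2
      (Nat.not_dvd_of_pos_of_lt (Nat.pos_of_ne_zero hr0.ne_zero) hrl)
  obtain ⟨x, y, z, hne, hxyz⟩ := legendre_special (r := r0) (a := a) (l := l) hr0 ha hl hr0o hao hlo
    har0.symm hc2 hc1
    (by
      intro p hp hpr
      have h : (l : ℤ) ≡ -2 * a [ZMOD p] := hlr'.of_dvd (by exact_mod_cast hpr)
      have h' : ((l : ℤ) : ZMod p) = ((-2 * a : ℤ) : ZMod p) := (ZMod.intCast_eq_intCast_iff _ _ _).2 h
      push_cast at h'
      refine ⟨2 * a, ?_⟩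
      rw [h']; ring)
    (by
      intro p hp hpa
      have h : (l : ℤ) ≡ r0 [ZMOD p] := hla'.of_dvd (by exact_mod_cast hpa)
      have h' : ((l : ℤ) : ZMod p) = ((r0 : ℤ) : ZMod p) := (ZMod.intCast_eq_intCast_iff _ _ _).2 h
      push_cast at h'
      refine ⟨r0, ?_⟩
      push_cast
      rw [h'])
    (by
      have h := jacobi_calc7 ha8 hr08 har0 hl8 hla hlr
      rw [← jacobiSym.legendreSym.to_jacobiSym] at h
      have h0 : ((((2 * a * r0 : ℕ) : ℤ)) : ZMod l) ≠ 0 := by
        intro h0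
        rw [(legendreSym.eq_zero_iff l _).2 h0] at h
        exact zero_ne_one h
      have h2 := (legendreSym.eq_one_iff l h0).1 h
      exact_mod_cast h2)
  have hxz : x ≠ 0 := by
    rintro rfl
    apply hne
    have h0 : (2 * a * y ^ 2 + l * z ^ 2 : ℤ) = 0 := by rw [← hxyz]; ring
    have h1 : (0 : ℤ) < a := by exact_mod_cast Nat.pos_of_ne_zero ha0
    have h2 : (0 : ℤ) < l := by exact_mod_cast hl.pos
    have h3 : (0 : ℤ) ≤ 2 * a * y ^ 2 := by positivity
    have h4 : (0 : ℤ) ≤ l * z ^ 2 := by positivity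
    have h5 : (2 * a * y ^ 2 : ℤ) = 0 := by linarith
    have h6 : (l * z ^ 2 : ℤ) = 0 := by linarith
    have h7 : y = 0 := by
      rcases mul_eq_zero.1 h5 with h | h
      · exfalso; linarith
      · exact pow_eq_zero_iff (by norm_num) |>.1 h
    have h8 : z = 0 := by
      rcases mul_eq_zero.1 h6 with h | h
      · exfalso; linarith
      · exact pow_eq_zero_iff (by norm_num) |>.1 h
    rw [h7, h8]
  have hz : z ≠ 0 := by
    rintro rfl
    have h0 : (r0 * x ^ 2 : ℤ) = 2 * a * y ^ 2 := by rw [hxyz]; ring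
    have hy : y ≠ 0 := by
      rintro rfl
      have : (r0 * x ^ 2 : ℤ) = 0 := by rw [h0]; ring
      rcases mul_eq_zero.1 this with h | h
      · exact hr0.ne_zero (by exact_mod_cast h)
      · exact hxz (pow_eq_zero_iff (by norm_num) |>.1 h)
    have : Fact (Nat.Prime 2) := ⟨Nat.prime_two⟩
    have h1 := congrArg (padicValInt 2) h0
    have hr0' : (r0 : ℤ) ≠ 0 := by exact_mod_cast hr0.ne_zero
    have ha0' : (a : ℤ) ≠ 0 := by exact_mod_cast ha0
    rw [padicValInt.mul hr0' (pow_ne_zero _ hxz), padicValInt.mul (mul_ne_zero two_ne_zero ha0')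
      (pow_ne_zero _ hy), padicValInt.mul two_ne_zero ha0'] at h1
    rw [pow_two, pow_two, padicValInt.mul hxz hxz, padicValInt.mul hy hy] at h1
    have h2 : padicValInt 2 (r0 : ℤ) = 0 := by
      rw [padicValInt.of_nat]
      exact padicValNat.eq_zero_of_not_dvd (by intro h; rw [Nat.odd_iff] at hr0o; omega)
    have h3 : padicValInt 2 (a : ℤ) = 0 := by
      rw [padicValInt.of_nat]
      exact padicValNat.eq_zero_of_not_dvd (by intro h; rw [Nat.odd_iff] at hao; omega)
    have h4 : padicValInt 2 (2 : ℤ) = 1 := by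
      rw [show (2 : ℤ) = ((2 : ℕ) : ℤ) by norm_num, padicValInt.of_nat]
      exact padicValNat.self (by norm_num)
    omega
  have hk0 : k ≠ 0 := by rintro rfl; simp at hko
  refine ⟨k * y / x, ?_⟩
  have hxq : (x : ℚ) ≠ 0 := by exact_mod_cast hxz
  have hzq : (z : ℚ) ≠ 0 := by exact_mod_cast hz
  have hkq : (k : ℚ) ≠ 0 := by exact_mod_cast hk0
  have key : ((r : ℚ) - 2 * a * (k * y / x) ^ 2) = l * (k * z / x) ^ 2 := by
    have h1 : (r0 * x ^ 2 : ℚ) = 2 * a * y ^ 2 + l * z ^ 2 := by exact_mod_cast hxyz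
    have h2 : (r : ℚ) = k ^ 2 * r0 := by exact_mod_cast hk.symm
    rw [h2]
    field_simp
    linear_combination h1
  rw [key]
  exact (isN_prime hl (Or.inr (Or.inl hl8))).mul (IsN.sq (by positivity))

/-- both cases -/
theorem exists_repr' {a r : ℕ} (ha : Squarefree a) (hr : r % 8 = a % 8)
    (ha8 : a % 8 = 1 ∨ a % 8 = 7) (har : a.Coprime r) : ∃ w : ℚ, IsN (r - 2 * a * w ^ 2) := by
  rcases ha8 with h | h
  · exact exists_repr ha (by rw [Nat.odd_iff]; omega) (by omega) har
  · exact exists_repr7 ha h (by omega) har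

/-- an odd number all of whose inert primes have even valuation is `≡ ±1 (mod 8)` -/
theorem mod_eight_of_even {n : ℕ} (hn : Odd n) (h : ∀ q, Inert q → Even (padicValNat q n)) :
    n % 8 = 1 ∨ n % 8 = 7 := by
  have h0 : n ≠ 0 := by rintro rfl; simp at hn
  have hr := recip (x := (n : ℚ)) (e := 0) (a := (n : ℤ)) (b := 1) (by exact_mod_cast hn)
    (by decide) (by simp)
  have hl : (∑ᶠ s : {s : ℕ // Inert s}, ((padicValRat s (n : ℚ) : ℤ) : ZMod 2)) = 0 := by
    rw [finsum_congr (g := fun _ => 0), finsum_zero]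
    intro s
    rw [padicValRat.of_nat]
    have := h s.1 s.2
    have h2 : ((padicValNat s.1 n : ℕ) : ZMod 2) = 0 := (ZMod.natCast_eq_zero_iff_even).2 this
    exact_mod_cast h2
  rw [hl] at hr
  by_contra hcon
  rw [if_neg (by
    intro h1
    apply hcon
    rw [mul_one] at h1
    omega)] at hr
  exact zero_ne_one hr

theorem val_prod_pow (S : Finset ℕ) (hS : ∀ q ∈ S, q.Prime) (f : ℕ → ℕ) {p : ℕ} (hp : p.Prime) :
    padicValNat p (∏ q ∈ S, q ^ f q) = if p ∈ S then f p else 0 := by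
  classical
  have := Fact.mk hp
  induction S using Finset.induction_on with
  | empty => simp
  | insert q S hq ih =>
    have hq' := hS q (Finset.mem_insert_self q S)
    have ih := ih (fun r hr => hS r (Finset.mem_insert_of_mem hr))
    have h0 : (∏ r ∈ S, r ^ f r) ≠ 0 := by
      rw [Finset.prod_ne_zero_iff]
      intro r hr
      exact pow_ne_zero _ (hS r (Finset.mem_insert_of_mem hr)).ne_zero
    rw [Finset.prod_insert hq, padicValNat.mul (pow_ne_zero _ hq'.ne_zero) h0, ih,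
      padicValNat.pow]
    by_cases hpq : p = q
    · subst hpq
      rw [padicValNat.self hp.one_lt, if_neg hq, if_pos (Finset.mem_insert_self _ _)]
      ring
    · have := Fact.mk hq'
      rw [padicValNat_primes hpq]
      by_cases hpS : p ∈ S
      · rw [if_pos hpS, if_pos (Finset.mem_insert_of_mem hpS)]; ring
      · rw [if_neg hpS, if_neg (by rw [Finset.mem_insert]; tauto)]; ring

/-- completeness of `T` for `N ≡ 1 (mod 8)` -/
theorem T_complete {N : ℕ} (hN : N % 8 = 1) {F : ℚ} (h2 : Vge 2 2 F)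
    (h : ∀ q, Inert q → Odd (padicValNat q N) →
      F = 0 ∨ (padicValNat q N : ℤ) < 2 * padicValRat q F) : T N F := by
  classical
  have hN0 : N ≠ 0 := by rintro rfl; simp at hN
  have hNo : Odd N := by rw [Nat.odd_iff]; omega
  set S : Finset ℕ := N.primeFactors.filter (fun q => Inert q ∧ Odd (padicValNat q N)) with hS
  have hSmem : ∀ q, q ∈ S ↔ Inert q ∧ Odd (padicValNat q N) := by
    intro q
    rw [hS, Finset.mem_filter, Nat.mem_primeFactors]
    constructor
    · exact fun h => h.2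
    · intro h
      refine ⟨⟨h.1.1, ?_, hN0⟩, h⟩
      by_contra hd
      rw [padicValNat.eq_zero_of_not_dvd hd] at h
      exact absurd h.2 (by decide)
  have hSp : ∀ q ∈ S, q.Prime := fun q hq => ((hSmem q).1 hq).1.1
  set a : ℕ := ∏ q ∈ S, q with ha
  have ha1 : a = ∏ q ∈ S, q ^ (fun _ => 1 : ℕ → ℕ) q := by simp [ha]
  set s : ℕ := ∏ q ∈ S, q ^ (fun q => (padicValNat q N - 1) / 2) q with hs
  have hva : ∀ p : ℕ, p.Prime → padicValNat p a = if p ∈ S then 1 else 0 := by
    intro p hp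
    rw [ha1, val_prod_pow S hSp _ hp]
  have hvs : ∀ p : ℕ, p.Prime → padicValNat p s =
      if p ∈ S then (padicValNat p N - 1) / 2 else 0 := by
    intro p hp
    rw [hs, val_prod_pow S hSp _ hp]
  have ha0 : a ≠ 0 := by
    rw [ha, Finset.prod_ne_zero_iff]
    exact fun q hq => (hSp q hq).ne_zero
  have hs0 : s ≠ 0 := by
    rw [hs, Finset.prod_ne_zero_iff]
    exact fun q hq => pow_ne_zero _ (hSp q hq).ne_zero
  have hvas : ∀ p : ℕ, p.Prime → padicValNat p (a * s ^ 2) =
      if p ∈ S then padicValNat p N else 0 := by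
    intro p hp
    have := Fact.mk hp
    rw [padicValNat.mul ha0 (pow_ne_zero 2 hs0), padicValNat.pow, hva p hp, hvs p hp]
    split_ifs with hpS
    · have := ((hSmem p).1 hpS).2
      obtain ⟨j, hj⟩ := this
      omega
    · rfl
  have has0 : a * s ^ 2 ≠ 0 := mul_ne_zero ha0 (pow_ne_zero 2 hs0)
  have hdvd : a * s ^ 2 ∣ N := by
    rw [← Nat.factorization_le_iff_dvd has0 hN0]
    intro p
    by_cases hp : p.Prime
    · rw [Nat.factorization_def _ hp, Nat.factorization_def _ hp, hvas p hp]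
      split_ifs
      · exact le_rfl
      · exact Nat.zero_le _
    · rw [Nat.factorization_eq_zero_of_not_prime _ hp]
      exact Nat.zero_le _
  obtain ⟨n', hn'⟩ := hdvd
  have hn'0 : n' ≠ 0 := by rintro rfl; rw [mul_zero] at hn'; exact hN0 hn'
  have hvn' : ∀ p : ℕ, p.Prime → padicValNat p n' = if p ∈ S then 0 else padicValNat p N := by
    intro p hp
    have := Fact.mk hp
    have h1 : padicValNat p N = padicValNat p (a * s ^ 2) + padicValNat p n' := by
      conv_lhs => rw [hn']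
      rw [padicValNat.mul has0 hn'0]
    rw [hvas p hp] at h1
    split_ifs at h1 ⊢ <;> omega
  have hn'o : Odd n' := by
    rw [hn'] at hNo
    exact (Nat.odd_mul.1 hNo).2
  have hao : Odd a := by
    rw [hn'] at hNo
    exact (Nat.odd_mul.1 (Nat.odd_mul.1 hNo).1).1
  have hso : Odd s := by
    rw [hn'] at hNo
    have := (Nat.odd_mul.1 (Nat.odd_mul.1 hNo).1).2
    by_contra hc
    rw [Nat.not_odd_iff_even] at hc
    rw [← Nat.not_even_iff_odd] at this
    exact this (hc.pow_of_ne_zero (by norm_num))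
  have hn'8 := mod_eight_of_even hn'o (by
    intro q hq
    rw [hvn' q hq.1]
    split_ifs with hqS
    · exact Even.zero
    · rw [hSmem, not_and] at hqS
      exact Nat.not_odd_iff_even.1 (hqS hq))
  have sq8 : ∀ k : ℕ, Odd k → k ^ 2 % 8 = 1 := by
    rintro k ⟨m, rfl⟩
    have : (2 * m + 1) ^ 2 = 4 * (m * (m + 1)) + 1 := by ring
    rw [this]
    obtain ⟨t, ht⟩ := Nat.even_mul_succ_self m
    omega
  have ha8 : a % 8 = n' % 8 := by
    have h1 : (a * s ^ 2 * n') % 8 = 1 := by rw [← hn']; exact hN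
    rw [Nat.mul_mod, Nat.mul_mod a, sq8 s hso] at h1
    rcases hn'8 with h8 | h8 <;> rw [h8] at h1 ⊢ <;> omega
  -- the rational number
  have haq : (a : ℚ) ≠ 0 := by exact_mod_cast ha0
  have hsq : (s : ℚ) ≠ 0 := by exact_mod_cast hs0
  set f : ℚ := F / (a * s) with hf
  have hfF : F = a * s * f := by rw [hf]; field_simp
  have hvf : ∀ q ∈ S, Vge q 0 f := by
    intro q hq
    have hq' := (hSmem q).1 hq
    have := Fact.mk hq'.1.1
    rcases h q hq'.1 hq'.2 with h3 | h3
    · left; rw [hf, h3, zero_div]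
    · by_cases hF : F = 0
      · left; rw [hf, hF, zero_div]
      right
      rw [hf, padicValRat.div hF (mul_ne_zero haq hsq), padicValRat.mul haq hsq,
        padicValRat.of_nat, padicValRat.of_nat, hva q hq'.1.1, hvs q hq'.1.1, if_pos hq, if_pos hq]
      obtain ⟨j, hj⟩ := hq'.2
      rw [hj] at h3 ⊢
      push_cast at h3 ⊢
      omega
  have hvf2 : Vge 2 2 f := by
    rcases h2 with h3 | h3
    · left; rw [hf, h3, zero_div]
    · by_cases hF : F = 0
      · left; rw [hf, hF, zero_div]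
      right
      have := Fact.mk Nat.prime_two
      have e1 : padicValNat 2 a = 0 := padicValNat.eq_zero_of_not_dvd (by
        intro hd; rw [Nat.odd_iff] at hao; omega)
      have e2 : padicValNat 2 s = 0 := padicValNat.eq_zero_of_not_dvd (by
        intro hd; rw [Nat.odd_iff] at hso; omega)
      rw [hf, padicValRat.div hF (mul_ne_zero haq hsq), padicValRat.mul haq hsq,
        padicValRat.of_nat, padicValRat.of_nat, e1, e2]
      push_cast
      omega
  -- numerator and denominator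
  have hden : ∀ q : ℕ, q.Prime → Vge q 0 f → ¬ q ∣ f.den := by
    intro q hq hv hd
    have := Fact.mk hq
    have hnum : ¬ (q : ℤ) ∣ f.num := by
      intro hd'
      have h3 := f.reduced
      have h4 : q ∣ Nat.gcd f.num.natAbs f.den := Nat.dvd_gcd (Int.natCast_dvd.1 hd') hd
      rw [h3] at h4
      exact hq.one_lt.ne' (Nat.dvd_one.1 h4)
    have hf0 : f ≠ 0 := by
      rintro hf0
      rw [hf0] at hd
      simp at hd
      exact hq.one_lt.ne' hd
    have h3 := hv.le hf0
    rw [padicValRat_def, padicValInt.eq_zero_of_not_dvd hnum] at h3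
    have h4 := one_le_padicValNat_of_dvd f.den_nz hd
    omega
  have hk_odd : Odd f.den := by
    rw [Nat.odd_iff]
    have := hden 2 Nat.prime_two (hvf2.mono (by norm_num))
    omega
  have hm4 : 4 ∣ f.num.natAbs := by
    have := Fact.mk Nat.prime_two
    by_cases hf0 : f = 0
    · rw [hf0]; simp
    have h3 := hvf2.le hf0
    rw [padicValRat_def] at h3
    have h4 : (2 : ℤ) ^ 2 ∣ f.num := by
      have h6 := padicValInt_dvd_iff (p := 2) 2 f.num
      have h7 : ((2 : ℕ) : ℤ) ^ 2 ∣ f.num := h6.2 (Or.inr (by omega))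
      exact_mod_cast h7
    have h5 : (4 : ℤ) ∣ f.num := by simpa using h4
    have := Int.natAbs_dvd_natAbs.2 h5
    simpa using this
  set m := f.num.natAbs with hm
  set k := f.den with hk
  set r : ℕ := n' * k ^ 2 + a * m ^ 2 with hr
  have hr8 : r % 8 = a % 8 := by
    obtain ⟨m', hm'⟩ := hm4
    have h3 : r = n' * k ^ 2 + 8 * (2 * a * m' ^ 2) := by rw [hr, hm']; ring
    rw [h3, Nat.add_mul_mod_self_left, Nat.mul_mod, sq8 k hk_odd, mul_one, Nat.mod_mod, ha8]
  have hasq : Squarefree a := by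
    have := (ti_prod_primes S hSp).1
    rwa [← ha] at this
  have hcop : a.Coprime r := by
    rw [Nat.coprime_iff_gcd_eq_one]
    by_contra hne
    obtain ⟨p, hp, hpd⟩ := Nat.exists_prime_and_dvd hne
    have hpa : p ∣ a := hpd.trans (Nat.gcd_dvd_left _ _)
    have hpr : p ∣ r := hpd.trans (Nat.gcd_dvd_right _ _)
    have hpS : p ∈ S := by
      by_contra hc
      have := Fact.mk hp
      have h3 := hva p hp
      rw [if_neg hc] at h3
      have h4 := one_le_padicValNat_of_dvd ha0 hpa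
      omega
    have h3 : p ∣ n' * k ^ 2 := by
      rw [hr] at hpr
      exact (Nat.dvd_add_left (hpa.mul_right _)).1 hpr
    rcases (Nat.Prime.dvd_mul hp).1 h3 with h4 | h4
    · have := Fact.mk hp
      have h5 := hvn' p hp
      rw [if_pos hpS] at h5
      have h6 := one_le_padicValNat_of_dvd hn'0 h4
      omega
    · exact hden p hp (hvf p hpS) (hp.dvd_of_dvd_pow h4)
  obtain ⟨w, hw⟩ := exists_repr' hasq hr8 (by omega) hcop
  have hn'N : IsN (n' : ℚ) := by
    refine isN_of_even (by exact_mod_cast hn'0) ?_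
    intro q hq
    rw [padicValRat.of_nat, hvn' q hq.1]
    split_ifs with hqS
    · simp
    · rw [hSmem, not_and] at hqS
      have := Nat.not_odd_iff_even.1 (hqS hq)
      exact_mod_cast this
  refine ⟨a * s * w / k, ?_⟩
  have hkq : (k : ℚ) ≠ 0 := by exact_mod_cast f.den_nz
  have h3 : (a * s ^ 2 / k : ℚ) ≠ 0 := div_ne_zero (mul_ne_zero haq (pow_ne_zero 2 hsq)) hkq
  have := (hn'N.mul (IsN.sq h3)).mul hw
  convert this using 1
  have hfm : f ^ 2 = (m : ℚ) ^ 2 / k ^ 2 := by
    have h4 : f = f.num / f.den := (Rat.num_div_den f).symm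
    have h5 : ((m : ℕ) : ℚ) ^ 2 = (f.num : ℚ) ^ 2 := by
      have := Int.natAbs_sq f.num
      have h6 : ((f.num.natAbs : ℤ) : ℚ) ^ 2 = (f.num : ℚ) ^ 2 := by exact_mod_cast this
      rw [hm, ← h6]; simp
    rw [h5, hk]
    conv_lhs => rw [h4]
    rw [div_pow]
  have hNq : (N : ℚ) = a * s ^ 2 * n' := by exact_mod_cast hn'
  rw [hfF, hNq, hr]
  push_cast
  have h6 : (a * s * f) ^ 2 = (a : ℚ) ^ 2 * s ^ 2 * (m ^ 2 / k ^ 2) := by
    rw [mul_pow, mul_pow, hfm]
  rw [h6]
  field_simp

end Pool.Agent.H528R3.FD
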